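import Pool.Agent.Lib.MP_dc5a1d_an.NotKK2

/-! From an abstract sequence of picks and functionals to a diverging run of WCGA(1). -/

set_option autoImplicit false

open Filter Topology

namespace Pool.Agent.Lib.MP_dc5a1d_an

variable {X : Type*} [NormedAddCommGroup X] [NormedSpace ℝ X]

/-- adding a large multiple of a unit vector `e` to `± v` so that the norm is prescribed and the
value of a given functional is relatively smaller than at `e` -/
lemma exists_adjust (e : X) (he : ‖e‖ = 1) (E : X →L[ℝ] ℝ) (hE : ‖E‖ = 1) (d0 : ℝ) (hd0 : 0 < d0)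
    (hEe : E e = d0) (R : ℝ) (hR : 0 < R) (v : X) (hv : ‖v‖ ≤ R) :
    ∃ σ K : ℝ, |σ| = 1 ∧ ‖σ • v + K • e‖ = R + R / d0 ∧
      |E (σ • v + K • e)| ≤ d0 * (R + R / d0) := by
  have he0 : e ≠ 0 := by intro h; rw [h, norm_zero] at he; norm_num at he
  obtain ⟨H, hH⟩ := exists_norming e he0
  obtain ⟨σ, hσ, hσ2⟩ := exists_sign (H v - E v / d0)
  set N := R + R / d0 with hN
  have hRd : 0 < R / d0 := by positivity
  have hnv : ‖σ • v‖ ≤ R := by rw [norm_smul, Real.norm_eq_abs, hσ, one_mul]; exact hv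
  have hcont : ContinuousOn (fun K : ℝ => ‖σ • v + K • e‖) (Set.Icc 0 (N + R)) :=
    (continuous_const.add (continuous_id.smul continuous_const)).norm.continuousOn
  have h0 : ‖σ • v + (0 : ℝ) • e‖ ≤ N := by rw [zero_smul, add_zero]; linarith
  have h1 : N ≤ ‖σ • v + (N + R) • e‖ := by
    have e1 := norm_sub_norm_le ((N + R) • e) (-(σ • v))
    rw [norm_neg, sub_neg_eq_add, norm_smul, Real.norm_eq_abs, he, mul_one,
      abs_of_pos (by linarith), add_comm _ (σ • v)] at e1
    linarith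
  obtain ⟨K, hK, hK2⟩ := intermediate_value_Icc (by linarith : (0 : ℝ) ≤ N + R) hcont ⟨h0, h1⟩
  simp only at hK2
  refine ⟨σ, K, hσ, hK2, ?_⟩
  have hKlow : R / d0 ≤ K := by
    have e1 := norm_add_le (σ • v) (K • e)
    rw [hK2, norm_smul K, he, mul_one, Real.norm_of_nonneg hK.1] at e1
    linarith
  have e2 : E (σ • v + K • e) = σ * E v + K * d0 := by
    rw [map_add, map_smul, map_smul, hEe]; rfl
  have e3 : H (σ • v + K • e) = σ * H v + K := by
    rw [map_add, map_smul, map_smul, hH.2, he]; simp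
  have e4 : H (σ • v + K • e) ≤ N := by
    have := (le_abs_self _).trans (hH.abs_le (σ • v + K • e))
    rwa [hK2] at this
  have e5 : 0 ≤ σ * (H v - E v / d0) := by rw [hσ2]; exact abs_nonneg _
  rw [abs_le]
  constructor
  · have h6 : -R ≤ σ * E v := by
      have := (abs_le.1 (abs_le_of_norm hE.le (σ • v))).1
      rw [map_smul, smul_eq_mul] at this
      linarith
    have h7 : R ≤ K * d0 := by
      have := mul_le_mul_of_nonneg_right hKlow hd0.le
      rwa [div_mul_cancel₀ _ hd0.ne'] at this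
    have h8 : 0 ≤ d0 * N := by positivity
    rw [e2]; linarith
  · have h9 : d0 * (σ * (H v - E v / d0)) = d0 * (σ * H v) - σ * E v := by
      field_simp
    have h10 : 0 ≤ d0 * (σ * (H v - E v / d0)) := mul_nonneg hd0.le e5
    have h11 : d0 * H (σ • v + K • e) ≤ d0 * N := mul_le_mul_of_nonneg_left e4 hd0.le
    rw [e3] at h11
    rw [e2]
    linarith

lemma mul_self_of_abs {σ : ℝ} (h : |σ| = 1) : σ * σ = 1 := by
  rw [← abs_mul_abs_self, h, one_mul]

/-- the assembler -/
theorem assemble (f : X) (y : ℕ → X) (Y : Set X) (R d : ℝ) (E : ℕ → X →L[ℝ] ℝ)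
    (hR : ∀ v ∈ Y, ‖v‖ ≤ R) (hyY : ∀ m, 1 ≤ m → y m ∈ Y) (hE : ∀ m, ‖E m‖ = 1)
    (hkill : ∀ m j, j < m → E m (y j) = 0)
    (hdist : ∀ m G, IsBestApprox f G (Sp y m) → ‖f - G‖ = E m f)
    (hlow : ∀ m, 1 ≤ E m f) (hd : 0 < d) (hslope : ∀ m, d ≤ |E m (y m)|)
    (hmax : ∀ m, 1 ≤ m → ∀ v ∈ Y, |E m v| ≤ |E m (y m)|) : ¬ Converges X 1 := by
  intro hconv
  -- the first element
  have hy0 : y 0 ≠ 0 := by
    intro h
    have := hslope 0
    rw [h, map_zero, abs_zero] at this
    linarith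
  have hn0 : 0 < ‖y 0‖ := norm_pos_iff.2 hy0
  obtain ⟨σ0, hσ0, hσ0'⟩ := exists_sign (E 0 (y 0))
  have hσ0s := mul_self_of_abs hσ0
  set e : X := (σ0 * ‖y 0‖⁻¹) • y 0 with he_def
  have he : ‖e‖ = 1 := by
    rw [he_def, norm_smul, Real.norm_eq_abs, abs_mul, hσ0, one_mul, abs_inv, abs_norm,
      inv_mul_cancel₀ hn0.ne']
  set d0 : ℝ := |E 0 (y 0)| * ‖y 0‖⁻¹ with hd0_def
  have hEe : E 0 e = d0 := by
    rw [he_def, map_smul, smul_eq_mul, hd0_def, ← hσ0']; ring
  have hd0 : 0 < d0 := by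
    have := hslope 0
    have : 0 < |E 0 (y 0)| := by linarith
    positivity
  have hy0e : y 0 = (σ0 * ‖y 0‖) • e := by
    rw [he_def, smul_smul]
    have : σ0 * ‖y 0‖ * (σ0 * ‖y 0‖⁻¹) = 1 := by
      calc σ0 * ‖y 0‖ * (σ0 * ‖y 0‖⁻¹) = (σ0 * σ0) * (‖y 0‖ * ‖y 0‖⁻¹) := by ring
        _ = 1 := by rw [hσ0s, mul_inv_cancel₀ hn0.ne', one_mul]
    rw [this, one_smul]
  set R1 : ℝ := |R| + 1 with hR1_def
  have hR1 : 1 ≤ R1 := by have := abs_nonneg R; linarith
  set N : ℝ := R1 + R1 / d0 with hN_def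
  have hNp : 0 < N := by positivity
  have key : ∀ v : X, ∃ σ K : ℝ, ‖v‖ ≤ R1 → |σ| = 1 ∧ ‖σ • v + K • e‖ = N ∧
      |E 0 (σ • v + K • e)| ≤ d0 * N := by
    intro v
    by_cases hv : ‖v‖ ≤ R1
    · obtain ⟨σ, K, h1, h2, h3⟩ := exists_adjust e he (E 0) (hE 0) d0 hd0 hEe R1 (by linarith) v hv
      exact ⟨σ, K, fun _ => ⟨h1, h2, h3⟩⟩
    · exact ⟨0, 0, fun h => absurd h hv⟩
  choose σ K hσK using key
  set ψ : X → X := fun v => N⁻¹ • (σ v • v + K v • e) with hψ
  have hψn : ∀ v, ‖v‖ ≤ R1 → ‖ψ v‖ = 1 := by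
    intro v hv
    show ‖N⁻¹ • (σ v • v + K v • e)‖ = 1
    rw [norm_smul, (hσK v hv).2.1, norm_inv, Real.norm_of_nonneg hNp.le, inv_mul_cancel₀ hNp.ne']
  have hψ0 : ∀ v, ‖v‖ ≤ R1 → |E 0 (ψ v)| ≤ d0 := by
    intro v hv
    show |E 0 (N⁻¹ • (σ v • v + K v • e))| ≤ d0
    rw [map_smul, smul_eq_mul, abs_mul, abs_inv, abs_of_pos hNp, inv_mul_le_iff₀ hNp]
    have := (hσK v hv).2.2
    linarith
  have hEm_e : ∀ m, 1 ≤ m → E m e = 0 := by
    intro m hm
    rw [he_def, map_smul, hkill m 0 hm, smul_zero]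
  have hψm : ∀ m, 1 ≤ m → ∀ v, ‖v‖ ≤ R1 → |E m (ψ v)| = N⁻¹ * |E m v| := by
    intro m hm v hv
    show |E m (N⁻¹ • (σ v • v + K v • e))| = _
    rw [map_smul, map_add, map_smul, map_smul, hEm_e m hm, smul_zero, add_zero, smul_eq_mul,
      smul_eq_mul, abs_mul, abs_mul, (hσK v hv).1, one_mul, abs_inv, abs_of_pos hNp]
  have hYR : ∀ v ∈ Y, ‖v‖ ≤ R1 := by
    intro v hv
    have h1 := hR v hv
    have h2 := le_abs_self R
    linarith
  set ε : ℝ := min d 1 with hε_def
  have hε : 0 < ε := lt_min hd one_pos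
  have hεh : ∀ h : X, ‖h‖ ≤ 1 → ‖ε • h‖ ≤ R1 := by
    intro h hh
    rw [norm_smul, Real.norm_of_nonneg hε.le]
    have h1 : ε ≤ 1 := min_le_right _ _
    have h2 : ε * ‖h‖ ≤ 1 * 1 := mul_le_mul h1 hh (norm_nonneg _) zero_le_one
    linarith
  -- the dictionary
  set D : Set X := {x | x = e} ∪ ({x | ∃ v ∈ Y, x = ψ v} ∪ {x | ∃ h : X, ‖h‖ ≤ 1 ∧ x = ψ (ε • h)})
    with hD
  have heD : e ∈ D := Or.inl rfl
  have hdict : IsDictionary D := by
    constructor
    · rintro x (rfl | ⟨v, hv, rfl⟩ | ⟨h, hh, rfl⟩)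
      · exact he
      · exact hψn v (hYR v hv)
      · exact hψn _ (hεh h hh)
    · have heS : e ∈ Submodule.span ℝ D := Submodule.subset_span heD
      have hball : ∀ h : X, ‖h‖ ≤ 1 → h ∈ Submodule.span ℝ D := by
        intro h hh
        have h1 : ψ (ε • h) ∈ Submodule.span ℝ D :=
          Submodule.subset_span (Or.inr (Or.inr ⟨h, hh, rfl⟩))
        have h2 := Submodule.smul_mem (Submodule.span ℝ D) N h1
        have h3 : N • ψ (ε • h) = σ (ε • h) • (ε • h) + K (ε • h) • e := by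
          show N • (N⁻¹ • (σ (ε • h) • (ε • h) + K (ε • h) • e)) = _
          rw [smul_smul, mul_inv_cancel₀ hNp.ne', one_smul]
        rw [h3] at h2
        have h4 := Submodule.sub_mem _ h2 (Submodule.smul_mem _ (K (ε • h)) heS)
        rw [add_sub_cancel_right] at h4
        have h5 := Submodule.smul_mem (Submodule.span ℝ D) (ε⁻¹ * σ (ε • h)) h4
        have h6 : (ε⁻¹ * σ (ε • h)) • σ (ε • h) • ε • h = h := by
          rw [smul_smul, smul_smul]
          have hs := mul_self_of_abs (hσK (ε • h) (hεh h hh)).1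
          have : ε⁻¹ * σ (ε • h) * σ (ε • h) * ε = 1 := by
            calc ε⁻¹ * σ (ε • h) * σ (ε • h) * ε = (ε⁻¹ * ε) * (σ (ε • h) * σ (ε • h)) := by ring
              _ = 1 := by rw [hs, inv_mul_cancel₀ hε.ne', one_mul]
          rw [this, one_smul]
        rwa [h6] at h5
      have : Submodule.span ℝ D = ⊤ := by
        rw [eq_top_iff]
        intro u _
        by_cases hu0 : u = 0
        · rw [hu0]; exact Submodule.zero_mem _
        · have hn : ‖u‖ ≠ 0 := norm_ne_zero_iff.2 hu0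
          have : u = ‖u‖ • ((‖u‖)⁻¹ • u) := by rw [smul_smul, mul_inv_cancel₀ hn, one_smul]
          rw [this]
          apply Submodule.smul_mem
          apply hball
          rw [norm_smul, norm_inv, norm_norm, inv_mul_cancel₀ hn]
      rw [this]
      exact dense_univ
  -- the picks
  set φ : ℕ → X := fun m => if m = 0 then e else ψ (y m) with hφ
  have hφ0 : φ 0 = e := by simp [hφ]
  have hφm : ∀ m, 1 ≤ m → φ m = ψ (y m) := by
    intro m hm
    have : m ≠ 0 := by omega
    simp [hφ, this]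
  have hSp : ∀ m, Sp φ m = Sp y m := by
    intro m
    apply le_antisymm
    · unfold Sp
      rw [Submodule.span_le]
      rintro x ⟨j, hj, rfl⟩
      have hym : y 0 ∈ Submodule.span ℝ {x | ∃ j < m, x = y j} :=
        Submodule.subset_span ⟨0, by omega, rfl⟩
      have hem : e ∈ Submodule.span ℝ {x | ∃ j < m, x = y j} := Submodule.smul_mem _ _ hym
      by_cases hj0 : j = 0
      · subst hj0; rw [hφ0]; exact hem
      · rw [hφm j (by omega)]
        show N⁻¹ • (σ (y j) • y j + K (y j) • e) ∈ _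
        apply Submodule.smul_mem
        apply Submodule.add_mem
        · exact Submodule.smul_mem _ _ (Submodule.subset_span ⟨j, hj, rfl⟩)
        · exact Submodule.smul_mem _ _ hem
    · unfold Sp
      rw [Submodule.span_le]
      rintro x ⟨j, hj, rfl⟩
      have hem : e ∈ Submodule.span ℝ {x | ∃ j < m, x = φ j} :=
        Submodule.subset_span ⟨0, by omega, hφ0.symm⟩
      by_cases hj0 : j = 0
      · subst hj0
        rw [SetLike.mem_coe, hy0e]
        exact Submodule.smul_mem _ _ hem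
      · have hj1 : 1 ≤ j := by omega
        have h1 : ψ (y j) ∈ Submodule.span ℝ {x | ∃ j < m, x = φ j} :=
          Submodule.subset_span ⟨j, hj, (hφm j hj1).symm⟩
        have h2 := Submodule.smul_mem _ N h1
        have h3 : N • ψ (y j) = σ (y j) • y j + K (y j) • e := by
          show N • (N⁻¹ • (σ (y j) • y j + K (y j) • e)) = _
          rw [smul_smul, mul_inv_cancel₀ hNp.ne', one_smul]
        rw [h3] at h2
        have h4 := Submodule.sub_mem _ h2 (Submodule.smul_mem _ (K (y j)) hem)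
        rw [add_sub_cancel_right] at h4
        have h5 := Submodule.smul_mem _ (σ (y j)) h4
        rwa [smul_smul, mul_self_of_abs (hσK (y j) (hYR _ (hyY j hj1))).1, one_smul] at h5
  choose G hG using fun m => exists_best (Sp y m) f
  have hres : ∀ m, 1 ≤ ‖f - G m‖ := by
    intro m
    rw [hdist m (G m) (hG m)]
    exact hlow m
  have hne : ∀ m, f - G m ≠ 0 := by
    intro m h0
    have := hres m
    rw [h0, norm_zero] at this
    linarith
  have hann : ∀ m, ∀ u ∈ Sp y m, E m u = 0 := by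
    intro m u hu
    have : Sp y m ≤ LinearMap.ker (E m : X →ₗ[ℝ] ℝ) := by
      unfold Sp
      rw [Submodule.span_le]
      rintro x ⟨j, hj, rfl⟩
      exact hkill m j hj
    exact this hu
  have hrun : IsRun 1 D f φ G := by
    refine ⟨?_, fun m h => absurd h (hne m), ?_⟩
    · have := (hG 0).1
      rw [Sp_zero] at this
      exact (Submodule.mem_bot ℝ).1 this
    · intro m _
      refine ⟨E m, ⟨hE m, ?_⟩, ?_, ?_, ?_⟩
      · rw [map_sub, hann m _ (hG m).1, sub_zero, hdist m (G m) (hG m)]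
      · by_cases hm : m = 0
        · subst hm; rw [hφ0]; exact heD
        · rw [hφm m (by omega)]
          exact Or.inr (Or.inl ⟨y m, hyY m (by omega), rfl⟩)
      · intro g hg
        rw [one_mul]
        by_cases hm : m = 0
        · subst hm
          rw [hφ0, hEe, abs_of_pos hd0]
          rcases hg with rfl | ⟨v, hv, rfl⟩ | ⟨h, hh, rfl⟩
          · rw [hEe, abs_of_pos hd0]
          · exact hψ0 v (hYR v hv)
          · exact hψ0 _ (hεh h hh)
        · have hm1 : 1 ≤ m := by omega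
          rw [hφm m hm1, hψm m hm1 (y m) (hYR _ (hyY m hm1))]
          rcases hg with rfl | ⟨v, hv, rfl⟩ | ⟨h, hh, rfl⟩
          · rw [hEm_e m hm1, abs_zero]
            positivity
          · rw [hψm m hm1 v (hYR v hv)]
            exact mul_le_mul_of_nonneg_left (hmax m hm1 v hv) (by positivity)
          · rw [hψm m hm1 _ (hεh h hh)]
            apply mul_le_mul_of_nonneg_left _ (by positivity)
            rw [map_smul, smul_eq_mul, abs_mul, abs_of_pos hε]
            have h1 := abs_le_of_norm (hE m).le h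
            have h2 : ε * |E m h| ≤ ε * 1 := mul_le_mul_of_nonneg_left (h1.trans hh) hε.le
            have h3 : ε ≤ d := min_le_left _ _
            have h4 := hslope m
            linarith
      · rw [Sp_succ, hSp]
        exact hG (m + 1)
  have hlim := hconv D hdict f φ G hrun
  have h0 : (1 : ℝ) ≤ 0 := ge_of_tendsto' hlim hres
  linarith

end Pool.Agent.Lib.MP_dc5a1d_an
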