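import Pool.Agent.Lib.MP_dc5a1d_an.Defs

/-! Basic facts: annihilating norming functionals, best approximations, weak* limits. -/

set_option autoImplicit false

open Filter Topology

namespace Pool.Agent.Lib.MP_dc5a1d_an

variable {X : Type*} [NormedAddCommGroup X] [NormedSpace ℝ X]

lemma IsNorming.abs_le {F : X →L[ℝ] ℝ} {h : X} (hF : IsNorming F h) (x : X) : |F x| ≤ ‖x‖ := by
  have := F.le_opNorm x
  rw [hF.1, one_mul] at this
  exact this

lemma abs_le_of_norm {F : X →L[ℝ] ℝ} (hF : ‖F‖ ≤ 1) (x : X) : |F x| ≤ ‖x‖ := by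
  have := F.le_opNorm x
  have h2 := norm_nonneg x
  rw [Real.norm_eq_abs] at this
  nlinarith

lemma exists_norming (h : X) (hh : h ≠ 0) : ∃ F : X →L[ℝ] ℝ, IsNorming F h := by
  obtain ⟨g, hg1, hg2⟩ := exists_dual_vector ℝ h (norm_ne_zero_iff.2 hh)
  exact ⟨g, hg1, by simpa using hg2⟩

/-- Hahn-Banach: a norming functional annihilating a subspace from which `0` is a best
approximation -/
lemma exists_annih (V : Submodule ℝ X) (h : X) (hne : h ≠ 0) (hb : ∀ u ∈ V, ‖h‖ ≤ ‖h - u‖) :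
    ∃ H : X →L[ℝ] ℝ, IsNorming H h ∧ ∀ u ∈ V, H u = 0 := by
  have hq : ‖(Submodule.Quotient.mk h : X ⧸ V)‖ = ‖h‖ := by
    apply le_antisymm
    · exact Submodule.Quotient.norm_mk_le V h
    · have : ∀ m : X, (Submodule.Quotient.mk m : X ⧸ V) = Submodule.Quotient.mk h → ‖h‖ ≤ ‖m‖ := by
        intro m hm
        rw [Submodule.Quotient.eq] at hm
        have h2 := hb (h - m) (by simpa using V.neg_mem hm)
        simpa using h2
      exact (QuotientAddGroup.le_norm_iff (S := V.toAddSubgroup)).2 this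
  obtain ⟨g, hg1, hg2⟩ := exists_dual_vector ℝ (Submodule.Quotient.mk h : X ⧸ V)
    (by rw [hq]; exact norm_ne_zero_iff.2 hne)
  rw [hq] at hg2
  have hmk : ∀ x : X, ‖(Submodule.Quotient.mk x : X ⧸ V)‖ ≤ ‖x‖ := Submodule.Quotient.norm_mk_le V
  set H : X →L[ℝ] ℝ := LinearMap.mkContinuous ((g : X ⧸ V →ₗ[ℝ] ℝ).comp V.mkQ) 1 (by
    intro x
    have h1 := g.le_opNorm (Submodule.Quotient.mk x : X ⧸ V)
    rw [hg1, one_mul] at h1
    rw [one_mul]
    exact h1.trans (hmk x)) with hH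
  have hHx : ∀ x, H x = g (Submodule.Quotient.mk x : X ⧸ V) := fun x => rfl
  have hn : ‖H‖ ≤ 1 := LinearMap.mkContinuous_norm_le _ zero_le_one _
  refine ⟨H, ⟨?_, ?_⟩, ?_⟩
  · apply le_antisymm hn
    have h1 := H.le_opNorm h
    rw [hHx, hg2] at h1
    have h2 : 0 < ‖h‖ := norm_pos_iff.2 hne
    simp at h1
    nlinarith
  · rw [hHx, hg2]; simp
  · intro u hu
    rw [hHx]
    have : (Submodule.Quotient.mk u : X ⧸ V) = 0 := (Submodule.Quotient.mk_eq_zero V).2 hu
    rw [this, map_zero]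

/-- in a smooth space the norming functional of a Chebyshev residual annihilates the subspace -/
lemma smooth_annih (hS : Smooth X) (V : Submodule ℝ X) (f G : X) (hG : IsBestApprox f G V)
    (hne : f - G ≠ 0) (E : X →L[ℝ] ℝ) (hE : IsNorming E (f - G)) : ∀ u ∈ V, E u = 0 := by
  obtain ⟨H, hH1, hH2⟩ := exists_annih V (f - G) hne (by
    intro u hu
    have := hG.2 (G + u) (V.add_mem hG.1 hu)
    rw [sub_add_eq_sub_sub] at this
    exact this)
  rw [hS _ hne E H hE hH1]
  exact hH2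

/-- best approximations from finite dimensional subspaces exist -/
lemma exists_best (V : Submodule ℝ X) [FiniteDimensional ℝ V] (f : X) :
    ∃ G, IsBestApprox f G V := by
  have hc : Continuous fun u : V => ‖f - (u : X)‖ :=
    (continuous_const.sub continuous_subtype_val).norm
  have ht : Tendsto (fun u : V => ‖f - (u : X)‖) (cocompact V) atTop := by
    have h1 : Tendsto (fun u : V => ‖u‖ - ‖f‖) (cocompact V) atTop :=
      tendsto_atTop_add_const_right _ _ (tendsto_norm_cocompact_atTop)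
    apply tendsto_atTop_mono _ h1
    intro u
    have := norm_sub_norm_le (u : X) f
    rw [norm_sub_rev] at this
    exact this
  obtain ⟨u, hu⟩ := hc.exists_forall_le ht
  exact ⟨u, u.2, fun v hv => hu ⟨v, hv⟩⟩

/-- weak* limits along ultrafilters -/
lemma exists_ultralim {ι : Type*} (𝒰 : Ultrafilter ι) (E : ι → X →L[ℝ] ℝ) (hE : ∀ i, ‖E i‖ ≤ 1) :
    ∃ F : X →L[ℝ] ℝ, ‖F‖ ≤ 1 ∧ ∀ x, Tendsto (fun i => E i x) 𝒰 (𝓝 (F x)) := by
  have hcomp := WeakDual.isCompact_closedBall (𝕜 := ℝ) (E := X) (0 : X →L[ℝ] ℝ) 1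
  have hmem : ∀ i, StrongDual.toWeakDual (E i) ∈
      (WeakDual.toStrongDual ⁻¹' Metric.closedBall (0 : StrongDual ℝ X) 1) := by
    intro i
    simpa using hE i
  obtain ⟨F, hF, hle⟩ := hcomp.ultrafilter_le_nhds (𝒰.map fun i => StrongDual.toWeakDual (E i)) (by
    rw [Ultrafilter.coe_map, le_principal_iff, mem_map]
    exact Filter.univ_mem' hmem)
  refine ⟨WeakDual.toStrongDual F, ?_, ?_⟩
  · simpa using hF
  · intro x
    have h1 : Tendsto (fun i => StrongDual.toWeakDual (E i)) 𝒰 (𝓝 F) := hle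
    exact ((WeakDual.eval_continuous x).tendsto F).comp h1

/-- in the span of finitely many vectors, closeness on a finite set controls closeness on the ball -/
lemma finite_control (V : Submodule ℝ X) [FiniteDimensional ℝ V] (τ : ℝ) (hτ : 0 < τ) :
    ∃ (s : Finset X) (η : ℝ), 0 < η ∧ ∀ P : X →L[ℝ] ℝ, ‖P‖ ≤ 2 → (∀ x ∈ s, |P x| < η) →
      ∀ u ∈ V, |P u| ≤ τ * ‖u‖ := by
  classical
  have hcomp : IsCompact (Metric.closedBall (0 : V) 1) := isCompact_closedBall _ _
  obtain ⟨t, ht, hcov⟩ := hcomp.finite_cover_balls (e := τ / 4) (by positivity)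
  obtain ⟨htf, hcov⟩ := hcov
  refine ⟨htf.toFinset.image (fun v : V => (v : X)), τ / 2, by positivity, ?_⟩
  intro P hP hs u hu
  have key : ∀ v : V, ‖v‖ ≤ 1 → |P v| ≤ τ := by
    intro v hv
    have hv' : v ∈ Metric.closedBall (0 : V) 1 := by simpa using hv
    have := hcov hv'
    simp only [Set.mem_iUnion] at this
    obtain ⟨w, hw, hvw⟩ := this
    rw [Metric.mem_ball, dist_eq_norm] at hvw
    have h1 := hs (w : X) (by
      rw [Finset.mem_image]; exact ⟨w, htf.mem_toFinset.2 hw, rfl⟩)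
    have h2 : |P ((v : X) - w)| ≤ 2 * ‖(v : X) - w‖ := by
      have := P.le_opNorm ((v : X) - w)
      rw [Real.norm_eq_abs] at this
      exact this.trans (mul_le_mul_of_nonneg_right hP (norm_nonneg _))
    have h3 : ‖(v : X) - w‖ = ‖v - w‖ := rfl
    have h4 : P v = P w + P ((v : X) - w) := by rw [← map_add]; congr 1; abel
    rw [h4]
    calc |P w + P ((v : X) - w)| ≤ |P w| + |P ((v : X) - w)| := abs_add_le _ _
      _ ≤ τ / 2 + 2 * (τ / 4) := by
        rw [h3] at h2
        have : 2 * ‖v - w‖ ≤ 2 * (τ / 4) := by linarith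
        linarith
      _ = τ := by ring
  by_cases hu0 : u = 0
  · subst hu0; simp
  · have hn : 0 < ‖u‖ := norm_pos_iff.2 hu0
    have h1 := key ⟨(‖u‖)⁻¹ • u, V.smul_mem _ hu⟩ (by
      show ‖(‖u‖)⁻¹ • u‖ ≤ 1
      rw [norm_smul, norm_inv, norm_norm, inv_mul_cancel₀ hn.ne'])
    simp only [map_smul, smul_eq_mul, abs_mul, abs_inv, abs_norm] at h1
    rw [inv_mul_le_iff₀ hn] at h1
    linarith

end Pool.Agent.Lib.MP_dc5a1d_an
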