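import Pool.Agent.Lib.MP_dc5a1d_an.ChainEst

/-! The chain: later slopes and the data for the assembler. -/

set_option autoImplicit false

open Filter Topology

namespace Pool.Agent.Lib.MP_dc5a1d_an

variable {X : Type*} [NormedAddCommGroup X] [NormedSpace ℝ X]

section

variable {q : ℝ} {S : Sched q} {F : X →L[ℝ] ℝ} {Δ : ℝ} {x z : ℕ → X} {G E : ℕ → X →L[ℝ] ℝ}

lemma om_cases (S : Sched q) (m : ℕ) : S.ω m = 1 ∨ S.ω m = 1 / 800 := by
  by_cases h : S.en m
  · exact Or.inr (S.en_step m h).2.2.2.2.2.2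
  · exact Or.inl (S.nen_step m h).2.2.2.2.2

lemma a_cases (S : Sched q) (m : ℕ) : 0 ≤ S.a m ∧ S.a m ≤ 400 := by
  cases m with
  | zero => rw [S.a_zero]; norm_num
  | succ m =>
    by_cases h : S.en m
    · rw [(S.en_step m h).2.2.2.1]; norm_num
    · by_cases h' : S.en (m + 1)
      · rw [(S.en_a m h h').1]; norm_num
      · rw [S.nen_a m h h']; norm_num

lemma b_bound (S : Sched q) (m : ℕ) : 0 ≤ S.b m ∧ S.b m ≤ 9 / 10 := by
  rcases S.b_nonneg m with h | h <;> rw [h] <;> norm_num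

variable (hF : ‖F‖ = 1) (hΔ : 0 < Δ) (hΔ1 : Δ ≤ 1 / 4) (hq : q = Δ / 64000) 
  (D : ChainData S F Δ (KC S Δ) (etaC Δ) x z G E)

include hF hΔ hΔ1 hq D

omit hF hq in
lemma ww_norm (j : ℕ) : ‖ww S x j‖ ≤ 3 := by
  have h1 := KC_N hΔ D j
  have h2 := KC_B hΔ D j
  have h3 : (9 / 10 : ℝ) ^ j ≤ 1 := pow_le_one₀ (by norm_num) (by norm_num)
  have h4 : (9 / 10 : ℝ) ^ j * (Δ / 80) ≤ 1 * (Δ / 80) :=
    mul_le_mul_of_nonneg_right h3 (by positivity)
  have h5 := norm_sub_le (x (S.N j)) (x (S.B j))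
  unfold ww
  linarith

/-- elements containing only the shift vector are invisible -/
lemma tau_small (m j : ℕ) : |S.τ j * E m (ww S x j)| ≤ 3 * Δ / 64000 := by
  have h1 := (abs_le_of_norm (E_isE hF hΔ D m).1.le (ww S x j)).trans (ww_norm hΔ hΔ1 D j)
  have h2 := S.τ_nonneg j
  have h3 := S.τ_le j
  rw [abs_mul, abs_of_nonneg h2]
  have h4 : S.τ j * |E m (ww S x j)| ≤ q * 3 :=
    mul_le_mul h3 h1 (abs_nonneg _) (h2.trans h3)
  linarith

omit hF hΔ hΔ1 hq D in
lemma om_abs (S : Sched q) (j : ℕ) (t : ℝ) : |S.ω j * t| ≤ |t| := by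
  rw [abs_mul]
  rcases om_cases S j with h | h
  · rw [h]; simp
  · rw [h, abs_of_pos (by norm_num : (0 : ℝ) < 1 / 800)]
    have := abs_nonneg t
    linarith

/-- lower bound of the slope of the pick -/
lemma low_slope (m : ℕ) : 3 * Δ / 64000 ≤ S.ω m * E m (ph S x z m) := by
  by_cases h : S.en m
  · have h1 := slope_en hF hΔ hΔ1 D m h
    rw [(S.en_step m h).2.2.2.2.2.2]
    linarith
  · have h1 := slope_nen hF hΔ hΔ1 D m h
    have h2 := E_z hF hΔ hΔ1 D m
    rw [(S.nen_step m h).2.2.2.2.2, one_mul]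
    linarith

omit hq in
lemma E_ph_expand (m j : ℕ) : E m (ph S x z j) = E m (kk z j) - S.a j * E m (kk z (j - 1)) -
    S.b j * E m (kk z (j - 2)) - S.τ j * E m (ww S x j) := by
  unfold ph
  rw [map_sub, map_sub, map_sub, map_smul, map_smul, map_smul]
  rfl

/-- the next element -/
lemma next_slope (m : ℕ) : |S.ω (m + 1) * E m (ph S x z (m + 1))| ≤
    S.ω m * E m (ph S x z m) := by
  have hlow := low_slope hF hΔ hΔ1 hq D m
  have hez := E_z hF hΔ hΔ1 D m
  have hexp := E_ph_expand hF hΔ hΔ1 D m (m + 1)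
  rw [Nat.add_sub_cancel, E_kk_gt hF hΔ D m (m + 1) (by omega), E_kk_self hF hΔ D] at hexp
  by_cases h : S.en m
  · obtain ⟨_, _, _, h4, h5, _⟩ := S.en_step m h
    rw [h4, h5] at hexp
    have h6 := tau_small hF hΔ hΔ1 hq D m (m + 1)
    have h7 := om_abs S (m + 1) (E m (ph S x z (m + 1)))
    have h8 : E m (ph S x z (m + 1)) = -(S.τ (m + 1) * E m (ww S x (m + 1))) := by
      rw [hexp]; ring
    rw [h8, abs_neg] at h7
    rw [h8]
    linarith
  · have hs := slope_nen hF hΔ hΔ1 D m h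
    obtain ⟨h1, h2, h3, h4, h5, h6⟩ := S.nen_step m h
    rw [h5] at hexp
    rw [h6, one_mul]
    by_cases h' : S.en (m + 1)
    · obtain ⟨k1, k2, _⟩ := S.en_a m h h'
      rw [k1, k2] at hexp
      have h8 : E m (ph S x z (m + 1)) = -(400 * E m (z m)) := by
        rw [hexp]; ring
      rw [h8, (S.en_step (m + 1) h').2.2.2.2.2.2, abs_mul, abs_neg,
        abs_of_nonneg (by linarith : 0 ≤ 400 * E m (z m)),
        abs_of_pos (by norm_num : (0 : ℝ) < 1 / 800)]
      linarith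
    · have k1 := S.nen_a m h h'
      rw [k1] at hexp
      have k6 : S.ω (m + 1) = 1 := (S.nen_step (m + 1) h').2.2.2.2.2
      rw [k6, one_mul]
      rcases S.b_nonneg (m + 1) with hb | hb
      · rw [hb] at hexp
        have h8 : E m (ph S x z (m + 1)) = -(9 / 10 * E m (z m)) := by
          rw [hexp]; ring
        rw [h8, abs_neg, abs_of_nonneg (by linarith)]
        linarith
      · cases m with
        | zero =>
          rw [S.b_one] at hb
          norm_num at hb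
        | succ m' =>
          have hb' : S.b (m' + 2) ≠ 0 := by
            have : S.b (m' + 2) = 9 / 10 := hb
            rw [this]; norm_num
          obtain ⟨g1, g2⟩ := b_nen S m' hb'
          have e1 : m' + 1 + 1 - 2 = m' := by omega
          obtain ⟨l1, l2, _, l4, _⟩ := S.nen_step m' g1
          have hww : ww S x m' = ww S x (m' + 1) := by
            unfold ww
            rw [l1, l2]
          rw [hb, e1, E_kk_prev hF hΔ D m', hww] at hexp
          have hE := E_ph hF hΔ D (m' + 1)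
          have hmono := S.μ_mono m' g1 g2
          have hμ := S.μ_nonneg m'
          have hμ1 := S.μ_nonneg (m' + 1)
          set W := E (m' + 1) (ww S x (m' + 1)) with hW
          set e := E (m' + 1) (z (m' + 1)) with he
          have h8 : E (m' + 1) (ph S x z (m' + 1 + 1)) = -(9 / 10 * e + 9 / 10 * (S.μ m' * W)) := by
            rw [hexp]; ring
          rw [h8, abs_neg]
          by_cases hWp : 0 < W
          · have hr : (9 / 10 : ℝ) ^ (m' + 1) * S.μ m' ≤ 7 / 360 := by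
              have : (9 / 10 : ℝ) ^ (m' + 1) * S.μ m' = 9 / 10 * ((9 / 10 : ℝ) ^ m' * S.μ m') := by
                ring
              rw [this]
              have : 0 ≤ (9 / 10 : ℝ) ^ m' * S.μ m' := by positivity
              linarith
            have hsw := small_w hF hΔ hΔ1 D (m' + 1) (S.μ m') hμ hr hWp
            rw [← hW, ← he] at hsw
            have : 0 ≤ S.μ m' * W := mul_nonneg hμ hWp.le
            rw [abs_of_nonneg (by linarith)]
            linarith
          · push Not at hWp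
            have q1 : S.μ m' * W ≤ 0 := mul_nonpos_of_nonneg_of_nonpos hμ hWp
            have q2 : S.μ (m' + 1) * W ≤ 9 / 10 * S.μ m' * W := by
              exact mul_le_mul_of_nonpos_right hmono hWp
            rw [hE, abs_le]
            constructor
            · linarith
            · have q3 : S.μ (m' + 1) * W ≤ 0 := mul_nonpos_of_nonneg_of_nonpos hμ1 hWp
              linarith

/-- the second next element -/
lemma next2_slope (m : ℕ) : |S.ω (m + 2) * E m (ph S x z (m + 2))| ≤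
    S.ω m * E m (ph S x z m) := by
  have hlow := low_slope hF hΔ hΔ1 hq D m
  have hez := E_z hF hΔ hΔ1 D m
  have hexp := E_ph_expand hF hΔ hΔ1 D m (m + 2)
  have e1 : m + 2 - 1 = m + 1 := by omega
  have e2 : m + 2 - 2 = m := by omega
  rw [e1, e2, E_kk_gt hF hΔ D m (m + 2) (by omega), E_kk_gt hF hΔ D m (m + 1) (by omega),
    E_kk_self hF hΔ D] at hexp
  have h7 := om_abs S (m + 2) (E m (ph S x z (m + 2)))
  by_cases hb : S.b (m + 2) = 0
  · rw [hb] at hexp
    have h6 := tau_small hF hΔ hΔ1 hq D m (m + 2)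
    have h8 : E m (ph S x z (m + 2)) = -(S.τ (m + 2) * E m (ww S x (m + 2))) := by
      rw [hexp]; ring
    rw [h8, abs_neg] at h7
    rw [h8]
    linarith
  · obtain ⟨g1, g2⟩ := b_nen S m hb
    have hs := slope_nen hF hΔ hΔ1 D m g1
    have hb' : S.b (m + 2) = 9 / 10 := (S.b_nonneg (m + 2)).resolve_left hb
    rw [hb', S.bτ (m + 2) hb] at hexp
    have h8 : E m (ph S x z (m + 2)) = -(9 / 10 * E m (z m)) := by
      rw [hexp]; ring
    rw [(S.nen_step m g1).2.2.2.2.2, one_mul]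
    refine h7.trans ?_
    rw [h8, abs_neg, abs_of_nonneg (by linarith)]
    linarith

/-- far elements -/
lemma far_slope (m j : ℕ) (hj : m + 3 ≤ j) : |S.ω j * E m (ph S x z j)| ≤
    S.ω m * E m (ph S x z m) := by
  have hlow := low_slope hF hΔ hΔ1 hq D m
  have hexp := E_ph_expand hF hΔ hΔ1 D m j
  rw [E_kk_gt hF hΔ D m j (by omega), E_kk_gt hF hΔ D m (j - 1) (by omega),
    E_kk_gt hF hΔ D m (j - 2) (by omega)] at hexp
  have h7 := om_abs S j (E m (ph S x z j))
  have h6 := tau_small hF hΔ hΔ1 hq D m j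
  have h8 : E m (ph S x z j) = -(S.τ j * E m (ww S x j)) := by
    rw [hexp]; ring
  rw [h8, abs_neg] at h7
  rw [h8]
  linarith

omit hF hΔ hΔ1 hq in
lemma kk_norm (j : ℕ) : ‖kk z j‖ ≤ 2 := by
  unfold kk
  have h1 := norm_sub_le (z j) ((9 / 10 : ℝ) • z (j + 1))
  rw [norm_smul, Real.norm_of_nonneg (by norm_num : (0 : ℝ) ≤ 9 / 10)] at h1
  have h2 := D.nz j
  have h3 := D.nz (j + 1)
  linarith

omit hF in
lemma ph_norm (j : ℕ) : ‖S.ω j • ph S x z j‖ ≤ 1000 := by
  have h1 : ‖ph S x z j‖ ≤ ‖kk z j‖ + ‖S.a j • kk z (j - 1)‖ + ‖S.b j • kk z (j - 2)‖ +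
      ‖S.τ j • ww S x j‖ := by
    unfold ph
    have g1 := norm_sub_le (kk z j - S.a j • kk z (j - 1) - S.b j • kk z (j - 2))
      (S.τ j • ww S x j)
    have g2 := norm_sub_le (kk z j - S.a j • kk z (j - 1)) (S.b j • kk z (j - 2))
    have g3 := norm_sub_le (kk z j) (S.a j • kk z (j - 1))
    linarith
  obtain ⟨a1, a2⟩ := a_cases S j
  obtain ⟨b1, b2⟩ := b_bound S j
  have t1 := S.τ_nonneg j
  have t2 := S.τ_le j
  have k1 := kk_norm D j
  have k2 := kk_norm D (j - 1)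
  have k3 := kk_norm D (j - 2)
  have k4 := ww_norm hΔ hΔ1 D j
  have n1 : ‖S.a j • kk z (j - 1)‖ ≤ 400 * 2 := by
    rw [norm_smul, Real.norm_of_nonneg a1]
    exact mul_le_mul a2 k2 (norm_nonneg _) (by norm_num)
  have n2 : ‖S.b j • kk z (j - 2)‖ ≤ 9 / 10 * 2 := by
    rw [norm_smul, Real.norm_of_nonneg b1]
    exact mul_le_mul b2 k3 (norm_nonneg _) (by norm_num)
  have n3 : ‖S.τ j • ww S x j‖ ≤ 1 * 3 := by
    rw [norm_smul, Real.norm_of_nonneg t1]
    refine mul_le_mul ?_ k4 (norm_nonneg _) (by norm_num)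
    linarith
  have h2 : ‖ph S x z j‖ ≤ 1000 := by linarith
  rw [norm_smul]
  rcases om_cases S j with h | h
  · rw [h]; simpa using h2
  · rw [h, Real.norm_of_nonneg (by norm_num : (0 : ℝ) ≤ 1 / 800)]
    have := norm_nonneg (ph S x z j)
    linarith

end

/-- **case I**: data for the assembler -/
theorem case_one (F : X →L[ℝ] ℝ) (hF : ‖F‖ = 1) (ξ : (X →L[ℝ] ℝ) →L[ℝ] ℝ)
    (hξ : ‖ξ‖ ≤ 1) (hξF : ξ F = 1) (ε : ℝ) (hε : 0 < ε)
    (hbad : ∀ (s : Finset X) (η : ℝ), 0 < η → ∃ G : X →L[ℝ] ℝ, ‖G‖ ≤ 1 ∧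
      (∀ x ∈ s, |G x - F x| < η) ∧ 1 - η < ξ G ∧ ε ≤ ‖G - F‖) :
    ∃ (f : X) (y : ℕ → X) (Y : Set X) (R d : ℝ) (E : ℕ → X →L[ℝ] ℝ),
      (∀ v ∈ Y, ‖v‖ ≤ R) ∧ (∀ m, y m ∈ Y) ∧ (∀ m, ‖E m‖ = 1) ∧
      (∀ m j, j < m → E m (y j) = 0) ∧
      (∀ m G, IsBestApprox f G (Sp y m) → ‖f - G‖ = E m f) ∧ (∀ m, 1 ≤ E m f) ∧ 0 < d ∧
      (∀ m, d ≤ |E m (y m)|) ∧ (∀ m, 1 ≤ m → ∀ v ∈ Y, |E m v| ≤ |E m (y m)|) := by
  have hε2 : ε ≤ 2 := by
    obtain ⟨G, hG1, _, _, hG4⟩ := hbad ∅ 1 one_pos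
    have := norm_sub_le G F
    linarith
  set Δ : ℝ := ε / 8 with hΔd
  have hΔ : 0 < Δ := by positivity
  have hΔ1 : Δ ≤ 1 / 4 := by linarith
  obtain ⟨S⟩ := exists_sched (Δ / 64000) (by positivity)
  obtain ⟨x, z, G, E, D⟩ := exists_chain S F ξ hξ hξF ε hε hbad (KC S Δ) (etaC Δ)
    (fun n => by unfold KC; positivity) (fun n => by unfold etaC; positivity)
  rw [← hΔd] at D
  have hω : ∀ m, S.ω m ≠ 0 := by
    intro m
    rcases om_cases S m with h | h <;> rw [h] <;> norm_num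
  have hmax : ∀ m j, |E m (S.ω j • ph S x z j)| ≤ |E m (S.ω m • ph S x z m)| := by
    intro m j
    have h1 : |E m (S.ω m • ph S x z m)| = S.ω m * E m (ph S x z m) := by
      rw [map_smul, smul_eq_mul]
      apply abs_of_nonneg
      have := low_slope hF hΔ hΔ1 rfl D m
      linarith
    rw [h1, map_smul, smul_eq_mul]
    rcases lt_trichotomy j m with h | h | h
    · rw [(E_isE hF hΔ D m).2.1 _ (mem_Sp _ h), mul_zero, abs_zero]
      have := low_slope hF hΔ hΔ1 rfl D m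
      linarith
    · rw [h]
      apply le_of_eq
      apply abs_of_nonneg
      have := low_slope hF hΔ hΔ1 rfl D m
      linarith
    · rcases Nat.lt_or_ge j (m + 3) with h2 | h2
      · have h3 : j = m + 1 ∨ j = m + 2 := by omega
        rcases h3 with h3 | h3
        · rw [h3]; exact next_slope hF hΔ hΔ1 rfl D m
        · rw [h3]; exact next2_slope hF hΔ hΔ1 rfl D m
      · exact far_slope hF hΔ hΔ1 rfl D m j h2
  refine ⟨x 0 + z 0, fun m => S.ω m • ph S x z m, Set.range (fun m => S.ω m • ph S x z m), 1000,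
    3 * Δ / 64000, E, ?_, ?_, ?_, ?_, ?_, ?_, by positivity, ?_, ?_⟩
  · rintro v ⟨m, rfl⟩
    exact ph_norm hΔ hΔ1 rfl D m
  · intro m
    exact ⟨m, rfl⟩
  · intro m
    exact (E_isE hF hΔ D m).1
  · intro m j hj
    show E m (S.ω j • ph S x z j) = 0
    rw [map_smul, (E_isE hF hΔ D m).2.1 _ (mem_Sp _ hj), smul_zero]
  · intro m G' hG'
    rw [Sp_smul (ph S x z) S.ω hω m] at hG'
    exact (E_isE hF hΔ D m).2.2.1 G' hG'
  · intro m
    have h1 := E_f hF hΔ hΔ1 D m
    have : 0 < (9 / 10 : ℝ) ^ m * (Δ / 20) := by positivity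
    linarith
  · intro m
    show _ ≤ |E m (S.ω m • ph S x z m)|
    rw [map_smul, smul_eq_mul]
    exact (low_slope hF hΔ hΔ1 rfl D m).trans (le_abs_self _)
  · rintro m _ v ⟨j, rfl⟩
    exact hmax m j

end Pool.Agent.Lib.MP_dc5a1d_an
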