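import Pool.Agent.Lib.MP_dc5a1d_an.Tools

/-! Tools: history recursion with invariants, Helly's lemma, exact corrections. -/

set_option autoImplicit false

open Filter Topology

namespace Pool.Agent.Lib.MP_dc5a1d_an

/-- recursion with choice depending on the finite history, when the step is possible only for
admissible histories -/
lemma exists_seq_of_step {α : Type*} [Inhabited α] (P : ℕ → (ℕ → α) → α → Prop)
    (hloc : ∀ n f g a, (∀ i < n, f i = g i) → P n f a → P n g a)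
    (h : ∀ n f, (∀ m < n, P m f (f m)) → ∃ a, P n f a) : ∃ f : ℕ → α, ∀ n, P n f (f n) := by
  classical
  obtain ⟨f, hf⟩ := exists_seq_hist (α := α)
    (fun n f a => (∀ m < n, P m f (f m)) → P n f a) (by
      intro n f g a hfg hP hg
      apply hloc n f g a hfg
      apply hP
      intro m hm
      rw [hfg m hm]
      exact hloc m g f _ (fun i hi => (hfg i (hi.trans hm)).symm) (hg m hm)) (by
      intro n f
      by_cases hf : ∀ m < n, P m f (f m)
      · obtain ⟨a, ha⟩ := h n f hf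
        exact ⟨a, fun _ => ha⟩
      · exact ⟨default, fun h => absurd h hf⟩)
  refine ⟨f, fun n => ?_⟩
  induction n using Nat.strong_induction_on with
  | _ n ih => exact hf n ih

variable {X : Type*} [NormedAddCommGroup X] [NormedSpace ℝ X]

/-- Helly's lemma: finitely many values of a bidual element are attained in `X` with almost the
same norm -/
lemma helly (ξ : (X →L[ℝ] ℝ) →L[ℝ] ℝ) (hξ : ‖ξ‖ ≤ 1) (s : Finset (X →L[ℝ] ℝ)) (κ : ℝ)
    (hκ : 0 < κ) : ∃ x : X, ‖x‖ ≤ 1 + κ ∧ ∀ H ∈ s, H x = ξ H := by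
  classical
  let T : X →L[ℝ] (s → ℝ) := ContinuousLinearMap.pi fun H : s => (H : X →L[ℝ] ℝ)
  let Z : Submodule ℝ X := LinearMap.ker (T : X →ₗ[ℝ] (s → ℝ))
  have hZc : IsClosed (Z : Set X) := T.isClosed_ker
  have : IsClosed (Z : Set X) := hZc
  have : FiniteDimensional ℝ (X ⧸ Z) :=
    LinearEquiv.finiteDimensional (LinearMap.quotKerEquivRange (T : X →ₗ[ℝ] (s → ℝ))).symm
  let π : X →L[ℝ] X ⧸ Z := Z.mkQL
  have hπn : ∀ x, ‖π x‖ ≤ ‖x‖ := Submodule.Quotient.norm_mk_le Z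
  let ℓ : Module.Dual ℝ (Module.Dual ℝ (X ⧸ Z)) :=
    { toFun := fun g => ξ ((LinearMap.toContinuousLinearMap g).comp π)
      map_add' := by
        intro g g'
        rw [← map_add]
        congr 1
      map_smul' := by
        intro c g
        rw [RingHom.id_apply, ← map_smul]
        congr 1 }
  obtain ⟨q, hq⟩ := (Module.evalEquiv ℝ (X ⧸ Z)).surjective ℓ
  have hq' : ∀ g : Module.Dual ℝ (X ⧸ Z),
      g q = ξ ((LinearMap.toContinuousLinearMap g).comp π) := by
    intro g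
    have : (Module.evalEquiv ℝ (X ⧸ Z) q) g = ℓ g := by rw [hq]
    exact this
  have hqn : ‖q‖ ≤ 1 := by
    by_cases h0 : ‖q‖ = 0
    · rw [h0]; exact zero_le_one
    obtain ⟨g, hg1, hg2⟩ := exists_dual_vector ℝ q h0
    have h1 := hq' (g : (X ⧸ Z) →ₗ[ℝ] ℝ)
    have h2 : (g : (X ⧸ Z) →ₗ[ℝ] ℝ) q = ‖q‖ := by simpa using hg2
    have h3 : LinearMap.toContinuousLinearMap (g : (X ⧸ Z) →ₗ[ℝ] ℝ) = g := by
      ext x; rfl
    rw [h2, h3] at h1
    have h4 : ‖g.comp π‖ ≤ 1 := by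
      apply ContinuousLinearMap.opNorm_le_bound _ zero_le_one
      intro x
      have := g.le_opNorm (π x)
      rw [hg1, one_mul] at this
      rw [one_mul]
      exact this.trans (hπn x)
    have h5 := ξ.le_opNorm (g.comp π)
    rw [← h1, Real.norm_eq_abs, abs_of_nonneg (norm_nonneg _)] at h5
    calc ‖q‖ ≤ ‖ξ‖ * ‖g.comp π‖ := h5
      _ ≤ 1 * 1 := mul_le_mul hξ h4 (norm_nonneg _) zero_le_one
      _ = 1 := one_mul 1
  obtain ⟨x, hx1, hx2⟩ := Submodule.Quotient.norm_mk_lt (S := Z) q hκ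
  refine ⟨x, by linarith, ?_⟩
  intro H hH
  have hle : Z ≤ LinearMap.ker (H : X →ₗ[ℝ] ℝ) := by
    intro y hy
    have : T y = 0 := hy
    have h1 := congrFun this ⟨H, hH⟩
    exact h1
  have h1 := hq' (Z.liftQ (H : X →ₗ[ℝ] ℝ) hle)
  have h2 : (LinearMap.toContinuousLinearMap (Z.liftQ (H : X →ₗ[ℝ] ℝ) hle)).comp π = H := by
    ext y
    show Z.liftQ (H : X →ₗ[ℝ] ℝ) hle (Submodule.Quotient.mk y) = H y
    rw [Submodule.liftQ_apply]
    rfl
  rw [h2] at h1
  rw [← h1, ← hx1, Submodule.liftQ_apply]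
  rfl

/-- exact correction: the values at finitely many bidual elements can be realised by a functional
whose norm is controlled by these values -/
lemma correction {ι : Type*} [Fintype ι] (w : ι → ((X →L[ℝ] ℝ) →L[ℝ] ℝ)) :
    ∃ C : ℝ, 0 < C ∧ ∀ (K : X →L[ℝ] ℝ) (η : ℝ), 0 ≤ η → (∀ i, |w i K| ≤ η) →
      ∃ H : X →L[ℝ] ℝ, (∀ i, w i H = w i K) ∧ ‖H‖ ≤ C * η := by
  let T : (X →L[ℝ] ℝ) →ₗ[ℝ] (ι → ℝ) := LinearMap.pi fun i => (w i : (X →L[ℝ] ℝ) →ₗ[ℝ] ℝ)
  obtain ⟨R, hR⟩ := LinearMap.exists_rightInverse_of_surjective T.rangeRestrict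
    (LinearMap.range_eq_top.2 T.surjective_rangeRestrict)
  let R' : LinearMap.range T →L[ℝ] (X →L[ℝ] ℝ) := LinearMap.toContinuousLinearMap R
  refine ⟨‖R'‖ + 1, by positivity, ?_⟩
  intro K η hη hK
  let y : LinearMap.range T := ⟨T K, LinearMap.mem_range_self T K⟩
  refine ⟨R' y, ?_, ?_⟩
  · intro i
    have h1 : T.rangeRestrict (R y) = y := LinearMap.congr_fun hR y
    have h2 : T (R y) = T K := congrArg Subtype.val h1
    exact congrFun h2 i
  · have h1 := R'.le_opNorm y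
    have h2 : ‖y‖ ≤ η := by
      show ‖T K‖ ≤ η
      rw [pi_norm_le_iff_of_nonneg hη]
      intro i
      exact hK i
    calc ‖R' y‖ ≤ ‖R'‖ * ‖y‖ := h1
      _ ≤ (‖R'‖ + 1) * η := by
        apply mul_le_mul _ h2 (norm_nonneg _) (by positivity)
        linarith

end Pool.Agent.Lib.MP_dc5a1d_an
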