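import Pool.Agent.Lib.MP_dc5a1d_an.Assemble
import Pool.Agent.Lib.MP_dc5a1d_an.Tools2

/-! Second case of the dichotomy: the bad functionals stay away from a face of the bidual ball. -/

set_option autoImplicit false

open Filter Topology

namespace Pool.Agent.Lib.MP_dc5a1d_an.Two

open Pool.Agent.Lib.MP_dc5a1d_an

variable {X : Type*} [NormedAddCommGroup X] [NormedSpace ℝ X]

/-- evaluation at a vector, as an element of the bidual -/
noncomputable def evx (x : X) : (X →L[ℝ] ℝ) →L[ℝ] ℝ := NormedSpace.inclusionInDoubleDual ℝ X x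

lemma evx_apply (x : X) (H : X →L[ℝ] ℝ) : evx x H = H x := NormedSpace.dual_def ℝ X x H

/-- exact form of the hypothesis of the second case -/
lemma exact_two (F : X →L[ℝ] ℝ) (ξ : (X →L[ℝ] ℝ) →L[ℝ] ℝ) (hξ : ‖ξ‖ ≤ 1) (ν : ℝ) (hν : 0 < ν)
    (hbad : ∀ (s : Finset X) (η : ℝ), 0 < η → ∃ G : X →L[ℝ] ℝ, ‖G‖ ≤ 1 ∧
      (∀ x ∈ s, |G x - F x| < η) ∧ ξ G ≤ 1 - ν) (s : Finset X) (η : ℝ) (hη : 0 < η) :
    ∃ G : X →L[ℝ] ℝ, ‖G‖ ≤ 1 + η ∧ (∀ x ∈ s, G x = F x) ∧ ξ G ≤ 1 - ν / 2 := by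
  obtain ⟨C, hC, hcor⟩ := correction (fun i : s => evx (i : X))
  set τ := min η (ν / 2) / C with hτ
  have hτp : 0 < τ := by
    have : 0 < min η (ν / 2) := lt_min hη (by linarith)
    positivity
  have hCτ : C * τ = min η (ν / 2) := by rw [hτ]; field_simp
  obtain ⟨G, hG1, hG2, hG3⟩ := hbad s τ hτp
  obtain ⟨H, hH1, hH2⟩ := hcor (G - F) τ hτp.le (by
    intro i
    rw [evx_apply]
    exact (hG2 i i.2).le)
  rw [hCτ] at hH2
  refine ⟨G - H, ?_, ?_, ?_⟩
  · have h1 := norm_sub_le G H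
    have h2 : min η (ν / 2) ≤ η := min_le_left _ _
    linarith
  · intro x hx
    have h1 := hH1 ⟨x, hx⟩
    rw [evx_apply, evx_apply] at h1
    show G x - H x = F x
    rw [h1]
    show G x - (G x - F x) = F x
    ring
  · have h1 : |ξ H| ≤ ‖H‖ := by
      have := ξ.le_opNorm H
      rw [Real.norm_eq_abs] at this
      have h2 := norm_nonneg H
      nlinarith
    have h2 := (abs_le.1 h1).1
    have h3 : min η (ν / 2) ≤ ν / 2 := min_le_right _ _
    rw [map_sub]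
    linarith

/-- differences -/
def dv (x : ℕ → X) (j : ℕ) : X := x j - x (j + 1)

/-- partial sums -/
noncomputable def fJ (x : ℕ → X) (J : ℕ) : X :=
  x 0 + ∑ j ∈ Finset.range J, (1 / 4 : ℝ) ^ (j + 1) • dv x j

/-- the span of finitely many differences -/
def PhiA (x : ℕ → X) (A : Finset ℕ) : Submodule ℝ X := Submodule.span ℝ (dv x '' (A : Set ℕ))

instance PhiA_fin (x : ℕ → X) (A : Finset ℕ) : FiniteDimensional ℝ (PhiA x A) :=
  FiniteDimensional.span_of_finite ℝ (A.finite_toSet.image _)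

lemma mem_PhiA (x : ℕ → X) {A : Finset ℕ} {j : ℕ} (h : j ∈ A) : dv x j ∈ PhiA x A :=
  Submodule.subset_span ⟨j, h, rfl⟩

/-- a functional of norm one annihilating `V` and computing the distance of `g` to `V` -/
def IsE (g : X) (V : Submodule ℝ X) (E : X →L[ℝ] ℝ) : Prop :=
  ‖E‖ = 1 ∧ (∀ u ∈ V, E u = 0) ∧ ∀ G, IsBestApprox g G V → ‖g - G‖ = E g

lemma exists_IsE (g : X) (V : Submodule ℝ X) [FiniteDimensional ℝ V] (hg : g ∉ V) :
    ∃ E, IsE g V E := by
  obtain ⟨G, hG⟩ := exists_best V g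
  have hne : g - G ≠ 0 := by
    intro h0
    rw [sub_eq_zero] at h0
    exact hg (h0 ▸ hG.1)
  obtain ⟨E, hE, hE2⟩ := exists_annih V (g - G) hne (by
    intro u hu
    have := hG.2 (G + u) (V.add_mem hG.1 hu)
    rw [sub_add_eq_sub_sub] at this
    exact this)
  refine ⟨E, hE.1, hE2, ?_⟩
  intro G' hG'
  have h1 : ‖g - G'‖ = ‖g - G‖ := le_antisymm (hG'.2 G hG.1) (hG.2 G' hG'.1)
  rw [h1, ← hE.2, map_sub, hE2 G hG.1, sub_zero]

/-- the chosen functional for the partial sums -/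
noncomputable def EF (x : ℕ → X) (J : ℕ) (A : Finset ℕ) : X →L[ℝ] ℝ :=
  Classical.epsilon (IsE (fJ x J) (PhiA x A))

lemma fJ_congr (x x' : ℕ → X) (J : ℕ) (h : ∀ i ≤ J, x i = x' i) : fJ x J = fJ x' J := by
  unfold fJ dv
  rw [h 0 (Nat.zero_le _)]
  congr 1
  apply Finset.sum_congr rfl
  intro j hj
  have := Finset.mem_range.1 hj
  rw [h j (by omega), h (j + 1) (by omega)]

lemma PhiA_congr (x x' : ℕ → X) (J : ℕ) (h : ∀ i ≤ J, x i = x' i) (A : Finset ℕ)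
    (hA : A ⊆ Finset.range J) : PhiA x A = PhiA x' A := by
  unfold PhiA
  congr 1
  apply Set.image_congr
  intro j hj
  have := Finset.mem_range.1 (hA hj)
  unfold dv
  rw [h j (by omega), h (j + 1) (by omega)]

lemma EF_congr (x x' : ℕ → X) (J : ℕ) (h : ∀ i ≤ J, x i = x' i) (A : Finset ℕ)
    (hA : A ⊆ Finset.range J) : EF x J A = EF x' J A := by
  unfold EF
  rw [fJ_congr x x' J h, PhiA_congr x x' J h A hA]

/-- data of the second case -/
structure Dat3 (F : X →L[ℝ] ℝ) (ν : ℝ) (x : ℕ → X) (g : ℕ → X →L[ℝ] ℝ) : Prop where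
  ν_pos : 0 < ν
  ν_le : ν ≤ 1
  F_norm : ‖F‖ = 1
  Fx : ∀ n, F (x n) = 1
  x_norm : ∀ n, ‖x n‖ ≤ 1 + ν / 64 * (1 / 4) ^ n
  g_norm : ∀ n, ‖g n‖ ≤ 1 + ν / 64 * (1 / 4) ^ n
  g_le : ∀ n, ∀ j ≤ n, g n (x j) = 1
  g_gt : ∀ n, ∀ j, n < j → g n (x j) = g n (x (n + 1))
  g_val : ∀ n, g n (x (n + 1)) ≤ 1 - ν / 2
  EF_gt : ∀ J, ∀ A ⊆ Finset.range J, ∀ n, J < n → EF x J A (x n) = EF x J A (x (J + 1))

lemma exists_Dat3 (F : X →L[ℝ] ℝ) (hF : ‖F‖ = 1) (ξ : (X →L[ℝ] ℝ) →L[ℝ] ℝ) (hξ : ‖ξ‖ ≤ 1)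
    (hξF : ξ F = 1) (ν : ℝ) (hν : 0 < ν) (hν1 : ν ≤ 1)
    (hbad : ∀ (s : Finset X) (η : ℝ), 0 < η → ∃ G : X →L[ℝ] ℝ, ‖G‖ ≤ 1 ∧
      (∀ x ∈ s, |G x - F x| < η) ∧ ξ G ≤ 1 - ν) :
    ∃ (x : ℕ → X) (g : ℕ → X →L[ℝ] ℝ), Dat3 F ν x g := by
  classical
  have : Inhabited (X × (X →L[ℝ] ℝ)) := ⟨(0, 0)⟩
  obtain ⟨q, hq⟩ := exists_seq_hist (α := X × (X →L[ℝ] ℝ))
    (fun n h a => ‖a.1‖ ≤ 1 + ν / 64 * (1 / 4) ^ n ∧ F a.1 = 1 ∧
      (∀ j < n, (h j).2 a.1 = ξ (h j).2) ∧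
      (∀ J < n, ∀ A ⊆ Finset.range J, EF (fun i => (h i).1) J A a.1 =
        ξ (EF (fun i => (h i).1) J A)) ∧
      ‖a.2‖ ≤ 1 + ν / 64 * (1 / 4) ^ n ∧ (∀ j < n, a.2 (h j).1 = F (h j).1) ∧
      a.2 a.1 = F a.1 ∧ ξ a.2 ≤ 1 - ν / 2) (by
    intro n f g a hfg h
    obtain ⟨h1, h2, h3, h4, h5, h6, h7, h8⟩ := h
    refine ⟨h1, h2, ?_, ?_, h5, ?_, h7, h8⟩
    · intro j hj; rw [← hfg j hj]; exact h3 j hj
    · intro J hJ A hA
      have := EF_congr (fun i => (f i).1) (fun i => (g i).1) J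
        (fun i hi => by rw [hfg i (lt_of_le_of_lt hi hJ)]) A hA
      rw [← this]
      exact h4 J hJ A hA
    · intro j hj; rw [← hfg j hj]; exact h6 j hj) (by
    intro n h
    have hκ : 0 < ν / 64 * (1 / 4 : ℝ) ^ n := by positivity
    obtain ⟨x, hx1, hx2⟩ := helly ξ hξ
      ({F} ∪ (Finset.range n).image (fun j => (h j).2) ∪
        ((Finset.range n).biUnion fun J => (Finset.range J).powerset.image
          fun A => EF (fun i => (h i).1) J A)) _ hκ
    obtain ⟨G, hG1, hG2, hG3⟩ := exact_two F ξ hξ ν hν hbad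
      (insert x ((Finset.range n).image fun j => (h j).1)) _ hκ
    refine ⟨(x, G), hx1, ?_, ?_, ?_, hG1, ?_, ?_, hG3⟩
    · rw [hx2 F (by simp), hξF]
    · intro j hj
      apply hx2
      apply Finset.mem_union_left
      apply Finset.mem_union_right
      exact Finset.mem_image.2 ⟨j, Finset.mem_range.2 hj, rfl⟩
    · intro J hJ A hA
      apply hx2
      apply Finset.mem_union_right
      exact Finset.mem_biUnion.2 ⟨J, Finset.mem_range.2 hJ,
        Finset.mem_image.2 ⟨A, Finset.mem_powerset.2 hA, rfl⟩⟩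
    · intro j hj
      apply hG2
      exact Finset.mem_insert_of_mem (Finset.mem_image.2 ⟨j, Finset.mem_range.2 hj, rfl⟩)
    · exact hG2 _ (Finset.mem_insert_self _ _))
  refine ⟨fun n => (q n).1, fun n => (q n).2, ?_⟩
  have hF1 : ∀ n, F (q n).1 = 1 := fun n => (hq n).2.1
  have hgt : ∀ n j, n < j → (q n).2 (q j).1 = ξ (q n).2 := fun n j hj => (hq j).2.2.1 n hj
  refine ⟨hν, hν1, hF, hF1, fun n => (hq n).1, fun n => (hq n).2.2.2.2.1, ?_, ?_, ?_, ?_⟩
  · intro n j hj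
    rcases Nat.lt_or_eq_of_le hj with hj | hj
    · show (q n).2 (q j).1 = 1
      rw [(hq n).2.2.2.2.2.1 j hj, hF1]
    · subst hj
      show (q j).2 (q j).1 = 1
      rw [(hq j).2.2.2.2.2.2.1, hF1]
  · intro n j hj
    show (q n).2 (q j).1 = (q n).2 (q (n + 1)).1
    rw [hgt n j hj, hgt n (n + 1) (Nat.lt_succ_self n)]
  · intro n
    show (q n).2 (q (n + 1)).1 ≤ _
    rw [hgt n (n + 1) (Nat.lt_succ_self n)]
    exact (hq n).2.2.2.2.2.2.2
  · intro J A hA n hn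
    show EF (fun i => (q i).1) J A (q n).1 = EF (fun i => (q i).1) J A (q (J + 1)).1
    rw [(hq n).2.2.2.1 J hn A hA, (hq (J + 1)).2.2.2.1 J (Nat.lt_succ_self J) A hA]

variable {F : X →L[ℝ] ℝ} {ν : ℝ} {x : ℕ → X} {g : ℕ → X →L[ℝ] ℝ}

lemma x_le_two (h : Dat3 F ν x g) (n : ℕ) : ‖x n‖ ≤ 2 := by
  have h1 := h.x_norm n
  have h2 : (1 / 4 : ℝ) ^ n ≤ 1 := pow_le_one₀ (by norm_num) (by norm_num)
  have h3 := h.ν_le
  have h4 := h.ν_pos
  have h5 : (0 : ℝ) < (1 / 4 : ℝ) ^ n := by positivity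
  nlinarith

lemma dv_norm (h : Dat3 F ν x g) (j : ℕ) : ‖dv x j‖ ≤ 4 := by
  unfold dv
  have := norm_sub_le (x j) (x (j + 1))
  have := x_le_two h j
  have := x_le_two h (j + 1)
  linarith

lemma F_dv (h : Dat3 F ν x g) (j : ℕ) : F (dv x j) = 0 := by
  unfold dv
  rw [map_sub, h.Fx, h.Fx, sub_self]

lemma F_PhiA (h : Dat3 F ν x g) (A : Finset ℕ) : ∀ u ∈ PhiA x A, F u = 0 := by
  intro u hu
  have : PhiA x A ≤ LinearMap.ker (F : X →ₗ[ℝ] ℝ) := by
    unfold PhiA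
    rw [Submodule.span_le]
    rintro y ⟨j, _, rfl⟩
    exact F_dv h j
  exact this hu

lemma g_dv_ne (h : Dat3 F ν x g) {k j : ℕ} (hkj : j ≠ k) : g k (dv x j) = 0 := by
  unfold dv
  rw [map_sub]
  rcases lt_or_gt_of_ne hkj with hj | hj
  · rw [h.g_le k j (by omega), h.g_le k (j + 1) (by omega), sub_self]
  · rw [h.g_gt k j hj, h.g_gt k (j + 1) (by omega), sub_self]

lemma g_dv_eq (h : Dat3 F ν x g) (k : ℕ) : ν / 2 ≤ g k (dv x k) := by
  unfold dv
  rw [map_sub, h.g_le k k le_rfl]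
  have := h.g_val k
  linarith

lemma fJ_succ (x : ℕ → X) (J : ℕ) : fJ x (J + 1) = fJ x J + (1 / 4 : ℝ) ^ (J + 1) • dv x J := by
  unfold fJ; rw [Finset.sum_range_succ, add_assoc]

lemma exists_f [CompleteSpace X] (h : Dat3 F ν x g) :
    ∃ f : X, ∀ n, ‖f - fJ x n‖ ≤ 4 * (1 / 4) ^ n := by
  have hd : ∀ n, dist (fJ x n) (fJ x (n + 1)) ≤ 1 * (1 / 4) ^ n := by
    intro n
    rw [fJ_succ, dist_eq_norm]
    have : fJ x n - (fJ x n + (1 / 4 : ℝ) ^ (n + 1) • dv x n) = -((1 / 4 : ℝ) ^ (n + 1) • dv x n) := by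
      abel
    rw [this, norm_neg, norm_smul, Real.norm_of_nonneg (by positivity)]
    have h1 := dv_norm h n
    have h2 : (0 : ℝ) < (1 / 4) ^ n := by positivity
    rw [pow_succ]
    nlinarith
  obtain ⟨f, hf⟩ := cauchySeq_tendsto_of_complete
    (cauchySeq_of_le_geometric (1 / 4) 1 (by norm_num) hd)
  refine ⟨f, fun n => ?_⟩
  have := dist_le_of_le_geometric_of_tendsto (1 / 4) 1 (by norm_num) hd hf n
  rw [dist_comm, dist_eq_norm] at this
  refine this.trans ?_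
  have h2 : (0 : ℝ) < (1 / 4) ^ n := by positivity
  rw [div_le_iff₀ (by norm_num)]
  linarith

variable {f : X}

lemma lim_zero : Tendsto (fun n : ℕ => 4 * (1 / 4 : ℝ) ^ n) atTop (𝓝 0) := by
  have := (tendsto_pow_atTop_nhds_zero_of_lt_one (r := (1 / 4 : ℝ)) (by norm_num)
    (by norm_num)).const_mul 4
  rwa [mul_zero] at this

lemma tendsto_fJ (hf : ∀ n, ‖f - fJ x n‖ ≤ 4 * (1 / 4) ^ n) (E : X →L[ℝ] ℝ) :
    Tendsto (fun n => E (fJ x n)) atTop (𝓝 (E f)) := by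
  have h1 : Tendsto (fun n => fJ x n) atTop (𝓝 f) := by
    rw [tendsto_iff_norm_sub_tendsto_zero]
    apply squeeze_zero (fun n => norm_nonneg _) _ lim_zero
    intro n
    rw [norm_sub_rev]
    exact hf n
  exact (E.continuous.tendsto f).comp h1

lemma F_fJ (h : Dat3 F ν x g) (n : ℕ) : F (fJ x n) = 1 := by
  induction n with
  | zero => simp [fJ, h.Fx 0]
  | succ n ih => rw [fJ_succ, map_add, map_smul, F_dv h, ih]; simp

lemma F_f (h : Dat3 F ν x g) (hf : ∀ n, ‖f - fJ x n‖ ≤ 4 * (1 / 4) ^ n) : F f = 1 := by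
  have h1 := tendsto_fJ hf F
  simp only [F_fJ h] at h1
  exact (tendsto_nhds_unique h1 tendsto_const_nhds)

/-- lower estimate -/
lemma g_f (h : Dat3 F ν x g) (hf : ∀ n, ‖f - fJ x n‖ ≤ 4 * (1 / 4) ^ n) (k : ℕ) :
    1 + (1 / 4) ^ (k + 1) * (ν / 2) ≤ g k f := by
  have h1 := tendsto_fJ hf (g k)
  have h2 : ∀ n, k < n → g k (fJ x n) = 1 + (1 / 4) ^ (k + 1) * g k (dv x k) := by
    intro n hn
    unfold fJ
    rw [map_add, map_sum, h.g_le k 0 (Nat.zero_le _), Finset.sum_eq_single k]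
    · rw [map_smul, smul_eq_mul]
    · intro j _ hj
      rw [map_smul, g_dv_ne h hj, smul_zero]
    · intro hk
      exact absurd (Finset.mem_range.2 hn) hk
  have h3 : Tendsto (fun n => g k (fJ x n)) atTop (𝓝 (1 + (1 / 4) ^ (k + 1) * g k (dv x k))) := by
    apply Tendsto.congr' _ tendsto_const_nhds
    filter_upwards [eventually_gt_atTop k] with n hn
    rw [h2 n hn]
  rw [tendsto_nhds_unique h1 h3]
  have h4 := g_dv_eq h k
  have h5 : (0 : ℝ) < (1 / 4) ^ (k + 1) := by positivity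
  have := mul_le_mul_of_nonneg_left h4 h5.le
  linarith

lemma tele (x : ℕ → X) (k : ℕ) : x 0 = x k + ∑ j ∈ Finset.range k, dv x j := by
  induction k with
  | zero => simp
  | succ k ih =>
    rw [Finset.sum_range_succ]
    have : x k = x (k + 1) + dv x k := by unfold dv; abel
    rw [ih]
    conv_lhs => rw [this]
    abel

lemma geo_sum (k n : ℕ) (hkn : k ≤ n) :
    ∑ j ∈ Finset.Ico k n, (1 / 4 : ℝ) ^ (j + 1) ≤ (1 / 4) ^ k / 3 := by
  have h1 : ∑ j ∈ Finset.Ico k n, (1 / 4 : ℝ) ^ (j + 1) = ((1 / 4) ^ k - (1 / 4) ^ n) / 3 := by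
    induction n, hkn using Nat.le_induction with
    | base => simp
    | succ n hn ih =>
      rw [Finset.sum_Ico_succ_top hn, ih, pow_succ]
      ring
  rw [h1]
  have : (0 : ℝ) < (1 / 4) ^ n := by positivity
  linarith

/-- some difference outside `A` has a large value -/
lemma exists_large (h : Dat3 F ν x g) (hf : ∀ n, ‖f - fJ x n‖ ≤ 4 * (1 / 4) ^ n)
    (A : Finset ℕ) (E : X →L[ℝ] ℝ) (hE : IsE f (PhiA x A) E) :
    ∃ j, j ∉ A ∧ ν / 8 ≤ |E (dv x j)| := by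
  classical
  by_contra hcon
  push Not at hcon
  have hνp := h.ν_pos
  have hν1 := h.ν_le
  obtain ⟨k0, hk0⟩ := Infinite.exists_notMem_finset A
  have hex : ∃ k, k ∉ A := ⟨k0, hk0⟩
  set k := Nat.find hex with hk
  have hkA : k ∉ A := Nat.find_spec hex
  have hlt : ∀ j < k, j ∈ A := by
    intro j hj
    by_contra hjA
    exact Nat.find_min hex hj hjA
  -- lower bound
  obtain ⟨G, hG⟩ := exists_best (PhiA x A) f
  have hgA : ∀ u ∈ PhiA x A, g k u = 0 := by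
    intro u hu
    have : PhiA x A ≤ LinearMap.ker (g k : X →ₗ[ℝ] ℝ) := by
      unfold PhiA
      rw [Submodule.span_le]
      rintro y ⟨j, hj, rfl⟩
      apply g_dv_ne h
      intro hjk
      rw [hjk] at hj
      exact hkA hj
    exact this hu
  have hlow : g k f ≤ (1 + ν / 64 * (1 / 4) ^ k) * E f := by
    have h1 : g k f = g k (f - G) := by rw [map_sub, hgA G hG.1, sub_zero]
    have h2 := (g k).le_opNorm (f - G)
    rw [hE.2.2 G hG] at h2
    have h3 := h.g_norm k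
    have h4 : 0 ≤ E f := by rw [← hE.2.2 G hG]; exact norm_nonneg _
    rw [h1]
    exact (le_abs_self _).trans (h2.trans (mul_le_mul_of_nonneg_right h3 h4))
  -- upper bound
  have hup : E f ≤ 1 + ν / 64 * (1 / 4) ^ k + (1 / 4) ^ k / 3 * (ν / 8) := by
    apply le_of_tendsto (tendsto_fJ hf E)
    filter_upwards [eventually_ge_atTop k] with n hn
    unfold fJ
    rw [tele x k, map_add, map_add, map_sum, map_sum]
    have h1 : ∑ j ∈ Finset.range k, E (dv x j) = 0 := by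
      apply Finset.sum_eq_zero
      intro j hj
      exact hE.2.1 _ (mem_PhiA x (hlt j (Finset.mem_range.1 hj)))
    have h2 : ∑ j ∈ Finset.range n, E ((1 / 4 : ℝ) ^ (j + 1) • dv x j) ≤ (1 / 4) ^ k / 3 * (ν / 8) := by
      rw [← Finset.sum_range_add_sum_Ico _ hn]
      have h3 : ∑ j ∈ Finset.range k, E ((1 / 4 : ℝ) ^ (j + 1) • dv x j) = 0 := by
        apply Finset.sum_eq_zero
        intro j hj
        rw [map_smul, hE.2.1 _ (mem_PhiA x (hlt j (Finset.mem_range.1 hj))), smul_zero]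
      rw [h3, zero_add]
      have h4 : ∑ j ∈ Finset.Ico k n, E ((1 / 4 : ℝ) ^ (j + 1) • dv x j) ≤
          ∑ j ∈ Finset.Ico k n, (1 / 4 : ℝ) ^ (j + 1) * (ν / 8) := by
        apply Finset.sum_le_sum
        intro j _
        rw [map_smul, smul_eq_mul]
        apply mul_le_mul_of_nonneg_left _ (by positivity)
        by_cases hj : j ∈ A
        · rw [hE.2.1 _ (mem_PhiA x hj)]; positivity
        · exact (le_abs_self _).trans (hcon j hj).le
      rw [← Finset.sum_mul] at h4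
      exact h4.trans (mul_le_mul_of_nonneg_right (geo_sum k n hn) (by positivity))
    have h5 : E (x k) ≤ 1 + ν / 64 * (1 / 4) ^ k :=
      ((le_abs_self _).trans (abs_le_of_norm hE.1.le _)).trans (h.x_norm k)
    rw [h1]
    linarith
  have hgf := g_f h hf k
  set a : ℝ := (1 / 4 : ℝ) ^ k with ha
  have hap : 0 < a := by positivity
  have ha1 : a ≤ 1 := pow_le_one₀ (by norm_num) (by norm_num)
  have hsucc : (1 / 4 : ℝ) ^ (k + 1) = a / 4 := by rw [pow_succ]; ring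
  rw [hsucc] at hgf
  have hfin : 1 + a / 4 * (ν / 2) ≤ (1 + ν / 64 * a) * (1 + ν / 64 * a + a / 3 * (ν / 8)) := by
    refine hgf.trans (hlow.trans ?_)
    apply mul_le_mul_of_nonneg_left hup (by positivity)
  have hνa : 0 < ν * a := by positivity
  have hνa1 : ν * a ≤ 1 := by nlinarith
  nlinarith

/-- far differences have small values -/
lemma small_far (hFr : FrechetNorm X) (h : Dat3 F ν x g)
    (hf : ∀ n, ‖f - fJ x n‖ ≤ 4 * (1 / 4) ^ n)
    (A : Finset ℕ) (E : X →L[ℝ] ℝ) (hE : IsE f (PhiA x A) E) (ε : ℝ) (hε : 0 < ε) :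
    ∃ J0, ∀ j, J0 ≤ j → |E (dv x j)| < ε := by
  classical
  obtain ⟨G, hG⟩ := exists_best (PhiA x A) f
  set r := f - G with hr
  have hEr : E r = ‖r‖ := by
    rw [hr, hE.2.2 G hG, map_sub, hE.2.1 G hG.1, sub_zero]
  have hr1 : 1 ≤ ‖r‖ := by
    have := (le_abs_self _).trans (abs_le_of_norm h.F_norm.le r)
    rwa [hr, map_sub, F_PhiA h A G hG.1, F_f h hf, sub_zero] at this
  have hr0 : 0 < ‖r‖ := by linarith
  set u := (‖r‖)⁻¹ • r with hu
  have hun : ‖u‖ = 1 := by rw [hu, norm_smul, norm_inv, norm_norm, inv_mul_cancel₀ hr0.ne']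
  have hu0 : u ≠ 0 := by intro h0; rw [h0, norm_zero] at hun; norm_num at hun
  have hEu : IsNorming E u := by
    refine ⟨hE.1, ?_⟩
    rw [hun, hu, map_smul, hEr, smul_eq_mul, inv_mul_cancel₀ hr0.ne']
  obtain ⟨η, hη, hη2⟩ := smulian hun (hFr u hu0) hEu (ε / 4) (by positivity)
  obtain ⟨N1, hN1⟩ : ∃ N1, A ⊆ Finset.range N1 := by
    refine ⟨A.sup id + 1, ?_⟩
    intro j hj
    rw [Finset.mem_range]
    exact Nat.lt_succ_of_le (Finset.le_sup (f := id) hj)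
  obtain ⟨N2, hN2⟩ := ((lim_zero.eventually (gt_mem_nhds (show (0 : ℝ) < η / 2 by positivity)))).exists
  set J := max N1 N2 with hJ
  have hJA : A ⊆ Finset.range J := hN1.trans (Finset.range_mono (le_max_left _ _))
  have hJs : 4 * (1 / 4 : ℝ) ^ J < η / 2 := by
    have : (1 / 4 : ℝ) ^ J ≤ (1 / 4) ^ N2 :=
      pow_le_pow_of_le_one (by norm_num) (by norm_num) (le_max_right _ _)
    linarith
  have hspec : IsE (fJ x J) (PhiA x A) (EF x J A) := by
    apply Classical.epsilon_spec (p := IsE (fJ x J) (PhiA x A))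
    apply exists_IsE
    intro hmem
    have := F_PhiA h A _ hmem
    rw [F_fJ h] at this
    norm_num at this
  obtain ⟨GJ, hGJ⟩ := exists_best (PhiA x A) (fJ x J)
  have hfJ := hf J
  have hkey : 1 - η < EF x J A u := by
    have h1 : EF x J A r = EF x J A f := by rw [hr, map_sub, hspec.2.1 G hG.1, sub_zero]
    have h2 : EF x J A f = EF x J A (fJ x J) + EF x J A (f - fJ x J) := by rw [← map_add]; congr 1; abel
    have h3 := (abs_le.1 (abs_le_of_norm hspec.1.le (f - fJ x J))).1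
    have h4 := hspec.2.2 GJ hGJ
    have h5 := hG.2 GJ hGJ.1
    have h6 : ‖f - GJ‖ ≤ ‖f - fJ x J‖ + ‖fJ x J - GJ‖ := by
      have : f - GJ = (f - fJ x J) + (fJ x J - GJ) := by abel
      rw [this]; exact norm_add_le _ _
    have h7 : ‖r‖ - η < EF x J A r := by
      have h8 : ‖r‖ ≤ ‖f - GJ‖ := h5
      linarith
    rw [hu, map_smul, smul_eq_mul, lt_inv_mul_iff₀ hr0]
    nlinarith
  have hclose := hη2 (EF x J A) hspec.1.le hkey
  refine ⟨J + 1, ?_⟩
  intro j hj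
  have h0 : EF x J A (dv x j) = 0 := by
    unfold dv
    rw [map_sub, h.EF_gt J A hJA j (by omega), h.EF_gt J A hJA (j + 1) (by omega), sub_self]
  have h1 : E (dv x j) = -((EF x J A - E) (dv x j)) := by
    show E (dv x j) = -(EF x J A (dv x j) - E (dv x j))
    rw [h0]; ring
  rw [h1, abs_neg]
  have h2 := (EF x J A - E).le_opNorm (dv x j)
  rw [Real.norm_eq_abs] at h2
  have h3 := dv_norm h j
  have h4 : ‖EF x J A - E‖ * ‖dv x j‖ ≤ ‖EF x J A - E‖ * 4 :=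
    mul_le_mul_of_nonneg_left h3 (norm_nonneg _)
  linarith

/-- the pick -/
lemma exists_pick (hFr : FrechetNorm X) (h : Dat3 F ν x g)
    (hf : ∀ n, ‖f - fJ x n‖ ≤ 4 * (1 / 4) ^ n)
    (A : Finset ℕ) (E : X →L[ℝ] ℝ) (hE : IsE f (PhiA x A) E) :
    ∃ j, ν / 8 ≤ |E (dv x j)| ∧ ∀ i, |E (dv x i)| ≤ |E (dv x j)| := by
  classical
  have hνp := h.ν_pos
  obtain ⟨j0, _, hj0⟩ := exists_large h hf A E hE
  obtain ⟨J0, hJ0⟩ := small_far hFr h hf A E hE (ν / 8) (by positivity)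
  have hj0J : j0 < J0 := by
    by_contra hcon
    push Not at hcon
    have := hJ0 j0 hcon
    linarith
  obtain ⟨j, _, hj2⟩ := Finset.exists_max_image (Finset.range J0) (fun i => |E (dv x i)|)
    ⟨j0, Finset.mem_range.2 hj0J⟩
  have h1 := hj2 j0 (Finset.mem_range.2 hj0J)
  refine ⟨j, hj0.trans h1, ?_⟩
  intro i
  by_cases hi : i < J0
  · exact hj2 i (Finset.mem_range.2 hi)
  · push Not at hi
    exact ((hJ0 i hi).le.trans hj0).trans h1

/-- the second case -/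
theorem case_two [CompleteSpace X] (hFr : FrechetNorm X) (F : X →L[ℝ] ℝ) (hF : ‖F‖ = 1)
    (ξ : (X →L[ℝ] ℝ) →L[ℝ] ℝ) (hξ : ‖ξ‖ ≤ 1) (hξF : ξ F = 1) (ν : ℝ) (hν : 0 < ν)
    (hbad : ∀ (s : Finset X) (η : ℝ), 0 < η → ∃ G : X →L[ℝ] ℝ, ‖G‖ ≤ 1 ∧
      (∀ x ∈ s, |G x - F x| < η) ∧ ξ G ≤ 1 - ν) : ¬ Converges X 1 := by
  classical
  obtain ⟨x, g, h⟩ := exists_Dat3 F hF ξ hξ hξF (min ν 1) (lt_min hν one_pos) (min_le_right _ _) (by
    intro s η hη
    obtain ⟨G, h1, h2, h3⟩ := hbad s η hη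
    exact ⟨G, h1, h2, h3.trans (by linarith [min_le_left ν 1])⟩)
  obtain ⟨f, hf⟩ := exists_f h
  have hνp := h.ν_pos
  have hFf := F_f h hf
  have hEE : ∀ A : Finset ℕ, ∃ E, IsE f (PhiA x A) E := by
    intro A
    apply exists_IsE
    intro hmem
    have := F_PhiA h A _ hmem
    rw [hFf] at this
    norm_num at this
  choose EE hEE using hEE
  choose pick hpick1 hpick2 using fun A => exists_pick hFr h hf A (EE A) (hEE A)
  have hlow : ∀ B : Finset ℕ, 1 ≤ EE B f := by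
    intro B
    obtain ⟨G, hG⟩ := exists_best (PhiA x B) f
    rw [← (hEE B).2.2 G hG]
    have := (le_abs_self _).trans (abs_le_of_norm h.F_norm.le (f - G))
    rwa [map_sub, F_PhiA h B G hG.1, hFf, sub_zero] at this
  let A : ℕ → Finset ℕ := fun m => Nat.rec ∅ (fun _ B => insert (pick B) B) m
  have hA0 : A 0 = ∅ := rfl
  have hAs : ∀ m, A (m + 1) = insert (pick (A m)) (A m) := fun m => rfl
  set y : ℕ → X := fun m => dv x (pick (A m)) with hy
  have hSp : ∀ m, Sp y m = PhiA x (A m) := by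
    intro m
    induction m with
    | zero =>
      rw [Sp_zero, hA0]
      unfold PhiA
      simp
    | succ m ih =>
      rw [Sp_sup, ih, hAs]
      unfold PhiA
      rw [Finset.coe_insert, Set.image_insert_eq, Submodule.span_insert, sup_comm]
  have hmem : ∀ m j, j < m → y j ∈ PhiA x (A m) := by
    intro m j hj
    rw [← hSp]
    exact mem_Sp y hj
  apply assemble f y {v | ∃ j, v = dv x j} 4 (min ν 1 / 8) (fun m => EE (A m))
  · rintro v ⟨j, rfl⟩
    exact dv_norm h j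
  · intro m _
    exact ⟨_, rfl⟩
  · intro m
    exact (hEE (A m)).1
  · intro m j hj
    exact (hEE (A m)).2.1 _ (hmem m j hj)
  · intro m G hG
    rw [hSp] at hG
    exact (hEE (A m)).2.2 G hG
  · intro m
    exact hlow (A m)
  · positivity
  · intro m
    exact hpick1 (A m)
  · rintro m _ v ⟨j, rfl⟩
    exact hpick2 (A m) j

end Pool.Agent.Lib.MP_dc5a1d_an.Two
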