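import Pool.Agent.Lib.MP_dc5a1d_an.Basic

/-! Sufficiency: smooth and weak*-norm Kadec-Klee dual sphere imply convergence. -/

set_option autoImplicit false

open Filter Topology

namespace Pool.Agent.Lib.MP_dc5a1d_an

variable {X : Type*} [NormedAddCommGroup X] [NormedSpace ℝ X]

/-- span of the first `m` picks -/
def Sp (φ : ℕ → X) (m : ℕ) : Submodule ℝ X := Submodule.span ℝ {x | ∃ j < m, x = φ j}

lemma Sp_succ (φ : ℕ → X) (m : ℕ) : Submodule.span ℝ {x | ∃ j ≤ m, x = φ j} = Sp φ (m + 1) := by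
  unfold Sp
  congr 1
  ext x
  simp only [Set.mem_ofPred_eq, Nat.lt_succ_iff]

lemma Sp_mono (φ : ℕ → X) {m n : ℕ} (h : m ≤ n) : Sp φ m ≤ Sp φ n := by
  apply Submodule.span_mono
  rintro x ⟨j, hj, rfl⟩
  exact ⟨j, lt_of_lt_of_le hj h, rfl⟩

lemma mem_Sp (φ : ℕ → X) {j m : ℕ} (h : j < m) : φ j ∈ Sp φ m :=
  Submodule.subset_span ⟨j, h, rfl⟩

instance Sp_fin (φ : ℕ → X) (m : ℕ) : FiniteDimensional ℝ (Sp φ m) := by
  apply FiniteDimensional.span_of_finite
  apply Set.Finite.subset ((Set.finite_lt_nat m).image φ)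
  rintro x ⟨j, hj, rfl⟩
  exact ⟨j, hj, rfl⟩

/-- as long as the run has not stopped the approximants are best approximations -/
lemma run_best {t : ℝ} {D : Set X} {f : X} {φ G : ℕ → X} (hr : IsRun t D f φ G)
    (hne : ∀ m, f - G m ≠ 0) (m : ℕ) : IsBestApprox f (G m) (Sp φ m) := by
  cases m with
  | zero =>
    rw [hr.zero]
    refine ⟨Submodule.zero_mem _, ?_⟩
    intro u hu
    have : Sp φ 0 = ⊥ := by
      unfold Sp
      rw [Submodule.span_eq_bot]
      rintro x ⟨j, hj, _⟩
      exact absurd hj (Nat.not_lt_zero j)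
    rw [this, Submodule.mem_bot] at hu
    rw [hu]
  | succ m =>
    obtain ⟨F, _, _, _, h⟩ := hr.step m (hne m)
    rw [Sp_succ] at h
    exact h

lemma dict_exists {D : Set X} (hD : IsDictionary D) (F : X →L[ℝ] ℝ) (hF : F ≠ 0) :
    ∃ g ∈ D, F g ≠ 0 := by
  by_contra hcon
  push Not at hcon
  apply hF
  have h1 : (Submodule.span ℝ D) ≤ LinearMap.ker (F : X →ₗ[ℝ] ℝ) := by
    rw [Submodule.span_le]
    intro g hg
    exact hcon g hg
  have h2 : Set.EqOn F (0 : X →L[ℝ] ℝ) (Submodule.span ℝ D : Set X) := by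
    intro x hx
    exact h1 hx
  have h3 := Continuous.ext_on hD.2 F.continuous (0 : X →L[ℝ] ℝ).continuous h2
  ext x
  exact congrFun h3 x

theorem suff (hS : Smooth X) (hK : DualKadecKlee X) (t : ℝ) (ht : 0 < t) : Converges X t := by
  intro D hD f φ G hr
  by_cases hstop : ∃ m, f - G m = 0
  · obtain ⟨m, hm⟩ := hstop
    have h : ∀ n, m ≤ n → G n = G m := by
      intro n hn
      induction n, hn using Nat.le_induction with
      | base => rfl
      | succ n hn ih =>
        rw [hr.stop n (by rw [ih]; exact hm), ih]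
    apply tendsto_const_nhds.congr'
    filter_upwards [eventually_ge_atTop m] with n hn
    rw [h n hn, hm, norm_zero]
  push Not at hstop
  have hbest := run_best hr hstop
  -- norms decrease
  have hanti : Antitone fun m => ‖f - G m‖ := by
    apply antitone_nat_of_succ_le
    intro m
    exact (hbest (m + 1)).2 (G m) (Sp_mono φ (Nat.le_succ m) (hbest m).1)
  obtain ⟨α, hα⟩ : ∃ α, Tendsto (fun m => ‖f - G m‖) atTop (𝓝 α) :=
    ⟨_, tendsto_atTop_ciInf hanti ⟨0, by rintro _ ⟨m, rfl⟩; exact norm_nonneg _⟩⟩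
  have hα0 : 0 ≤ α := ge_of_tendsto' hα (fun m => norm_nonneg _)
  rcases eq_or_lt_of_le hα0 with h0 | hpos
  · rw [h0]; exact hα
  exfalso
  choose E hE hφ hmax _ using fun m => hr.step m (hstop m)
  have hann : ∀ m, ∀ u ∈ Sp φ m, E m u = 0 := fun m =>
    smooth_annih hS _ f (G m) (hbest m) (hstop m) (E m) (hE m)
  obtain ⟨F, hF1, hF⟩ := exists_ultralim (Filter.hyperfilter ℕ) E (fun m => (hE m).1.le)
  have hle : (Filter.hyperfilter ℕ : Filter ℕ) ≤ atTop := by
    rw [← Nat.cofinite_eq_atTop]; exact Filter.hyperfilter_le_cofinite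
  -- F kills all picks
  have hFann : ∀ k, ∀ u ∈ Sp φ k, F u = 0 := by
    intro k u hu
    have h1 : Tendsto (fun m => E m u) (Filter.hyperfilter ℕ) (𝓝 0) := by
      apply tendsto_const_nhds.congr'
      apply hle
      filter_upwards [eventually_ge_atTop k] with m hm
      exact (hann m u (Sp_mono φ hm hu)).symm
    exact tendsto_nhds_unique (hF u) h1
  -- F f = α
  have hFf : F f = α := by
    have h1 : ∀ m, E m f = ‖f - G m‖ := by
      intro m
      rw [← (hE m).2, map_sub, hann m _ (hbest m).1, sub_zero]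
    have h2 : Tendsto (fun m => E m f) (Filter.hyperfilter ℕ) (𝓝 α) := by
      simp only [h1]
      exact hα.mono_left hle
    exact tendsto_nhds_unique (hF f) h2
  have hFn : ‖F‖ = 1 := by
    apply le_antisymm hF1
    have h1 : ∀ m, α ≤ ‖F‖ * ‖f - G m‖ := by
      intro m
      have h2 : F (f - G m) = α := by rw [map_sub, hFann m _ (hbest m).1, sub_zero, hFf]
      rw [← h2]
      exact (le_abs_self _).trans (F.le_opNorm _)
    have h2 : α ≤ ‖F‖ * α := ge_of_tendsto' (hα.const_mul _) h1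
    nlinarith
  have hF0 : F ≠ 0 := by
    intro h; rw [h, norm_zero] at hFn; norm_num at hFn
  obtain ⟨g, hg, hgF⟩ := dict_exists hD F hF0
  have hc : 0 < |F g| := abs_pos.2 hgF
  obtain ⟨s, η, hη, hsη⟩ := hK F hFn (t * |F g| / 4) (by positivity)
  have hev1 : ∀ᶠ m in (Filter.hyperfilter ℕ : Filter ℕ), ∀ x ∈ s, |E m x - F x| < η := by
    rw [Filter.eventually_all_finset]
    intro x _
    have := (hF x).eventually (Metric.ball_mem_nhds _ hη)
    filter_upwards [this] with m hm
    simpa [Real.dist_eq] using hm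
  have hev2 : ∀ᶠ m in (Filter.hyperfilter ℕ : Filter ℕ), |F g| / 2 < |E m g| := by
    have := ((hF g).abs).eventually (lt_mem_nhds (show |F g| / 2 < |F g| by linarith))
    exact this
  obtain ⟨m, hm1, hm2⟩ := (hev1.and hev2).exists
  have h1 := hsη (E m) (hE m).1 hm1
  have h2 := hmax m g hg
  have h3 : F (φ m) = 0 := hFann (m + 1) _ (mem_Sp φ (Nat.lt_succ_self m))
  have h4 : |(E m - F) (φ m)| ≤ ‖E m - F‖ * ‖φ m‖ := (E m - F).le_opNorm _
  rw [hD.1 _ (hφ m), mul_one] at h4
  have h5 : (E m - F) (φ m) = E m (φ m) := by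
    show E m (φ m) - F (φ m) = _
    rw [h3, sub_zero]
  rw [h5] at h4
  have h6 : t * (|F g| / 2) ≤ t * |E m g| := by
    apply mul_le_mul_of_nonneg_left hm2.le ht.le
  have : 0 < t * |F g| := by positivity
  linarith

end Pool.Agent.Lib.MP_dc5a1d_an
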