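import Pool.Agent.Lib.MP_dc5a1d_an.ChainNum
import Pool.Agent.Lib.MP_dc5a1d_an.Suff

/-! The chain: algebraic identities, the chosen functionals. -/

set_option autoImplicit false

open Filter Topology

namespace Pool.Agent.Lib.MP_dc5a1d_an

variable {X : Type*} [NormedAddCommGroup X] [NormedSpace ℝ X]

/-- links of the chain -/
noncomputable def kk (z : ℕ → X) (j : ℕ) : X := z j - (9 / 10 : ℝ) • z (j + 1)

/-- shift vector of the base -/
noncomputable def ww {q : ℝ} (S : Sched q) (x : ℕ → X) (m : ℕ) : X := x (S.N m) - x (S.B m)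

/-- the raw elements of the dictionary -/
noncomputable def ph {q : ℝ} (S : Sched q) (x z : ℕ → X) (m : ℕ) : X :=
  kk z m - S.a m • kk z (m - 1) - S.b m • kk z (m - 2) - S.τ m • ww S x m

variable {q : ℝ} (S : Sched q) (x z : ℕ → X)

lemma ww_a (m : ℕ) (h : S.a (m + 1) ≠ 0) : ww S x (m + 1) = ww S x m := by
  have h1 : ¬ S.en m := fun he => h (S.en_step m he).2.2.2.1
  obtain ⟨h2, h3, _⟩ := S.nen_step m h1
  unfold ww
  rw [h2, h3]

lemma b_nen (m : ℕ) (h : S.b (m + 2) ≠ 0) : ¬ S.en m ∧ ¬ S.en (m + 1) := by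
  have h1 : ¬ S.en m := fun he => h (S.en_step m he).2.2.2.2.2.1
  refine ⟨h1, fun he => h (S.en_a m h1 he).2.2⟩

lemma ww_b (m : ℕ) (h : S.b (m + 2) ≠ 0) : ww S x (m + 2) = ww S x m := by
  obtain ⟨h0, h1⟩ := b_nen S m h
  obtain ⟨h2, h3, _⟩ := S.nen_step m h0
  obtain ⟨h4, h5, _⟩ := S.nen_step (m + 1) h1
  have h4' : S.N (m + 2) = S.N (m + 1) := h4
  have h5' : S.B (m + 2) = S.B (m + 1) := h5
  unfold ww
  rw [h4', h5', h2, h3]

lemma smul_ww_a (m : ℕ) (c : ℝ) : (S.a (m + 1) * c) • ww S x (m + 1) =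
    (S.a (m + 1) * c) • ww S x m := by
  by_cases h : S.a (m + 1) = 0
  · rw [h]; simp
  · rw [ww_a S x m h]

lemma smul_ww_b (m : ℕ) (c : ℝ) : (S.b (m + 2) * c) • ww S x (m + 2) =
    (S.b (m + 2) * c) • ww S x m := by
  by_cases h : S.b (m + 2) = 0
  · rw [h]; simp
  · rw [ww_b S x m h]

/-- the `m`-th element is the link minus the hidden multiple of the shift vector, modulo the
previous elements -/
lemma ph_mod (m : ℕ) : ph S x z m - (kk z m - S.μ m • ww S x m) ∈ Sp (ph S x z) m := by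
  induction m using Nat.strong_induction_on with
  | _ m ih =>
    have hB : ∀ j, j < m → kk z j - S.μ j • ww S x j ∈ Sp (ph S x z) m := by
      intro j hj
      have h1 := Sp_mono (ph S x z) (show j ≤ m by omega) (ih j hj)
      have h2 := mem_Sp (ph S x z) hj
      have h3 := Submodule.sub_mem _ h2 h1
      rwa [sub_sub_cancel] at h3
    match m with
    | 0 =>
      unfold ph
      rw [S.a_zero, S.b_zero, S.μ_zero]
      simp
    | 1 =>
      have h1 := hB 0 (by omega)
      have h2 : ph S x z 1 - (kk z 1 - S.μ 1 • ww S x 1) =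
          -(S.a 1 • (kk z 0 - S.μ 0 • ww S x 0)) := by
        unfold ph
        rw [S.b_one, S.μ_one]
        have h3 := smul_ww_a S x 0 (S.μ 0)
        simp only [Nat.zero_add] at h3
        rw [add_smul, h3]
        simp only [Nat.sub_self, zero_smul, sub_zero, smul_sub, smul_smul]
        abel
      rw [h2]
      exact Submodule.neg_mem _ (Submodule.smul_mem _ _ h1)
    | (m + 2) =>
      have h1 := hB (m + 1) (by omega)
      have h1' := hB m (by omega)
      have h2 : ph S x z (m + 2) - (kk z (m + 2) - S.μ (m + 2) • ww S x (m + 2)) =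
          -(S.a (m + 2) • (kk z (m + 1) - S.μ (m + 1) • ww S x (m + 1))) -
          (S.b (m + 2) • (kk z m - S.μ m • ww S x m)) := by
        unfold ph
        have e1 : m + 2 - 1 = m + 1 := by omega
        have e2 : m + 2 - 2 = m := by omega
        rw [S.μ_rec, e1, e2]
        have h3 := smul_ww_a S x (m + 1) (S.μ (m + 1))
        have h4 := smul_ww_b S x m (S.μ m)
        have h3' : (S.a (m + 2) * S.μ (m + 1)) • ww S x (m + 2) =
          (S.a (m + 2) * S.μ (m + 1)) • ww S x (m + 1) := h3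
        rw [add_smul, add_smul, h3', h4]
        simp only [smul_sub, smul_smul]
        abel
      rw [h2]
      exact Submodule.sub_mem _ (Submodule.neg_mem _ (Submodule.smul_mem _ _ h1))
        (Submodule.smul_mem _ _ h1')

lemma kk_mod (m : ℕ) : kk z m - S.μ m • ww S x m ∈ Sp (ph S x z) (m + 1) := by
  have h1 := Sp_mono (ph S x z) (Nat.le_succ m) (ph_mod S x z m)
  have h2 := mem_Sp (ph S x z) (Nat.lt_succ_self m)
  have h3 := Submodule.sub_mem _ h2 h1
  rwa [sub_sub_cancel] at h3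

/-- the current point of the chain -/
noncomputable def pp (m : ℕ) : X := x (S.B m) + S.lam m • ww S x m

lemma pp_succ (m : ℕ) : pp S x (m + 1) = pp S x m + ((9 / 10 : ℝ) ^ m * S.μ m) • ww S x m := by
  by_cases he : S.en m
  · obtain ⟨h1, h2, h3, _⟩ := S.en_step m he
    have h4 : (9 / 10 : ℝ) ^ m * S.μ m = 1 - S.lam m := by linarith
    unfold pp
    rw [h1, h2, h4, sub_smul, one_smul, zero_smul]
    unfold ww
    abel
  · obtain ⟨h1, h2, h3, _⟩ := S.nen_step m he
    unfold pp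
    rw [h3, h2, add_smul, add_assoc]
    unfold ww
    rw [h1, h2]

lemma chain_res (m : ℕ) : (x 0 + z 0) - pp S x m - (9 / 10 : ℝ) ^ m • z m ∈ Sp (ph S x z) m := by
  induction m with
  | zero =>
    unfold pp
    rw [S.B_zero, S.lam_zero]
    simp
  | succ m ih =>
    have h1 := Sp_mono (ph S x z) (Nat.le_succ m) ih
    have h2 := Submodule.smul_mem _ ((9 / 10 : ℝ) ^ m) (kk_mod S x z m)
    have h3 := Submodule.add_mem _ h1 h2
    have h4 : (x 0 + z 0) - pp S x (m + 1) - (9 / 10 : ℝ) ^ (m + 1) • z (m + 1) =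
      (x 0 + z 0) - pp S x m - (9 / 10 : ℝ) ^ m • z m +
        (9 / 10 : ℝ) ^ m • (kk z m - S.μ m • ww S x m) := by
      rw [pp_succ]
      unfold kk
      rw [smul_sub, smul_sub, smul_smul, smul_smul, pow_succ]
      abel
    rw [h4]
    exact h3

/-! ### The chosen functionals -/

/-- property of the chosen functional -/
def IsECh (f : X) (V : Submodule ℝ X) (E : X →L[ℝ] ℝ) : Prop :=
  ‖E‖ = 1 ∧ (∀ u ∈ V, E u = 0) ∧ (∀ G, IsBestApprox f G V → ‖f - G‖ = E f) ∧
    ∀ H : X →L[ℝ] ℝ, (∀ u ∈ V, H u = 0) → H f ≤ ‖H‖ * E f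

lemma exists_isE (f : X) (V : Submodule ℝ X) [FiniteDimensional ℝ V] (hf : f ∉ V) :
    ∃ E, IsECh f V E := by
  obtain ⟨G, hG⟩ := exists_best V f
  have hne : f - G ≠ 0 := by
    intro h
    rw [sub_eq_zero] at h
    exact hf (h ▸ hG.1)
  obtain ⟨E, hE1, hE2⟩ := exists_annih V (f - G) hne (by
    intro u hu
    have := hG.2 (G + u) (V.add_mem hG.1 hu)
    rw [sub_add_eq_sub_sub] at this
    exact this)
  have hEf : E f = ‖f - G‖ := by
    rw [← hE1.2, map_sub, hE2 G hG.1, sub_zero]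
  refine ⟨E, hE1.1, hE2, ?_, ?_⟩
  · intro G' hG'
    rw [hEf]
    exact le_antisymm (hG'.2 G hG.1) (hG.2 G' hG'.1)
  · intro H hH
    rw [hEf]
    have h1 := H.le_opNorm (f - G)
    rw [map_sub, hH G hG.1, sub_zero] at h1
    exact (le_abs_self _).trans h1

open Classical in
/-- the chosen functional -/
noncomputable def EE (f : X) (V : Submodule ℝ X) : X →L[ℝ] ℝ :=
  if h : ∃ E, IsECh f V E then Classical.choose h else 0

lemma EE_spec (f : X) (V : Submodule ℝ X) [FiniteDimensional ℝ V] (hf : f ∉ V) :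
    IsECh f V (EE f V) := by
  have h := exists_isE f V hf
  unfold EE
  rw [dif_pos h]
  exact Classical.choose_spec h

lemma Sp_smul (φ : ℕ → X) (ω : ℕ → ℝ) (hω : ∀ m, ω m ≠ 0) (m : ℕ) :
    Sp (fun j => ω j • φ j) m = Sp φ m := by
  apply le_antisymm
  · unfold Sp
    rw [Submodule.span_le]
    rintro v ⟨j, hj, rfl⟩
    exact Submodule.smul_mem _ _ (Submodule.subset_span ⟨j, hj, rfl⟩)
  · unfold Sp
    rw [Submodule.span_le]
    rintro v ⟨j, hj, rfl⟩
    have h1 : φ j = (ω j)⁻¹ • (ω j • φ j) := by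
      rw [smul_smul, inv_mul_cancel₀ (hω j), one_smul]
    show φ j ∈ Submodule.span ℝ {v | ∃ i < m, v = ω i • φ i}
    rw [h1]
    exact Submodule.smul_mem _ _ (Submodule.subset_span ⟨j, hj, rfl⟩)

end Pool.Agent.Lib.MP_dc5a1d_an
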