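import Pool.Agent.Lib.MP_dc5a1d_an.ChainRec

/-! The estimates for the chain. -/

set_option autoImplicit false

open Filter Topology

namespace Pool.Agent.Lib.MP_dc5a1d_an

variable {X : Type*} [NormedAddCommGroup X] [NormedSpace ℝ X]

/-- the witness functionals -/
noncomputable def GG (F : X →L[ℝ] ℝ) (G : ℕ → X →L[ℝ] ℝ) : ℕ → X →L[ℝ] ℝ
  | 0 => (9 / 10 : ℝ) • F + (1 / 10 : ℝ) • G 0
  | (m + 1) => (9 / 10 : ℝ) • GG F G m + (1 / 10 : ℝ) • G (m + 1)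

/-- norm bounds for the functionals -/
noncomputable def etaC (Δ : ℝ) (i : ℕ) : ℝ := Δ * (9 / 10 : ℝ) ^ i * (1 / 2 : ℝ) ^ i / 8

/-- norm bounds for the base vectors -/
noncomputable def KC {q : ℝ} (S : Sched q) (Δ : ℝ) (j : ℕ) : ℝ :=
  Δ / 80 * (9 / 10 : ℝ) ^ (S.M j)

section

variable {q : ℝ} {S : Sched q} {F : X →L[ℝ] ℝ} {Δ : ℝ} {x z : ℕ → X} {G E : ℕ → X →L[ℝ] ℝ}

section GGs

variable {K : ℕ → ℝ} {η : ℕ → ℝ} (D : ChainData S F Δ K η x z G E)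

include D

lemma GG_x (m j : ℕ) : GG F G m (x j) = 1 := by
  induction m with
  | zero =>
    show (9 / 10 : ℝ) * F (x j) + (1 / 10 : ℝ) * G 0 (x j) = 1
    rw [D.Fx, D.Gx]; norm_num
  | succ m ih =>
    show (9 / 10 : ℝ) * GG F G m (x j) + (1 / 10 : ℝ) * G (m + 1) (x j) = 1
    rw [ih, D.Gx]; norm_num

lemma GG_z_gt (m j : ℕ) (h : m < j) : GG F G m (z j) = 0 := by
  induction m with
  | zero =>
    show (9 / 10 : ℝ) * F (z j) + (1 / 10 : ℝ) * G 0 (z j) = 0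
    rw [D.Fz, D.Gz' 0 j (by omega)]; norm_num
  | succ m ih =>
    show (9 / 10 : ℝ) * GG F G m (z j) + (1 / 10 : ℝ) * G (m + 1) (z j) = 0
    rw [ih (by omega), D.Gz' (m + 1) j (by omega)]; norm_num

lemma GG_z_self (m : ℕ) : GG F G m (z m) = Δ / 10 := by
  cases m with
  | zero =>
    show (9 / 10 : ℝ) * F (z 0) + (1 / 10 : ℝ) * G 0 (z 0) = _
    rw [D.Fz, D.Gz]; ring
  | succ m =>
    show (9 / 10 : ℝ) * GG F G m (z (m + 1)) + (1 / 10 : ℝ) * G (m + 1) (z (m + 1)) = _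
    rw [GG_z_gt D m (m + 1) (by omega), D.Gz]; ring

lemma GG_z_zero (m : ℕ) : GG F G m (z 0) = (9 / 10 : ℝ) ^ m * (Δ / 10) := by
  induction m with
  | zero => rw [GG_z_self D 0]; simp
  | succ m ih =>
    show (9 / 10 : ℝ) * GG F G m (z 0) + (1 / 10 : ℝ) * G (m + 1) (z 0) = _
    rw [ih, D.Gz' (m + 1) 0 (by omega)]; ring

lemma GG_kk (m j : ℕ) (h : j < m) : GG F G m (kk z j) = 0 := by
  induction m with
  | zero => omega
  | succ m ih =>
    have h1 : GG F G (m + 1) (kk z j) =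
      (9 / 10 : ℝ) * GG F G m (kk z j) + (1 / 10 : ℝ) * G (m + 1) (kk z j) := rfl
    rw [h1]
    by_cases hj : j < m
    · rw [ih hj]
      unfold kk
      rw [map_sub, map_smul, D.Gz' (m + 1) j (by omega), D.Gz' (m + 1) (j + 1) (by omega)]
      simp
    · have : j = m := by omega
      subst this
      unfold kk
      rw [map_sub, map_smul, map_sub, map_smul, GG_z_self D, GG_z_gt D j (j + 1) (by omega),
        D.Gz' (j + 1) j (by omega), D.Gz]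
      simp only [smul_eq_mul]
      ring

lemma GG_ww (m j : ℕ) : GG F G m (ww S x j) = 0 := by
  unfold ww
  rw [map_sub, GG_x D, GG_x D, sub_self]

lemma GG_Sp (m : ℕ) (u : X) (hu : u ∈ Sp (ph S x z) m) : GG F G m u = 0 := by
  have h1 : Sp (ph S x z) m ≤ LinearMap.ker (GG F G m : X →ₗ[ℝ] ℝ) := by
    unfold Sp
    rw [Submodule.span_le]
    rintro v ⟨j, hj, rfl⟩
    show GG F G m (ph S x z j) = 0
    unfold ph
    rw [map_sub, map_sub, map_sub, map_smul, map_smul, map_smul, GG_kk D m j hj,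
      GG_kk D m (j - 1) (by omega), GG_kk D m (j - 2) (by omega), GG_ww D]
    simp
  exact h1 hu

lemma GG_f (m : ℕ) : GG F G m (x 0 + z 0) = 1 + (9 / 10 : ℝ) ^ m * (Δ / 10) := by
  rw [map_add, GG_x D, GG_z_zero D]

end GGs

lemma GG_norm (hF : ‖F‖ = 1) (hΔ : 0 < Δ) {K : ℕ → ℝ}
    (D : ChainData S F Δ K (etaC Δ) x z G E) (m : ℕ) :
    ‖GG F G m‖ ≤ 1 + (9 / 10 : ℝ) ^ m * (Δ / 80) * (2 - (1 / 2 : ℝ) ^ m) := by
  induction m with
  | zero =>
    have h1 : GG F G 0 = (9 / 10 : ℝ) • F + (1 / 10 : ℝ) • G 0 := rfl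
    have h2 := norm_add_le ((9 / 10 : ℝ) • F) ((1 / 10 : ℝ) • G 0)
    rw [norm_smul, norm_smul, Real.norm_of_nonneg (by norm_num : (0 : ℝ) ≤ 9 / 10),
      Real.norm_of_nonneg (by norm_num : (0 : ℝ) ≤ 1 / 10), hF] at h2
    have h3 := D.nG 0
    unfold etaC at h3
    rw [h1]
    norm_num at h3 ⊢
    linarith
  | succ m ih =>
    have h1 : GG F G (m + 1) = (9 / 10 : ℝ) • GG F G m + (1 / 10 : ℝ) • G (m + 1) := rfl
    have h2 := norm_add_le ((9 / 10 : ℝ) • GG F G m) ((1 / 10 : ℝ) • G (m + 1))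
    rw [norm_smul, norm_smul, Real.norm_of_nonneg (by norm_num : (0 : ℝ) ≤ 9 / 10),
      Real.norm_of_nonneg (by norm_num : (0 : ℝ) ≤ 1 / 10)] at h2
    have h3 := D.nG (m + 1)
    unfold etaC at h3
    rw [h1]
    have e1 : (9 / 10 : ℝ) ^ (m + 1) = 9 / 10 * (9 / 10 : ℝ) ^ m := by ring
    have e2 : (1 / 2 : ℝ) ^ (m + 1) = 1 / 2 * (1 / 2 : ℝ) ^ m := by ring
    rw [e1, e2] at h3 ⊢
    have e3 : 0 ≤ (9 / 10 : ℝ) ^ m * Δ * (1 / 2 : ℝ) ^ m := by positivity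
    nlinarith

section est

variable (hF : ‖F‖ = 1) (hΔ : 0 < Δ) (hΔ1 : Δ ≤ 1 / 4)
  (D : ChainData S F Δ (KC S Δ) (etaC Δ) x z G E)

include hF hΔ hΔ1 D

omit hΔ1 in
lemma E_isE (m : ℕ) : IsECh (x 0 + z 0) (Sp (ph S x z) m) (E m) := by
  rw [D.E_eq]
  apply EE_spec
  intro hmem
  have h1 := GG_Sp D m _ hmem
  rw [GG_f D] at h1
  have : 0 < (9 / 10 : ℝ) ^ m * (Δ / 10) := by positivity
  linarith

lemma E_f (m : ℕ) : 1 + (9 / 10 : ℝ) ^ m * (Δ / 20) ≤ E m (x 0 + z 0) := by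
  have h0 := E_isE hF hΔ D m
  have h1 := h0.2.2.2 (GG F G m) (GG_Sp D m)
  rw [GG_f D] at h1
  have h2 := GG_norm hF hΔ D m
  have h3 : (0 : ℝ) < (9 / 10 : ℝ) ^ m := by positivity
  have h3' : (9 / 10 : ℝ) ^ m ≤ 1 := pow_le_one₀ (by norm_num) (by norm_num)
  have h4 : (0 : ℝ) < (1 / 2 : ℝ) ^ m := by positivity
  set r := (9 / 10 : ℝ) ^ m with hr
  have h5 : ‖GG F G m‖ ≤ 1 + r * (Δ / 40) := by
    have : 0 ≤ r * (Δ / 80) * (1 / 2 : ℝ) ^ m := by positivity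
    nlinarith
  by_contra hcon
  push Not at hcon
  have h6 : 0 ≤ E m (x 0 + z 0) := by
    by_contra hneg
    push Not at hneg
    have : ‖GG F G m‖ * E m (x 0 + z 0) ≤ 0 :=
      mul_nonpos_of_nonneg_of_nonpos (norm_nonneg _) hneg.le
    have : 0 < r * (Δ / 10) := by positivity
    linarith
  have h7 : ‖GG F G m‖ * E m (x 0 + z 0) ≤ (1 + r * (Δ / 40)) * (1 + r * (Δ / 20)) :=
    mul_le_mul h5 hcon.le h6 (by positivity)
  have h8 : r * Δ ≤ 1 := by nlinarith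
  have h9 : 0 < r * Δ := by positivity
  nlinarith

omit hΔ1 in
lemma E_le (m : ℕ) (v : X) : E m v ≤ ‖v‖ := by
  have h0 := E_isE hF hΔ D m
  exact (le_abs_self _).trans (abs_le_of_norm h0.1.le v)

omit hF hΔ1 in
lemma KC_N (m : ℕ) : ‖x (S.N m)‖ ≤ 1 + (9 / 10 : ℝ) ^ m * (Δ / 80) := by
  have h1 := D.nx (S.N m)
  unfold KC at h1
  have h2 : (9 / 10 : ℝ) ^ (S.M (S.N m)) ≤ (9 / 10 : ℝ) ^ m :=
    pow_le_pow_of_le_one (by norm_num) (by norm_num) (S.N_M m)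
  have h3 := mul_le_mul_of_nonneg_left h2 (show 0 ≤ Δ / 80 by positivity)
  linarith

omit hF hΔ1 in
lemma KC_B (m : ℕ) : ‖x (S.B m)‖ ≤ 1 + (9 / 10 : ℝ) ^ m * (Δ / 80) := by
  have h1 := D.nx (S.B m)
  unfold KC at h1
  have h2 : (9 / 10 : ℝ) ^ (S.M (S.B m)) ≤ (9 / 10 : ℝ) ^ m :=
    pow_le_pow_of_le_one (by norm_num) (by norm_num) (S.B_M m)
  have h3 := mul_le_mul_of_nonneg_left h2 (show 0 ≤ Δ / 80 by positivity)
  linarith

omit hΔ1 in
lemma E_decomp (m : ℕ) : E m (x 0 + z 0) = E m (x (S.B m)) +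
    S.lam m * (E m (x (S.N m)) - E m (x (S.B m))) + (9 / 10 : ℝ) ^ m * E m (z m) := by
  have h0 := (E_isE hF hΔ D m).2.1 _ (chain_res S x z m)
  rw [map_sub, map_sub, map_smul] at h0
  unfold pp at h0
  rw [map_add (E m) (x (S.B m)), map_smul] at h0
  unfold ww at h0
  rw [map_sub (E m) (x (S.N m))] at h0
  simp only [smul_eq_mul] at h0
  linarith

/-- the slope of the top vector -/
lemma E_z (m : ℕ) : 3 * Δ / 80 ≤ E m (z m) := by
  have h1 := E_f hF hΔ hΔ1 D m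
  have h2 := E_decomp hF hΔ D m
  have h3 := (E_le hF hΔ D m _).trans (KC_N hΔ D m)
  have h4 := (E_le hF hΔ D m _).trans (KC_B hΔ D m)
  have h5 := S.lam_nonneg m
  have h6 := S.lam_le m
  have h7 : (0 : ℝ) < (9 / 10 : ℝ) ^ m := by positivity
  set r := (9 / 10 : ℝ) ^ m with hr
  have h8 : r * (3 * Δ / 80) ≤ r * E m (z m) := by nlinarith
  exact le_of_mul_le_mul_left h8 h7

lemma E_w (m : ℕ) : (1 - S.lam m) * E m (ww S x m) ≤
    (9 / 10 : ℝ) ^ m * (E m (z m) - 3 * Δ / 80) := by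
  have h1 := E_f hF hΔ hΔ1 D m
  have h2 := E_decomp hF hΔ D m
  have h3 := (E_le hF hΔ D m _).trans (KC_N hΔ D m)
  unfold ww
  rw [map_sub]
  linarith

omit hΔ1 in
lemma E_kk_gt (m j : ℕ) (h : m < j) : E m (kk z j) = 0 := by
  unfold kk
  rw [map_sub, map_smul, D.Ez m j h, D.Ez m (j + 1) (by omega)]
  simp

omit hΔ1 in
lemma E_kk_self (m : ℕ) : E m (kk z m) = E m (z m) := by
  unfold kk
  rw [map_sub, map_smul, D.Ez m (m + 1) (by omega)]
  simp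

omit hΔ1 in
lemma E_kk_prev (m : ℕ) : E (m + 1) (kk z m) = S.μ m * E (m + 1) (ww S x m) := by
  have h0 := (E_isE hF hΔ D (m + 1)).2.1 _ (kk_mod S x z m)
  rw [map_sub, map_smul, smul_eq_mul] at h0
  linarith

omit hΔ1 in
lemma E_ph (m : ℕ) : E m (ph S x z m) = E m (z m) - S.μ m * E m (ww S x m) := by
  have h0 := (E_isE hF hΔ D m).2.1 _ (ph_mod S x z m)
  rw [map_sub, map_sub, map_smul, smul_eq_mul, E_kk_self hF hΔ D] at h0
  linarith

/-- multiples of the shift vector with small coefficient -/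
lemma small_w (m : ℕ) (c : ℝ) (hc0 : 0 ≤ c) (hc : (9 / 10 : ℝ) ^ m * c ≤ 7 / 360)
    (hW : 0 < E m (ww S x m)) : c * E m (ww S x m) ≤ 7 / 353 * E m (z m) := by
  have h1 := E_w hF hΔ hΔ1 D m
  have h2 := E_z hF hΔ hΔ1 D m
  have h5 := S.lam_nonneg m
  have h6 := S.lam_le m
  have h7 : (0 : ℝ) < (9 / 10 : ℝ) ^ m := by positivity
  set r := (9 / 10 : ℝ) ^ m with hr
  set W := E m (ww S x m) with hWd
  set e := E m (z m) with he
  have h8 : 353 / 360 * W ≤ r * e := by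
    have : (353 / 360 : ℝ) * W ≤ (1 - S.lam m) * W :=
      mul_le_mul_of_nonneg_right (by linarith) hW.le
    have h9 : 0 < r * (3 * Δ / 80) := by positivity
    linarith
  have h9 : c * (353 / 360 * W) ≤ c * (r * e) := mul_le_mul_of_nonneg_left h8 hc0
  have h10 : (r * c) * e ≤ 7 / 360 * e := mul_le_mul_of_nonneg_right hc (by linarith)
  linarith

lemma slope_nen (m : ℕ) (h : ¬ S.en m) : 19 / 20 * E m (z m) ≤ E m (ph S x z m) := by
  rw [E_ph hF hΔ D]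
  have h2 := E_z hF hΔ hΔ1 D m
  have h3 := (S.nen_step m h).2.2.2.1
  by_cases hW : 0 < E m (ww S x m)
  · have := small_w hF hΔ hΔ1 D m (S.μ m) (S.μ_nonneg m) h3 hW
    linarith
  · push Not at hW
    have := mul_nonpos_of_nonneg_of_nonpos (S.μ_nonneg m) hW
    linarith

lemma slope_en (m : ℕ) (h : S.en m) : 3 * Δ / 80 ≤ E m (ph S x z m) := by
  rw [E_ph hF hΔ D]
  have h1 := E_w hF hΔ hΔ1 D m
  have h3 := (S.en_step m h).2.2.1
  have h4 : 1 - S.lam m = (9 / 10 : ℝ) ^ m * S.μ m := by linarith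
  rw [h4, mul_assoc] at h1
  have h7 : (0 : ℝ) < (9 / 10 : ℝ) ^ m := by positivity
  have := le_of_mul_le_mul_left h1 h7
  linarith

end est

end

end Pool.Agent.Lib.MP_dc5a1d_an
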