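import Mathlib

/-! Numerical schedule for the chain construction (case `ξ (G) → 1`). -/

set_option autoImplicit false

open Filter Topology

namespace Pool.Agent.Lib.MP_dc5a1d_an

/-- the growth sequence of the hidden coefficients -/
noncomputable def kap : ℕ → ℝ
  | 0 => 1
  | 1 => 9 / 10
  | (i + 2) => 9 / 10 * (kap (i + 1) + kap i)

lemma kap_pos (i : ℕ) : 0 < kap i := by
  induction i using Nat.strong_induction_on with
  | _ i ih =>
    match i with
    | 0 => simp [kap]
    | 1 => simp only [kap]; norm_num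
    | (i + 2) =>
      have h1 := ih i (by omega)
      have h2 := ih (i + 1) (by omega)
      simp only [kap]
      positivity

lemma kap_step (i : ℕ) : 9 / 10 * kap i ≤ kap (i + 1) := by
  match i with
  | 0 => simp [kap]
  | (i + 1) =>
    have := kap_pos i
    simp only [kap]
    linarith

/-- the scaled growth sequence -/
noncomputable def II (i : ℕ) : ℝ := (9 / 10 : ℝ) ^ i * kap i

lemma II_pos (i : ℕ) : 0 < II i := by
  have := kap_pos i
  unfold II
  positivity

lemma II_rec (i : ℕ) : II (i + 2) = 81 / 100 * II (i + 1) + 729 / 1000 * II i := by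
  simp only [II, kap]
  ring

lemma II_ratio (i : ℕ) : 6 / 5 * II (i + 1) ≤ II (i + 2) ∧ II (i + 2) ≤ 9 / 5 * II (i + 1) := by
  induction i with
  | zero => simp only [II, kap]; norm_num
  | succ i ih =>
    have h := II_rec (i + 1)
    obtain ⟨h1, h2⟩ := ih
    have h3 : II (i + 1 + 1) = II (i + 2) := rfl
    rw [h3] at h ⊢
    have h4 := II_pos (i + 2)
    have h5 := II_pos (i + 1)
    constructor <;> linarith

lemma II_sum (n : ℕ) : ∑ j ∈ Finset.range (n + 1), II j ≤ 7 * II n := by
  induction n with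
  | zero =>
    rw [Finset.sum_range_one]
    have := II_pos 0
    linarith
  | succ n ih =>
    rw [Finset.sum_range_succ]
    match n with
    | 0 =>
      rw [Finset.sum_range_one]
      simp only [II, kap]
      norm_num
    | (n + 1) =>
      have h := (II_ratio n).1
      have h5 := II_pos (n + 1)
      have h3 : II (n + 1 + 1) = II (n + 2) := rfl
      rw [h3]
      linarith

lemma II_grow (n : ℕ) : (6 / 5 : ℝ) ^ n * (81 / 100) ≤ II (n + 1) := by
  induction n with
  | zero => simp only [II, kap]; norm_num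
  | succ n ih =>
    have h := (II_ratio n).1
    rw [pow_succ]
    have h3 : II (n + 1 + 1) = II (n + 2) := rfl
    rw [h3]
    linarith

/-- the total shift of a block of length `l` started at `s`, for coefficient one -/
noncomputable def TT (s l : ℕ) : ℝ :=
  (9 / 10 : ℝ) ^ s * (∑ j ∈ Finset.range (l - 1), II j + 360 * II (l - 2))

lemma TT_pos (s l : ℕ) : 0 < TT s l := by
  unfold TT
  have h1 : 0 ≤ ∑ j ∈ Finset.range (l - 1), II j := Finset.sum_nonneg fun j _ => (II_pos j).le
  have h2 := II_pos (l - 2)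
  positivity

lemma exists_len (s : ℕ) (C : ℝ) : ∃ l : ℕ, 2 ≤ l ∧ C ≤ TT s l := by
  have h1 : Tendsto (fun n : ℕ => (6 / 5 : ℝ) ^ n) atTop atTop :=
    tendsto_pow_atTop_atTop_of_one_lt (by norm_num)
  obtain ⟨n, hn⟩ := (h1.eventually_ge_atTop (C / (9 / 10 : ℝ) ^ s)).exists
  refine ⟨n + 3, by omega, ?_⟩
  have h2 := II_grow n
  have h3 : 0 ≤ ∑ j ∈ Finset.range (n + 3 - 1), II j := Finset.sum_nonneg fun j _ => (II_pos j).le
  have h4 : (0 : ℝ) < (9 / 10 : ℝ) ^ s := by positivity
  have h5 : (0 : ℝ) < (6 / 5 : ℝ) ^ n := by positivity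
  rw [div_le_iff₀ h4] at hn
  unfold TT
  have h6 : n + 3 - 2 = n + 1 := by omega
  rw [h6]
  calc C ≤ (6 / 5 : ℝ) ^ n * (9 / 10 : ℝ) ^ s := hn
    _ = (9 / 10 : ℝ) ^ s * (6 / 5 : ℝ) ^ n := mul_comm _ _
    _ ≤ _ := by
      apply mul_le_mul_of_nonneg_left _ h4.le
      linarith

/-- state of the block automaton: start of the current block and its base index -/
def stp (L : ℕ → ℕ) : ℕ → ℕ × ℕ
  | 0 => (0, 0)
  | (m + 1) => if m + 1 = (stp L m).1 + L (stp L m).1 then (m + 1, (stp L m).1 + 1) else stp L m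

/-- the abstract schedule used by the chain -/
structure Sched (q : ℝ) where
  /-- index of the new base -/
  N : ℕ → ℕ
  /-- index of the current base -/
  B : ℕ → ℕ
  /-- last stage where an index is used -/
  M : ℕ → ℕ
  /-- coefficient of `k_{m-1}` -/
  a : ℕ → ℝ
  /-- coefficient of `k_{m-2}` -/
  b : ℕ → ℝ
  /-- coefficient of `w` -/
  τ : ℕ → ℝ
  /-- hidden coefficient of `w` -/
  μ : ℕ → ℝ
  /-- amount of the base already shifted -/
  lam : ℕ → ℝ
  /-- weight -/
  ω : ℕ → ℝ
  /-- last element of a block -/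
  en : ℕ → Prop
  N_le : ∀ m, N m ≤ m + 1
  B_le : ∀ m, B m ≤ m
  N_M : ∀ m, m ≤ M (N m)
  B_M : ∀ m, m ≤ M (B m)
  B_zero : B 0 = 0
  lam_zero : lam 0 = 0
  a_zero : a 0 = 0
  b_zero : b 0 = 0
  b_one : b 1 = 0
  b_nonneg : ∀ m, b m = 0 ∨ b m = 9 / 10
  τ_nonneg : ∀ m, 0 ≤ τ m
  τ_le : ∀ m, τ m ≤ q
  μ_nonneg : ∀ m, 0 ≤ μ m
  lam_nonneg : ∀ m, 0 ≤ lam m
  lam_le : ∀ m, lam m ≤ 7 / 360
  en_step : ∀ m, en m → B (m + 1) = N m ∧ lam (m + 1) = 0 ∧ lam m + (9 / 10 : ℝ) ^ m * μ m = 1 ∧
    a (m + 1) = 0 ∧ b (m + 1) = 0 ∧ b (m + 2) = 0 ∧ ω m = 1 / 800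
  nen_step : ∀ m, ¬ en m → N (m + 1) = N m ∧ B (m + 1) = B m ∧
    lam (m + 1) = lam m + (9 / 10 : ℝ) ^ m * μ m ∧ (9 / 10 : ℝ) ^ m * μ m ≤ 7 / 360 ∧
    τ (m + 1) = 0 ∧ ω m = 1
  en_a : ∀ m, ¬ en m → en (m + 1) → a (m + 1) = 400 ∧ b (m + 1) = 0 ∧ b (m + 2) = 0
  nen_a : ∀ m, ¬ en m → ¬ en (m + 1) → a (m + 1) = 9 / 10
  μ_zero : μ 0 = τ 0
  μ_one : μ 1 = a 1 * μ 0 + τ 1
  μ_rec : ∀ m, μ (m + 2) = a (m + 2) * μ (m + 1) + b (m + 2) * μ m + τ (m + 2)
  μ_mono : ∀ m, ¬ en m → ¬ en (m + 1) → 9 / 10 * μ m ≤ μ (m + 1)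
  bτ : ∀ m, b m ≠ 0 → τ m = 0

section construction

variable (L : ℕ → ℕ)

lemma stp_end (m : ℕ) (h : m + 1 = (stp L m).1 + L (stp L m).1) :
    stp L (m + 1) = (m + 1, (stp L m).1 + 1) := by
  rw [stp, if_pos h]

lemma stp_nend (m : ℕ) (h : ¬ m + 1 = (stp L m).1 + L (stp L m).1) :
    stp L (m + 1) = stp L m := by
  rw [stp, if_neg h]

variable (hL : ∀ s, 2 ≤ L s)

include hL

lemma stp_inv (m : ℕ) : (stp L m).1 ≤ m ∧ m < (stp L m).1 + L (stp L m).1 := by
  induction m with
  | zero =>
    have := hL 0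
    simp only [stp]
    omega
  | succ m ih =>
    by_cases h : m + 1 = (stp L m).1 + L (stp L m).1
    · rw [stp_end L m h]
      have := hL (m + 1)
      simp only
      omega
    · rw [stp_nend L m h]
      omega

omit hL in
lemma stp_base (m : ℕ) : stp L m = (0, 0) ∨
    ∃ s', (stp L m).2 = s' + 1 ∧ (stp L m).1 = s' + L s' := by
  induction m with
  | zero => left; rfl
  | succ m ih =>
    by_cases h : m + 1 = (stp L m).1 + L (stp L m).1
    · right
      rw [stp_end L m h]
      exact ⟨(stp L m).1, rfl, h⟩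
    · rw [stp_nend L m h]
      exact ih

omit hL in
lemma TT_end (s i : ℕ) (h : i + 1 = L s) (hi : 1 ≤ i) :
    TT s (L s) = (9 / 10 : ℝ) ^ s * (∑ j ∈ Finset.range i, II j + 360 * II (i - 1)) := by
  unfold TT
  have h1 : L s - 1 = i := by omega
  have h2 : L s - 2 = i - 1 := by omega
  rw [h1, h2]

/-- partial sums before the end of the block are small compared with the total -/
lemma TT_part (s i : ℕ) (h : i + 1 ≤ L s) :
    360 * ((9 / 10 : ℝ) ^ s * ∑ j ∈ Finset.range i, II j) ≤ 7 * TT s (L s) := by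
  unfold TT
  have h2 := hL s
  have h3 : L s - 1 = (L s - 2) + 1 := by omega
  rw [h3]
  have h4 := II_sum (L s - 2)
  have h5 : ∑ j ∈ Finset.range i, II j ≤ ∑ j ∈ Finset.range (L s - 2 + 1), II j := by
    apply Finset.sum_le_sum_of_subset_of_nonneg
    · intro j hj
      rw [Finset.mem_range] at hj ⊢
      omega
    · intro j _ _
      exact (II_pos j).le
  have h6 : (0 : ℝ) < (9 / 10 : ℝ) ^ s := by positivity
  have h7 : 0 ≤ ∑ j ∈ Finset.range (L s - 2 + 1), II j :=
    Finset.sum_nonneg fun j _ => (II_pos j).le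
  have h8 : 360 * ∑ j ∈ Finset.range i, II j ≤
      7 * (∑ j ∈ Finset.range (L s - 2 + 1), II j + 360 * II (L s - 2)) := by
    linarith
  calc 360 * ((9 / 10 : ℝ) ^ s * ∑ j ∈ Finset.range i, II j)
      = (9 / 10 : ℝ) ^ s * (360 * ∑ j ∈ Finset.range i, II j) := by ring
    _ ≤ (9 / 10 : ℝ) ^ s * (7 * (∑ j ∈ Finset.range (L s - 2 + 1), II j + 360 * II (L s - 2))) :=
        mul_le_mul_of_nonneg_left h8 h6.le
    _ = _ := by ring

lemma TT_part' (s i : ℕ) (h : i + 2 ≤ L s) :
    360 * ((9 / 10 : ℝ) ^ s * II i) ≤ 7 * TT s (L s) := by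
  refine le_trans ?_ (TT_part L hL s (i + 1) (by omega))
  have h6 : (0 : ℝ) < (9 / 10 : ℝ) ^ s := by positivity
  have h7 : 0 ≤ ∑ j ∈ Finset.range i, II j := Finset.sum_nonneg fun j _ => (II_pos j).le
  rw [Finset.sum_range_succ]
  have : II i ≤ ∑ j ∈ Finset.range i, II j + II i := by linarith
  have := mul_le_mul_of_nonneg_left this h6.le
  linarith

/-- last element of a block -/
def IsEnd (m : ℕ) : Prop := m + 1 = (stp L m).1 + L (stp L m).1

/-- position in the block -/
def loc (m : ℕ) : ℕ := m - (stp L m).1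

/-- normalisation of a block -/
noncomputable def thet (s : ℕ) : ℝ := 1 / TT s (L s)

omit hL in
lemma thet_pos (s : ℕ) : 0 < thet L s := by
  have := TT_pos s (L s)
  unfold thet
  positivity

omit hL in
lemma thet_mul (s : ℕ) : thet L s * TT s (L s) = 1 := by
  have := TT_pos s (L s)
  unfold thet
  field_simp

lemma loc_end (m : ℕ) (h : IsEnd L m) :
    stp L (m + 1) = (m + 1, (stp L m).1 + 1) ∧ loc L (m + 1) = 0 ∧ ¬ IsEnd L (m + 1) ∧
      1 ≤ loc L m ∧ loc L m + 1 = L (stp L m).1 := by
  have h1 := stp_end L m h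
  have h2 := hL (m + 1)
  have h3 := hL (stp L m).1
  have h4 := stp_inv L hL m
  unfold IsEnd at h
  refine ⟨h1, ?_, ?_, ?_, ?_⟩
  · unfold loc
    rw [h1]
    simp
  · unfold IsEnd
    rw [h1]
    simp only
    omega
  · unfold loc
    omega
  · unfold loc
    omega

lemma loc_nend (m : ℕ) (h : ¬ IsEnd L m) :
    stp L (m + 1) = stp L m ∧ loc L (m + 1) = loc L m + 1 ∧ loc L m + 2 ≤ L (stp L m).1 := by
  have h1 := stp_nend L m h
  have h4 := stp_inv L hL m
  unfold IsEnd at h
  refine ⟨h1, ?_, ?_⟩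
  · unfold loc
    rw [h1]
    omega
  · unfold loc
    omega

lemma loc_eq (m : ℕ) : m = (stp L m).1 + loc L m := by
  have h4 := stp_inv L hL m
  unfold loc
  omega

end construction

open Classical in
lemma exists_sched (q : ℝ) (hq : 0 < q) : Nonempty (Sched q) := by
  have hex : ∀ s : ℕ, ∃ l : ℕ, 2 ≤ l ∧ 1 / q ≤ TT s l := fun s => exists_len s (1 / q)
  choose L hL hT using hex
  have hθq : ∀ s, thet L s ≤ q := by
    intro s
    have h1 := TT_pos s (L s)
    have h2 := hT s
    unfold thet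
    rw [div_le_iff₀ h1]
    rw [div_le_iff₀ hq] at h2
    linarith
  have hprev : ∀ m, loc L (m + 1) ≠ 0 → ¬ IsEnd L m := by
    intro m hm he
    exact hm (loc_end L hL m he).2.1
  have hloc0 : loc L 0 = 0 := by simp [loc, stp]
  have hen0 : ¬ IsEnd L 0 := by
    have := hL 0
    unfold IsEnd
    simp only [stp]
    omega
  refine ⟨{
    N := fun m => (stp L m).1 + 1
    B := fun m => (stp L m).2
    M := fun n => match n with
      | 0 => L 0
      | (n + 1) => (n + L n) + L (n + L n)
    a := fun m => if IsEnd L m then 400 else if loc L m = 0 then 0 else 9 / 10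
    b := fun m => if IsEnd L m then 0 else if loc L m ≤ 1 then 0 else 9 / 10
    τ := fun m => if loc L m = 0 then thet L (stp L m).1 else 0
    μ := fun m => if IsEnd L m then 400 * (thet L (stp L m).1 * kap (loc L m - 1))
      else thet L (stp L m).1 * kap (loc L m)
    lam := fun m => thet L (stp L m).1 * ((9 / 10 : ℝ) ^ (stp L m).1 *
      ∑ j ∈ Finset.range (loc L m), II j)
    ω := fun m => if IsEnd L m then 1 / 800 else 1
    en := IsEnd L
    N_le := ?_
    B_le := ?_
    N_M := ?_
    B_M := ?_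
    B_zero := rfl
    lam_zero := ?_
    a_zero := ?_
    b_zero := ?_
    b_one := ?_
    b_nonneg := ?_
    τ_nonneg := ?_
    τ_le := ?_
    μ_nonneg := ?_
    lam_nonneg := ?_
    lam_le := ?_
    en_step := ?_
    nen_step := ?_
    en_a := ?_
    nen_a := ?_
    μ_zero := ?_
    μ_one := ?_
    μ_rec := ?_
    μ_mono := ?_
    bτ := ?_ }⟩
  · -- N_le
    intro m
    have := (stp_inv L hL m).1
    try simp only
    omega
  · -- B_le
    intro m
    try simp only
    have h1 := (stp_inv L hL m).1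
    rcases stp_base L m with h | ⟨s', h2, h3⟩
    · rw [h]; exact Nat.zero_le _
    · have := hL s'
      omega
  · -- N_M
    intro m
    try simp only
    have h1 := (stp_inv L hL m).2
    omega
  · -- B_M
    intro m
    try simp only
    have h1 := (stp_inv L hL m).2
    rcases stp_base L m with h | ⟨s', h2, h3⟩
    · rw [h] at h1 ⊢
      simp only at h1 ⊢
      omega
    · rw [h2]
      rw [h3] at h1
      try simp only
      omega
  · rw [hloc0]; simp
  · rw [if_neg hen0, if_pos hloc0]
  · rw [if_neg hen0, if_pos (by omega)]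
  · -- b_one
    have := (loc_nend L hL 0 hen0).2.1
    have h' : loc L 1 = 1 := by rw [hloc0] at this; exact this
    rw [h']
    simp
  · intro m
    try simp only
    split_ifs <;> simp
  · intro m
    try simp only
    have := thet_pos L (stp L m).1
    split_ifs <;> linarith
  · intro m
    try simp only
    have := hθq (stp L m).1
    split_ifs <;> linarith
  · intro m
    try simp only
    have h1 := thet_pos L (stp L m).1
    have h2 := kap_pos (loc L m - 1)
    have h3 := kap_pos (loc L m)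
    split_ifs <;> positivity
  · intro m
    try simp only
    have h1 := thet_pos L (stp L m).1
    have h2 : 0 ≤ ∑ j ∈ Finset.range (loc L m), II j := Finset.sum_nonneg fun j _ => (II_pos j).le
    positivity
  · -- lam_le
    intro m
    try simp only
    have h1 := thet_pos L (stp L m).1
    have h0 := thet_mul L (stp L m).1
    have h4 := loc_eq L hL m
    have h5 := (stp_inv L hL m).2
    have h2 := TT_part L hL (stp L m).1 (loc L m) (by omega)
    have h3 := mul_le_mul_of_nonneg_left h2 h1.le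
    linarith
  · -- en_step
    intro m hm
    obtain ⟨h1, h2, h3, h4, h5⟩ := loc_end L hL m hm
    obtain ⟨g1, g2, g3⟩ := loc_nend L hL (m + 1) h3
    refine ⟨?_, ?_, ?_, ?_, ?_, ?_, ?_⟩
    · simp only [h1]
    · simp only [h2]; simp
    · try simp only
      rw [if_pos hm]
      obtain ⟨i, hi⟩ : ∃ i, loc L m = i + 1 := ⟨loc L m - 1, by omega⟩
      have h6 := thet_mul L (stp L m).1
      rw [TT_end L (stp L m).1 (loc L m) h5 h4] at h6
      have h7 : (9 / 10 : ℝ) ^ m = (9 / 10 : ℝ) ^ (stp L m).1 * (9 / 10 : ℝ) ^ loc L m := by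
        conv_lhs => rw [loc_eq L hL m]
        rw [pow_add]
      rw [h7]
      rw [hi] at h6 ⊢
      rw [Nat.add_sub_cancel] at h6 ⊢
      have h8 : (9 / 10 : ℝ) ^ (i + 1) * kap i = 9 / 10 * II i := by
        unfold II; ring
      calc thet L (stp L m).1 * ((9 / 10 : ℝ) ^ (stp L m).1 * ∑ j ∈ Finset.range (i + 1), II j) +
            (9 / 10 : ℝ) ^ (stp L m).1 * (9 / 10 : ℝ) ^ (i + 1) *
            (400 * (thet L (stp L m).1 * kap i))
          = thet L (stp L m).1 * ((9 / 10 : ℝ) ^ (stp L m).1 *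
            (∑ j ∈ Finset.range (i + 1), II j + 400 * ((9 / 10 : ℝ) ^ (i + 1) * kap i))) := by
            ring
        _ = thet L (stp L m).1 * ((9 / 10 : ℝ) ^ (stp L m).1 *
            (∑ j ∈ Finset.range (i + 1), II j + 360 * II i)) := by
            rw [h8]; ring
        _ = 1 := h6
    · try simp only
      rw [if_neg h3, if_pos h2]
    · try simp only
      rw [if_neg h3, if_pos (by omega)]
    · try simp only
      split_ifs with k1 k2
      · rfl
      · rfl
      · have g2' : loc L (m + 2) = loc L (m + 1) + 1 := g2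
        omega
    · try simp only
      rw [if_pos hm]
  · -- nen_step
    intro m hm
    obtain ⟨h1, h2, h3⟩ := loc_nend L hL m hm
    have h6 := thet_mul L (stp L m).1
    have h7 : (9 / 10 : ℝ) ^ m = (9 / 10 : ℝ) ^ (stp L m).1 * (9 / 10 : ℝ) ^ loc L m := by
      conv_lhs => rw [loc_eq L hL m]
      rw [pow_add]
    have h8 : (9 / 10 : ℝ) ^ m * (thet L (stp L m).1 * kap (loc L m)) =
        thet L (stp L m).1 * ((9 / 10 : ℝ) ^ (stp L m).1 * II (loc L m)) := by
      rw [h7]; unfold II; ring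
    refine ⟨?_, ?_, ?_, ?_, ?_, ?_⟩
    · simp only [h1]
    · simp only [h1]
    · simp only [h1, h2]
      rw [if_neg hm, h8, Finset.sum_range_succ]
      ring
    · try simp only
      rw [if_neg hm, h8]
      have h9 := TT_part' L hL (stp L m).1 (loc L m) h3
      have h10 := mul_le_mul_of_nonneg_left h9 (thet_pos L (stp L m).1).le
      linarith
    · try simp only
      rw [if_neg (by omega)]
    · try simp only
      rw [if_neg hm]
  · -- en_a
    intro m hm he
    obtain ⟨h1, h2, h3⟩ := loc_nend L hL m hm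
    obtain ⟨g1, g2, g3, g4, g5⟩ := loc_end L hL (m + 1) he
    refine ⟨?_, ?_, ?_⟩
    · try simp only
      rw [if_pos he]
    · try simp only
      rw [if_pos he]
    · try simp only
      have g2' : loc L (m + 2) = 0 := g2
      have g3' : ¬ IsEnd L (m + 2) := g3
      rw [if_neg g3', if_pos (by omega)]
  · -- nen_a
    intro m hm he
    obtain ⟨h1, h2, h3⟩ := loc_nend L hL m hm
    try simp only
    rw [if_neg he, if_neg (by omega)]
  · -- μ_zero
    try simp only
    rw [if_neg hen0, if_pos hloc0, hloc0]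
    simp [kap]
  · -- μ_one
    obtain ⟨h1, h2, h3⟩ := loc_nend L hL 0 hen0
    try simp only
    rw [if_neg hen0]
    have h2' : loc L 1 = 1 := by rw [hloc0] at h2; exact h2
    have h1' : stp L 1 = stp L 0 := h1
    rw [if_neg (by omega : ¬ loc L 1 = 0), if_neg (by omega : ¬ loc L 1 = 0), h2', h1', hloc0]
    split_ifs
    · simp [kap]
    · simp [kap]; ring
  · -- μ_rec
    intro m
    try simp only
    by_cases h0 : IsEnd L (m + 1)
    · obtain ⟨h1, h2, h3, h4, h5⟩ := loc_end L hL (m + 1) h0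
      have h2' : loc L (m + 2) = 0 := h2
      have h3' : ¬ IsEnd L (m + 2) := h3
      rw [if_neg h3', if_neg h3', if_neg h3', if_pos h2', if_pos h2',
        if_pos (by omega : loc L (m + 2) ≤ 1), h2']
      simp [kap]
    · obtain ⟨h1, h2, h3⟩ := loc_nend L hL (m + 1) h0
      have h2' : loc L (m + 2) = loc L (m + 1) + 1 := h2
      have h1' : stp L (m + 2) = stp L (m + 1) := h1
      rw [if_neg h0, if_neg (by omega : ¬ loc L (m + 2) = 0),
        if_neg (by omega : ¬ loc L (m + 2) = 0), h2', h1', Nat.add_sub_cancel]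
      by_cases he : IsEnd L (m + 2)
      · rw [if_pos he, if_pos he, if_pos he]
        ring
      · rw [if_neg he, if_neg he, if_neg he]
        by_cases h4 : loc L (m + 1) = 0
        · rw [if_pos (by omega : loc L (m + 1) + 1 ≤ 1), h4]
          simp [kap]; ring
        · have hm := hprev m h4
          obtain ⟨k1, k2, k3⟩ := loc_nend L hL m hm
          rw [if_neg (by omega : ¬ loc L (m + 1) + 1 ≤ 1), if_neg hm, k2, k1]
          have : kap (loc L m + 1 + 1) = 9 / 10 * (kap (loc L m + 1) + kap (loc L m)) := rfl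
          rw [this]
          ring
  · -- μ_mono
    intro m hm he
    obtain ⟨h1, h2, h3⟩ := loc_nend L hL m hm
    try simp only
    rw [if_neg hm, if_neg he, h1, h2]
    have h4 := thet_pos L (stp L m).1
    have h5 := kap_step (loc L m)
    have := mul_le_mul_of_nonneg_left h5 h4.le
    linarith
  · -- bτ
    intro m hm
    try simp only at hm ⊢
    split_ifs with h1
    · exfalso
      apply hm
      split_ifs <;> first | rfl | omega
    · rfl

end Pool.Agent.Lib.MP_dc5a1d_an
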