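import Pool.Agent.Lib.MP_dc5a1d_an.Tools2

/-! Exact version of the bad functionals in the case `ξ (G) → 1`. -/

set_option autoImplicit false

open Filter Topology

namespace Pool.Agent.Lib.MP_dc5a1d_an

variable {X : Type*} [NormedAddCommGroup X] [NormedSpace ℝ X]

/-- a finite subset of the unit ball which norms a finite dimensional space of functionals up to
the factor two -/
lemma norming_finset (U : Submodule ℝ (X →L[ℝ] ℝ)) [FiniteDimensional ℝ U] :
    ∃ s : Finset X, (∀ v ∈ s, ‖v‖ ≤ 1) ∧ ∀ u ∈ U, ∀ a : ℝ, (∀ v ∈ s, |u v| ≤ a) → 0 ≤ a →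
      ‖u‖ ≤ 2 * a := by
  classical
  have hcomp : IsCompact (Metric.closedBall (0 : U) 1) := isCompact_closedBall _ _
  obtain ⟨t, ht, htf, hcov⟩ := hcomp.finite_cover_balls (e := 1 / 8) (by norm_num)
  -- almost norming vectors
  have hv : ∀ u : X →L[ℝ] ℝ, ∃ v : X, ‖v‖ ≤ 1 ∧ ‖u‖ - 1 / 8 ≤ |u v| := by
    intro u
    by_contra hcon
    push Not at hcon
    by_cases hneg : ‖u‖ - 1 / 8 < 0
    · have := hcon 0 (by simp)
      rw [map_zero, abs_zero] at this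
      linarith
    · have : ‖u‖ ≤ ‖u‖ - 1 / 8 := by
        apply ContinuousLinearMap.opNorm_le_bound _ (by linarith)
        intro x
        by_cases hx : x = 0
        · rw [hx]; simp
        have hn : 0 < ‖x‖ := norm_pos_iff.2 hx
        have h1 := hcon ((‖x‖)⁻¹ • x) (by
          rw [norm_smul, norm_inv, norm_norm, inv_mul_cancel₀ hn.ne'])
        rw [map_smul, smul_eq_mul, abs_mul, abs_inv, abs_norm, inv_mul_lt_iff₀ hn] at h1
        rw [Real.norm_eq_abs]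
        linarith
      linarith
  choose v hv1 hv2 using hv
  refine ⟨htf.toFinset.image (fun w : U => v (w : X →L[ℝ] ℝ)), ?_, ?_⟩
  · intro y hy
    rw [Finset.mem_image] at hy
    obtain ⟨w, _, rfl⟩ := hy
    exact hv1 _
  · intro u hu a ha ha0
    by_cases hu0 : u = 0
    · rw [hu0, norm_zero]; linarith
    have hn : 0 < ‖u‖ := norm_pos_iff.2 hu0
    set u' : U := ⟨(‖u‖)⁻¹ • u, U.smul_mem _ hu⟩ with hu'
    have hu'n : ‖(u' : X →L[ℝ] ℝ)‖ = 1 := by
      show ‖(‖u‖)⁻¹ • u‖ = 1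
      rw [norm_smul, norm_inv, norm_norm, inv_mul_cancel₀ hn.ne']
    have hmem : u' ∈ Metric.closedBall (0 : U) 1 := by
      rw [Metric.mem_closedBall, Subtype.dist_eq]
      show dist (u' : X →L[ℝ] ℝ) 0 ≤ 1
      rw [dist_zero_right]; exact hu'n.le
    have := hcov hmem
    simp only [Set.mem_iUnion] at this
    obtain ⟨w, hw, huw⟩ := this
    rw [Metric.mem_ball, Subtype.dist_eq, dist_eq_norm] at huw
    have h1 : ‖(u' : X →L[ℝ] ℝ) - w‖ < 1 / 8 := huw
    have h2 := hv2 (w : X →L[ℝ] ℝ)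
    have h3 := ha (v (w : X →L[ℝ] ℝ)) (by
      rw [Finset.mem_image]; exact ⟨w, htf.mem_toFinset.2 hw, rfl⟩)
    have h4 : |((u' : X →L[ℝ] ℝ) - w) (v w)| ≤ 1 / 8 := by
      have h5 := ((u' : X →L[ℝ] ℝ) - w).le_opNorm (v w)
      rw [Real.norm_eq_abs] at h5
      have h6 := hv1 (w : X →L[ℝ] ℝ)
      have h7 : ‖(u' : X →L[ℝ] ℝ) - w‖ * ‖v (w : X →L[ℝ] ℝ)‖ ≤ 1 / 8 * 1 :=
        mul_le_mul h1.le h6 (norm_nonneg _) (by norm_num)
      linarith
    have h5 : 1 - 1 / 8 ≤ ‖(w : X →L[ℝ] ℝ)‖ := by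
      have := norm_sub_norm_le (u' : X →L[ℝ] ℝ) w
      rw [hu'n] at this
      linarith
    have h6 : |(w : X →L[ℝ] ℝ) (v w)| ≤ |(u' : X →L[ℝ] ℝ) (v w)| + 1 / 8 := by
      have h7 : (w : X →L[ℝ] ℝ) (v w) = (u' : X →L[ℝ] ℝ) (v w) -
          ((u' : X →L[ℝ] ℝ) - w) (v w) := by
        show _ = (u' : X →L[ℝ] ℝ) (v w) - ((u' : X →L[ℝ] ℝ) (v w) - (w : X →L[ℝ] ℝ) (v w))
        ring
      rw [h7]
      have := abs_sub ((u' : X →L[ℝ] ℝ) (v w)) (((u' : X →L[ℝ] ℝ) - w) (v w))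
      linarith
    have h7 : |(u' : X →L[ℝ] ℝ) (v w)| = (‖u‖)⁻¹ * |u (v w)| := by
      show |((‖u‖)⁻¹ • u) (v w)| = _
      rw [ContinuousLinearMap.smul_apply, smul_eq_mul, abs_mul, abs_inv, abs_norm]
    have h8 : (1 : ℝ) / 2 ≤ (‖u‖)⁻¹ * |u (v w)| := by
      rw [← h7]; linarith
    rw [inv_mul_eq_div, le_div_iff₀ hn] at h8
    linarith

/-- functionals bounded by `a` on a finite intersection of kernels are within `a` of the span -/
lemma near_span {ι : Type*} [Fintype ι] (L : ι → X →L[ℝ] ℝ) (P : X →L[ℝ] ℝ) (a : ℝ) (ha : 0 ≤ a)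
    (h : ∀ z : X, (∀ i, L i z = 0) → |P z| ≤ a * ‖z‖) :
    ∃ K : X →L[ℝ] ℝ, ‖K‖ ≤ a ∧ P - K ∈ Submodule.span ℝ (Set.range L) := by
  classical
  let W : Submodule ℝ X := ⨅ i, LinearMap.ker (L i : X →ₗ[ℝ] ℝ)
  have hW : ∀ z : X, z ∈ W ↔ ∀ i, L i z = 0 := by
    intro z
    simp only [W, Submodule.mem_iInf, LinearMap.mem_ker]
    rfl
  let PW : W →L[ℝ] ℝ := P.comp W.subtypeL
  have hPW : ‖PW‖ ≤ a := by
    apply ContinuousLinearMap.opNorm_le_bound _ ha
    intro z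
    exact h z ((hW z).1 z.2)
  obtain ⟨K, hK1, hK2⟩ := exists_extension_norm_eq W PW
  refine ⟨K, by rw [hK2]; exact hPW, ?_⟩
  have hker : ⨅ i, LinearMap.ker (L i : X →ₗ[ℝ] ℝ) ≤
      LinearMap.ker ((P - K : X →L[ℝ] ℝ) : X →ₗ[ℝ] ℝ) := by
    intro z hz
    rw [LinearMap.mem_ker]
    show P z - K z = 0
    have h1 := hK1 ⟨z, hz⟩
    have h2 : PW ⟨z, hz⟩ = P z := rfl
    have h3 : K z = P z := by rw [← h2, ← h1]
    rw [h3, sub_self]
  have hmem := mem_span_of_iInf_ker_le_ker hker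
  rw [Submodule.mem_span_range_iff_exists_fun] at hmem ⊢
  obtain ⟨c, hc⟩ := hmem
  refine ⟨c, ?_⟩
  ext z
  have h1 := LinearMap.congr_fun hc z
  simpa using h1

/-- the bad functionals, exact version -/
lemma exact_CI (F : X →L[ℝ] ℝ) (ξ : (X →L[ℝ] ℝ) →L[ℝ] ℝ) (hξ : ‖ξ‖ ≤ 1)
    (hξF : ξ F = 1) (ε : ℝ) (hε : 0 < ε)
    (hbad : ∀ (s : Finset X) (η : ℝ), 0 < η → ∃ G : X →L[ℝ] ℝ, ‖G‖ ≤ 1 ∧
      (∀ x ∈ s, |G x - F x| < η) ∧ 1 - η < ξ G ∧ ε ≤ ‖G - F‖)
    (s : Finset X) (HH : Finset (X →L[ℝ] ℝ)) (η : ℝ) (hη : 0 < η) :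
    ∃ (G : X →L[ℝ] ℝ) (z : X), (∀ x ∈ s, G x = F x) ∧ ξ G = 1 ∧ ‖G‖ ≤ 1 + η ∧ ‖z‖ ≤ 1 ∧
      F z = 0 ∧ (∀ H ∈ HH, H z = 0) ∧ G z = ε / 8 := by
  classical
  let L : Option HH → X →L[ℝ] ℝ := fun o => o.elim F (fun H => (H : X →L[ℝ] ℝ))
  let U : Submodule ℝ (X →L[ℝ] ℝ) := Submodule.span ℝ (Set.range L)
  have : FiniteDimensional ℝ U := FiniteDimensional.span_of_finite ℝ (Set.finite_range L)
  obtain ⟨sU, hsU1, hsU2⟩ := norming_finset U
  let w : Option s → ((X →L[ℝ] ℝ) →L[ℝ] ℝ) :=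
    fun o => o.elim ξ (fun v => NormedSpace.inclusionInDoubleDual ℝ X (v : X))
  obtain ⟨C, hC, hcor⟩ := correction w
  set η' : ℝ := min (ε / 8) (min (η / C) (ε / 24 / C)) with hη'
  have hη'pos : 0 < η' := by
    rw [hη']; exact lt_min (by positivity) (lt_min (by positivity) (by positivity))
  have hη'1 : η' ≤ ε / 8 := min_le_left _ _
  have hη'2 : C * η' ≤ η := by
    have : η' ≤ η / C := (min_le_right _ _).trans (min_le_left _ _)
    rw [le_div_iff₀ hC] at this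
    linarith
  have hη'3 : C * η' ≤ ε / 24 := by
    have : η' ≤ ε / 24 / C := (min_le_right _ _).trans (min_le_right _ _)
    rw [le_div_iff₀ hC] at this
    linarith
  obtain ⟨G, hG1, hG2, hG3, hG4⟩ := hbad (s ∪ sU) η' hη'pos
  -- slope
  obtain ⟨z, hz1, hz2, hz3⟩ : ∃ z : X, ‖z‖ ≤ 1 ∧ (∀ i, L i z = 0) ∧ ε / 6 ≤ (G - F) z := by
    by_contra hcon
    push Not at hcon
    have hb : ∀ z : X, (∀ i, L i z = 0) → |(G - F) z| ≤ ε / 6 * ‖z‖ := by
      intro z hz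
      by_cases hz0 : z = 0
      · rw [hz0]; simp
      have hn : 0 < ‖z‖ := norm_pos_iff.2 hz0
      have h1 := hcon ((‖z‖)⁻¹ • z) (by
        rw [norm_smul, norm_inv, norm_norm, inv_mul_cancel₀ hn.ne'])
        (by intro i; rw [map_smul, hz i, smul_zero])
      have h2 := hcon (-((‖z‖)⁻¹ • z)) (by
        rw [norm_neg, norm_smul, norm_inv, norm_norm, inv_mul_cancel₀ hn.ne'])
        (by intro i; rw [map_neg, map_smul, hz i, smul_zero, neg_zero])
      rw [map_smul, smul_eq_mul, inv_mul_lt_iff₀ hn] at h1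
      rw [map_neg, map_smul, smul_eq_mul, neg_lt, ← neg_lt, ← mul_neg, inv_mul_lt_iff₀ hn] at h2
      rw [abs_le]
      constructor <;> linarith
    obtain ⟨K, hK1, hK2⟩ := near_span L (G - F) (ε / 6) (by positivity) hb
    have h1 := hsU2 (G - F - K) hK2 (η' + ε / 6) (by
      intro v hv
      have h2 := hG2 v (Finset.mem_union_right _ hv)
      have h3 : |K v| ≤ ε / 6 := by
        have := K.le_opNorm v
        rw [Real.norm_eq_abs] at this
        have h4 := hsU1 v hv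
        have h5 : ‖K‖ * ‖v‖ ≤ ε / 6 * 1 := mul_le_mul hK1 h4 (norm_nonneg _) (by positivity)
        linarith
      have h4 : (G - F - K) v = (G v - F v) - K v := rfl
      rw [h4]
      have := abs_sub (G v - F v) (K v)
      linarith) (by positivity)
    have h2 : ‖G - F‖ ≤ ‖G - F - K‖ + ‖K‖ := by
      have := norm_add_le (G - F - K) K
      rwa [sub_add_cancel] at this
    linarith
  have hFz : F z = 0 := hz2 none
  have hHz : ∀ H ∈ HH, H z = 0 := fun H hH => hz2 (some ⟨H, hH⟩)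
  -- correction
  obtain ⟨H, hH1, hH2⟩ := hcor (F - G) η' hη'pos.le (by
    intro o
    cases o with
    | none =>
      show |ξ (F - G)| ≤ η'
      rw [map_sub, hξF, abs_le]
      have h1 : ξ G ≤ 1 := by
        have := (le_abs_self _).trans (ξ.le_opNorm G)
        have h2 : ‖ξ‖ * ‖G‖ ≤ 1 * 1 := mul_le_mul hξ hG1 (norm_nonneg _) zero_le_one
        linarith
      constructor <;> linarith
    | some v =>
      show |NormedSpace.inclusionInDoubleDual ℝ X (v : X) (F - G)| ≤ η'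
      rw [NormedSpace.dual_def]
      have h1 := hG2 v (Finset.mem_union_left _ v.2)
      have h2 : (F - G) (v : X) = -(G v - F v) := by
        show F v - G v = _
        ring
      rw [h2, abs_neg]
      exact h1.le)
  set G' := G + H with hG'
  have hG'z : ε / 8 ≤ G' z := by
    have h1 : |H z| ≤ ε / 24 := by
      have := H.le_opNorm z
      rw [Real.norm_eq_abs] at this
      have h5 : ‖H‖ * ‖z‖ ≤ C * η' * 1 := mul_le_mul hH2 hz1 (norm_nonneg _) (by positivity)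
      linarith
    have h2 : (G - F) z = G z := by
      show G z - F z = G z
      rw [hFz, sub_zero]
    rw [h2] at hz3
    show ε / 8 ≤ G z + H z
    have := (abs_le.1 h1).1
    linarith
  have hG'pos : 0 < G' z := by linarith [show (0 : ℝ) < ε / 8 by positivity]
  refine ⟨G', (ε / 8 / G' z) • z, ?_, ?_, ?_, ?_, ?_, ?_, ?_⟩
  · intro x hx
    have h1 := hH1 (some ⟨x, hx⟩)
    have h2 : H x = (F - G) x := h1
    show G x + H x = F x
    rw [h2]
    show G x + (F x - G x) = F x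
    ring
  · have h1 : ξ H = ξ (F - G) := hH1 none
    rw [hG', map_add, h1, map_sub, hξF]
    ring
  · calc ‖G'‖ ≤ ‖G‖ + ‖H‖ := norm_add_le _ _
      _ ≤ 1 + η := by linarith
  · rw [norm_smul, Real.norm_of_nonneg (by positivity)]
    have : ε / 8 / G' z ≤ 1 := by rw [div_le_one hG'pos]; exact hG'z
    calc ε / 8 / G' z * ‖z‖ ≤ 1 * 1 := mul_le_mul this hz1 (norm_nonneg _) zero_le_one
      _ = 1 := one_mul 1
  · rw [map_smul, hFz, smul_zero]
  · intro K hK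
    rw [map_smul, hHz K hK, smul_zero]
  · rw [map_smul, smul_eq_mul, div_mul_cancel₀ _ hG'pos.ne']

end Pool.Agent.Lib.MP_dc5a1d_an
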