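import Pool.Agent.Lib.MP_dc5a1d_an.ChainAlg
import Pool.Agent.Lib.MP_dc5a1d_an.ExactCI

/-! The recursive construction of the chain. -/

set_option autoImplicit false

open Filter Topology

namespace Pool.Agent.Lib.MP_dc5a1d_an

variable {X : Type*} [NormedAddCommGroup X] [NormedSpace ℝ X]

/-- the data chosen in a step -/
abbrev CStep (X : Type*) [NormedAddCommGroup X] [NormedSpace ℝ X] := X × (X →L[ℝ] ℝ) × X

/-- the vectors `x` from the history -/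
def hx (x0 : X) (h : ℕ → CStep X) : ℕ → X
  | 0 => x0
  | (j + 1) => (h j).1

/-- the functionals `G` from the history -/
def hG (h : ℕ → CStep X) (j : ℕ) : X →L[ℝ] ℝ := (h j).2.1

/-- the vectors `z` from the history -/
def hz (h : ℕ → CStep X) (j : ℕ) : X := (h j).2.2

/-- the chosen functional from the history -/
noncomputable def hE {q : ℝ} (S : Sched q) (x0 : X) (h : ℕ → CStep X) (m : ℕ) : X →L[ℝ] ℝ :=
  EE (x0 + hz h 0) (Sp (ph S (hx x0 h) (hz h)) m)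

lemma Sp_congr' (φ φ' : ℕ → X) (m : ℕ) (h : ∀ i < m, φ i = φ' i) : Sp φ m = Sp φ' m := by
  unfold Sp
  congr 1
  ext x
  constructor
  · rintro ⟨j, hj, rfl⟩; exact ⟨j, hj, h j hj⟩
  · rintro ⟨j, hj, rfl⟩; exact ⟨j, hj, (h j hj).symm⟩

lemma hx_congr (x0 : X) (h h' : ℕ → CStep X) (n : ℕ) (hh : ∀ i < n, h i = h' i) (j : ℕ)
    (hj : j ≤ n) : hx x0 h j = hx x0 h' j := by
  match j with
  | 0 => rfl
  | (j + 1) =>
    simp only [hx]
    rw [hh j (by omega)]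

lemma hE_congr {q : ℝ} (S : Sched q) (x0 : X) (h h' : ℕ → CStep X) (n : ℕ)
    (hh : ∀ i < n, h i = h' i) (m : ℕ) (hm : m < n) : hE S x0 h m = hE S x0 h' m := by
  unfold hE
  have h0 : hz h 0 = hz h' 0 := by
    unfold hz
    rw [hh 0 (by omega)]
  have hk : ∀ j, j < m → kk (hz h) j = kk (hz h') j := by
    intro j hj
    unfold kk hz
    rw [hh j (by omega), hh (j + 1) (by omega)]
  have h1 : Sp (ph S (hx x0 h) (hz h)) m = Sp (ph S (hx x0 h') (hz h')) m := by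
    apply Sp_congr'
    intro i hi
    unfold ph ww
    rw [hk i hi, hk (i - 1) (by omega), hk (i - 2) (by omega)]
    have hN := S.N_le i
    have hB := S.B_le i
    rw [hx_congr x0 h h' n hh (S.N i) (by omega), hx_congr x0 h h' n hh (S.B i) (by omega)]
  rw [h0, h1]

/-- the constraints of step `n` -/
def CP {q : ℝ} (S : Sched q) (F : X →L[ℝ] ℝ) (ξ : (X →L[ℝ] ℝ) →L[ℝ] ℝ) (Δ : ℝ) (K η : ℕ → ℝ)
    (x0 : X) (n : ℕ) (h : ℕ → CStep X) (a : CStep X) : Prop :=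
  (F a.1 = 1 ∧ ‖a.1‖ ≤ 1 + K (n + 1) ∧ (∀ i < n, hG h i a.1 = 1) ∧ a.2.1 a.1 = 1) ∧
  (‖a.2.1‖ ≤ 1 + η n ∧ ξ a.2.1 = 1 ∧ (∀ j ≤ n, a.2.1 (hx x0 h j) = 1) ∧
    ∀ j < n, a.2.1 (hz h j) = 0) ∧
  (‖a.2.2‖ ≤ 1 ∧ F a.2.2 = 0 ∧ (∀ i < n, hG h i a.2.2 = 0) ∧ a.2.1 a.2.2 = Δ ∧
    ∀ m < n, hE S x0 h m a.2.2 = 0)

lemma CP_congr {q : ℝ} (S : Sched q) (F : X →L[ℝ] ℝ) (ξ : (X →L[ℝ] ℝ) →L[ℝ] ℝ) (Δ : ℝ)
    (K η : ℕ → ℝ) (x0 : X) (n : ℕ) (h h' : ℕ → CStep X) (a : CStep X)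
    (hh : ∀ i < n, h i = h' i) (hP : CP S F ξ Δ K η x0 n h a) : CP S F ξ Δ K η x0 n h' a := by
  obtain ⟨⟨h1, h2, h3, h4⟩, ⟨h5, h6, h7, h8⟩, ⟨h9, h10, h11, h12, h13⟩⟩ := hP
  have hGc : ∀ i < n, hG h i = hG h' i := by
    intro i hi
    unfold hG
    rw [hh i hi]
  have hzc : ∀ i < n, hz h i = hz h' i := by
    intro i hi
    unfold hz
    rw [hh i hi]
  refine ⟨⟨h1, h2, ?_, h4⟩, ⟨h5, h6, ?_, ?_⟩, ⟨h9, h10, ?_, h12, ?_⟩⟩
  · intro i hi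
    rw [← hGc i hi]
    exact h3 i hi
  · intro j hj
    rw [← hx_congr x0 h h' n hh j hj]
    exact h7 j hj
  · intro j hj
    rw [← hzc j hj]
    exact h8 j hj
  · intro i hi
    rw [← hGc i hi]
    exact h11 i hi
  · intro m hm
    rw [← hE_congr S x0 h h' n hh m hm]
    exact h13 m hm

lemma CP_exists {q : ℝ} (S : Sched q) (F : X →L[ℝ] ℝ) (ξ : (X →L[ℝ] ℝ) →L[ℝ] ℝ)
    (hξ : ‖ξ‖ ≤ 1) (hξF : ξ F = 1) (ε : ℝ) (hε : 0 < ε)
    (hbad : ∀ (s : Finset X) (η : ℝ), 0 < η → ∃ G : X →L[ℝ] ℝ, ‖G‖ ≤ 1 ∧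
      (∀ x ∈ s, |G x - F x| < η) ∧ 1 - η < ξ G ∧ ε ≤ ‖G - F‖)
    (K η : ℕ → ℝ) (hK : ∀ n, 0 < K n) (hη : ∀ n, 0 < η n) (x0 : X) (hx0 : F x0 = 1) (n : ℕ)
    (h : ℕ → CStep X) (hh : ∀ m < n, CP S F ξ (ε / 8) K η x0 m h (h m)) :
    ∃ a, CP S F ξ (ε / 8) K η x0 n h a := by
  classical
  obtain ⟨G, z, hG1, hG2, hG3, hz1, hz2, hz3, hz4⟩ := exact_CI F ξ hξ hξF ε hε hbad
    ((Finset.range (n + 1)).image (hx x0 h) ∪ (Finset.range n).image (hz h))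
    ((Finset.range n).image (hG h) ∪ (Finset.range n).image (hE S x0 h)) (η n) (hη n)
  obtain ⟨x, hx1, hx2⟩ := helly ξ hξ ({F, G} ∪ (Finset.range n).image (hG h)) (K (n + 1))
    (hK (n + 1))
  have hFx : ∀ j ≤ n, F (hx x0 h j) = 1 := by
    intro j hj
    match j with
    | 0 => exact hx0
    | (j + 1) => exact (hh j (by omega)).1.1
  refine ⟨(x, G, z), ⟨?_, hx1, ?_, ?_⟩, ⟨hG3, hG2, ?_, ?_⟩, ⟨hz1, hz2, ?_, hz4, ?_⟩⟩
  · show F x = 1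
    rw [hx2 F (by simp), hξF]
  · intro i hi
    show hG h i x = 1
    rw [hx2 (hG h i) (by
      apply Finset.mem_union_right
      exact Finset.mem_image_of_mem _ (Finset.mem_range.2 hi))]
    exact (hh i hi).2.1.2.1
  · show G x = 1
    rw [hx2 G (by simp), hG2]
  · intro j hj
    show G (hx x0 h j) = 1
    rw [hG1 _ (by
      apply Finset.mem_union_left
      exact Finset.mem_image_of_mem _ (Finset.mem_range.2 (by omega)))]
    exact hFx j hj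
  · intro j hj
    show G (hz h j) = 0
    rw [hG1 _ (by
      apply Finset.mem_union_right
      exact Finset.mem_image_of_mem _ (Finset.mem_range.2 hj))]
    exact (hh j hj).2.2.2.1
  · intro i hi
    exact hz3 _ (by
      apply Finset.mem_union_left
      exact Finset.mem_image_of_mem _ (Finset.mem_range.2 hi))
  · intro m hm
    exact hz3 _ (by
      apply Finset.mem_union_right
      exact Finset.mem_image_of_mem _ (Finset.mem_range.2 hm))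

/-- the sequences of the chain -/
structure ChainData {q : ℝ} (S : Sched q) (F : X →L[ℝ] ℝ) (Δ : ℝ) (K η : ℕ → ℝ)
    (x z : ℕ → X) (G E : ℕ → X →L[ℝ] ℝ) : Prop where
  Fx : ∀ j, F (x j) = 1
  nx : ∀ j, ‖x j‖ ≤ 1 + K j
  Gx : ∀ i j, G i (x j) = 1
  nG : ∀ i, ‖G i‖ ≤ 1 + η i
  Gz : ∀ i, G i (z i) = Δ
  Gz' : ∀ i j, i ≠ j → G i (z j) = 0
  Fz : ∀ j, F (z j) = 0
  nz : ∀ j, ‖z j‖ ≤ 1
  E_eq : ∀ m, E m = EE (x 0 + z 0) (Sp (ph S x z) m)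
  Ez : ∀ m n, m < n → E m (z n) = 0

theorem exists_chain {q : ℝ} (S : Sched q) (F : X →L[ℝ] ℝ) (ξ : (X →L[ℝ] ℝ) →L[ℝ] ℝ)
    (hξ : ‖ξ‖ ≤ 1) (hξF : ξ F = 1) (ε : ℝ) (hε : 0 < ε)
    (hbad : ∀ (s : Finset X) (η : ℝ), 0 < η → ∃ G : X →L[ℝ] ℝ, ‖G‖ ≤ 1 ∧
      (∀ x ∈ s, |G x - F x| < η) ∧ 1 - η < ξ G ∧ ε ≤ ‖G - F‖)
    (K η : ℕ → ℝ) (hK : ∀ n, 0 < K n) (hη : ∀ n, 0 < η n) :
    ∃ (x z : ℕ → X) (G E : ℕ → X →L[ℝ] ℝ), ChainData S F (ε / 8) K η x z G E := by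
  obtain ⟨x0, hx0n, hx0⟩ := helly ξ hξ {F} (K 0) (hK 0)
  have hx0F : F x0 = 1 := by rw [hx0 F (by simp), hξF]
  have hinh : Inhabited (CStep X) := ⟨(0, 0, 0)⟩
  obtain ⟨h, hh⟩ := exists_seq_of_step (α := CStep X) (CP S F ξ (ε / 8) K η x0)
    (fun n f g a hfg hP => CP_congr S F ξ (ε / 8) K η x0 n f g a hfg hP)
    (fun n f hf => CP_exists S F ξ hξ hξF ε hε hbad K η hK hη x0 hx0F n f hf)
  refine ⟨hx x0 h, hz h, hG h, hE S x0 h, ?_⟩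
  constructor
  · intro j
    match j with
    | 0 => exact hx0F
    | (j + 1) => exact (hh j).1.1
  · intro j
    match j with
    | 0 => exact hx0n
    | (j + 1) => exact (hh j).1.2.1
  · intro i j
    by_cases hij : j ≤ i
    · exact (hh i).2.1.2.2.1 j hij
    · match j with
      | 0 => exact absurd (Nat.zero_le i) hij
      | (j + 1) =>
        by_cases h2 : i = j
        · rw [h2]
          exact (hh j).1.2.2.2
        · exact (hh j).1.2.2.1 i (by omega)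
  · intro i
    exact (hh i).2.1.1
  · intro i
    exact (hh i).2.2.2.2.2.1
  · intro i j hij
    rcases lt_or_gt_of_ne hij with h1 | h1
    · exact (hh j).2.2.2.2.1 i h1
    · exact (hh i).2.1.2.2.2 j h1
  · intro j
    exact (hh j).2.2.2.1
  · intro j
    exact (hh j).2.2.1
  · intro m
    rfl
  · intro m n hmn
    exact (hh n).2.2.2.2.2.2 m hmn

end Pool.Agent.Lib.MP_dc5a1d_an
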