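import Mathlib

/-! Definitions for MP_dc5a1d_an: the weak Chebyshev greedy algorithm in a real normed space. -/

set_option autoImplicit false

namespace Pool.Agent.Lib.MP_dc5a1d_an

variable {X : Type*} [NormedAddCommGroup X] [NormedSpace ℝ X]

/-- a dictionary: elements of norm one with dense linear span -/
def IsDictionary (D : Set X) : Prop :=
  (∀ g ∈ D, ‖g‖ = 1) ∧ Dense (Submodule.span ℝ D : Set X)

/-- `F` is a norming functional of `h` -/
def IsNorming (F : X →L[ℝ] ℝ) (h : X) : Prop := ‖F‖ = 1 ∧ F h = ‖h‖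

/-- `G` is a best approximation of `f` from the subspace `V` -/
def IsBestApprox (f G : X) (V : Submodule ℝ X) : Prop := G ∈ V ∧ ∀ u ∈ V, ‖f - G‖ ≤ ‖f - u‖

/-- a realization of WCGA(t) for `f` and the dictionary `D`: `φ m` is the element chosen in step
`m + 1`, `G m` is the approximant after `m` steps; if the residual vanishes the run stops, which we
encode by repeating the approximant forever. -/
structure IsRun (t : ℝ) (D : Set X) (f : X) (φ : ℕ → X) (G : ℕ → X) : Prop where
  zero : G 0 = 0
  stop : ∀ m, f - G m = 0 → G (m + 1) = G m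
  step : ∀ m, f - G m ≠ 0 → ∃ F : X →L[ℝ] ℝ, IsNorming F (f - G m) ∧ φ m ∈ D ∧
    (∀ g ∈ D, t * |F g| ≤ |F (φ m)|) ∧
    IsBestApprox f (G (m + 1)) (Submodule.span ℝ {x | ∃ j ≤ m, x = φ j})

variable (X)

/-- WCGA(t) converges for every dictionary, every element and every realization -/
def Converges (t : ℝ) : Prop :=
  ∀ D : Set X, IsDictionary D → ∀ f : X, ∀ φ G : ℕ → X, IsRun t D f φ G →
    Filter.Tendsto (fun m => ‖f - G m‖) Filter.atTop (nhds 0)

/-- smooth: every nonzero element has a unique norming functional -/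
def Smooth : Prop :=
  ∀ x : X, x ≠ 0 → ∀ F G : X →L[ℝ] ℝ, IsNorming F x → IsNorming G x → F = G

/-- the weak* topology and the norm topology coincide on the unit sphere of the dual -/
def DualKadecKlee : Prop :=
  ∀ F : X →L[ℝ] ℝ, ‖F‖ = 1 → ∀ ε : ℝ, 0 < ε → ∃ (s : Finset X) (η : ℝ), 0 < η ∧
    ∀ G : X →L[ℝ] ℝ, ‖G‖ = 1 → (∀ x ∈ s, |G x - F x| < η) → ‖G - F‖ < ε

/-- the norm is Frechet differentiable at every nonzero point -/
def FrechetNorm : Prop := ∀ x : X, x ≠ 0 → DifferentiableAt ℝ (fun y : X => ‖y‖) x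

/-- reflexive: the canonical embedding into the bidual is onto -/
def Reflexive : Prop := Function.Surjective (NormedSpace.inclusionInDoubleDual ℝ X)

end Pool.Agent.Lib.MP_dc5a1d_an
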