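import Pool.Agent.Lib.MP_dc5a1d_an.NotF2

/-! The dictionary and the diverging run at a point without Frechet differentiability. -/

set_option autoImplicit false

open Filter Topology

namespace Pool.Agent.Lib.MP_dc5a1d_an

variable {X : Type*} [NormedAddCommGroup X] [NormedSpace ℝ X]

/-- prescribed norms -/
noncomputable def NN (j : ℕ) : ℝ := 2 - (1 / 2) ^ j

lemma NN_zero : NN 0 = 1 := by unfold NN; norm_num
lemma NN_ge (j : ℕ) : 1 ≤ NN j := by
  unfold NN
  have : (1 / 2 : ℝ) ^ j ≤ 1 := pow_le_one₀ (by norm_num) (by norm_num)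
  linarith
lemma NN_le (j : ℕ) : NN j ≤ 2 := by
  unfold NN
  have : 0 < (1 / 2 : ℝ) ^ j := by positivity
  linarith
lemma NN_mono {i j : ℕ} (h : i ≤ j) : NN i ≤ NN j := by
  unfold NN
  have : (1 / 2 : ℝ) ^ j ≤ (1 / 2) ^ i := pow_le_pow_of_le_one (by norm_num) (by norm_num) h
  linarith

/-- the ratio of prescribed norms beats the loss in the estimates -/
lemma NN_ratio {i j : ℕ} (h : i < j) : (1 + xi i) * NN i ≤ (1 - 3 * xi i) * NN j := by
  have h1 : NN (i + 1) ≤ NN j := NN_mono h
  have hx := xi_pos i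
  have hx2 := xi_le i
  have h2 : NN (i + 1) = NN i + 16 * xi i := by
    unfold NN xi
    rw [pow_succ, pow_add]; ring
  have h3 := NN_le i
  have h4 : (1 + xi i) * NN i ≤ (1 - 3 * xi i) * NN (i + 1) := by
    rw [h2]; nlinarith
  have h5 : (1 - 3 * xi i) * NN (i + 1) ≤ (1 - 3 * xi i) * NN j := by
    apply mul_le_mul_of_nonneg_left h1; linarith
  linarith

/-- intermediate value: adding a multiple of a unit vector to reach a prescribed norm -/
lemma exists_K (v w : X) (hv : ‖v‖ ≤ 1) (hw : ‖w‖ = 1) (N : ℝ) (hN : 1 ≤ N) (c : ℝ) :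
    ∃ K : ℝ, ‖v + K • w‖ = N ∧ K * c ≤ 0 := by
  obtain ⟨σ, hσ, hσ2⟩ := exists_sign c
  have hcont : ContinuousOn (fun K : ℝ => ‖v + K • (-σ • w)‖) (Set.Icc 0 (N + 1)) :=
    (continuous_const.add (continuous_id.smul continuous_const)).norm.continuousOn
  have h0 : ‖v + (0 : ℝ) • (-σ • w)‖ ≤ N := by rw [zero_smul, add_zero]; linarith
  have h1 : N ≤ ‖v + (N + 1) • (-σ • w)‖ := by
    have e := norm_sub_norm_le ((N + 1) • (-σ • w)) (-v)
    rw [norm_neg, sub_neg_eq_add, norm_smul, norm_smul, norm_neg, Real.norm_eq_abs,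
      Real.norm_eq_abs, hσ, hw, abs_of_pos (by linarith), add_comm _ v] at e
    linarith
  obtain ⟨K, hK, hK2⟩ := intermediate_value_Icc (by linarith : (0 : ℝ) ≤ N + 1) hcont ⟨h0, h1⟩
  refine ⟨K * -σ, ?_, ?_⟩
  · rw [← smul_smul]; exact hK2
  · have : K * -σ * c = -(K * |c|) := by rw [← hσ2]; ring
    rw [this]
    have := hK.1
    have := abs_nonneg c
    have : 0 ≤ K * |c| := by positivity
    linarith

/-- a run of WCGA(t) is a run of WCGA(t') for smaller t' -/
lemma converges_mono {t t' : ℝ} (h : t' ≤ t) (hc : Converges X t') : Converges X t := by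
  intro D hD f φ G hr
  apply hc D hD f φ G
  refine ⟨hr.zero, hr.stop, ?_⟩
  intro m hm
  obtain ⟨F, h1, h2, h3, h4⟩ := hr.step m hm
  refine ⟨F, h1, h2, ?_, h4⟩
  intro g hg
  have h5 := h3 g hg
  have h6 : t' * |F g| ≤ t * |F g| := mul_le_mul_of_nonneg_right h (abs_nonneg _)
  linarith

variable {x0 : X} {F0 H0 : X →L[ℝ] ℝ} {Δ : ℝ} {s η : ℕ → ℝ} {z : ℕ → X} {g : ℕ → X →L[ℝ] ℝ}

theorem diff_of_converges_aux [CompleteSpace X] (hS : Smooth X) (h : Dat2 x0 F0 H0 Δ s η z g) :
    ¬ Converges X 1 := by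
  intro hconv
  obtain ⟨f, hf⟩ := ps_lim h
  have hFf := F0_f h hf
  have hΔ := h.Δ_pos
  have hΔ1 := h.Δ_le
  have hf0 : f ≠ 0 := by intro h0; rw [h0, map_zero] at hFf; norm_num at hFf
  obtain ⟨E0, hE0⟩ := exists_norming f hf0
  -- prescribed norms
  have hKe : ∀ j : ℕ, ∃ K : ℝ, ‖z j + K • z 0‖ = NN j ∧ K * E0 (z j) ≤ 0 ∧ (j = 0 → K = 0) := by
    intro j
    by_cases hj : j = 0
    · subst hj
      refine ⟨0, ?_, by simp, fun _ => rfl⟩
      rw [zero_smul, add_zero, h.z_norm, NN_zero]
    · obtain ⟨K, h1, h2⟩ := exists_K (z j) (z 0) (h.z_norm j).le (h.z_norm 0) (NN j) (NN_ge j)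
        (E0 (z j))
      exact ⟨K, h1, h2, fun h0 => absurd h0 hj⟩
  choose K hK1 hK2 hK3 using hKe
  have hNp : ∀ j, 0 < NN j := fun j => lt_of_lt_of_le one_pos (NN_ge j)
  set φ : ℕ → X := fun j => (NN j)⁻¹ • (z j + K j • z 0) with hφ
  have hφ0 : φ 0 = z 0 := by
    show (NN 0)⁻¹ • (z 0 + K 0 • z 0) = z 0
    rw [hK3 0 rfl, zero_smul, add_zero, NN_zero, inv_one, one_smul]
  have hφn : ∀ j, ‖φ j‖ = 1 := by
    intro j
    show ‖(NN j)⁻¹ • (z j + K j • z 0)‖ = 1
    rw [norm_smul, hK1, norm_inv, Real.norm_of_nonneg (hNp j).le, inv_mul_cancel₀ (hNp j).ne']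
  have hzφ : ∀ j, z j = NN j • φ j - K j • z 0 := by
    intro j
    show z j = NN j • ((NN j)⁻¹ • (z j + K j • z 0)) - K j • z 0
    rw [smul_smul, mul_inv_cancel₀ (hNp j).ne', one_smul]; abel
  -- spans agree
  have hSp : ∀ m, Sp φ m = Sp z m := by
    intro m
    apply le_antisymm
    · unfold Sp
      rw [Submodule.span_le]
      rintro x ⟨j, hj, rfl⟩
      show (NN j)⁻¹ • (z j + K j • z 0) ∈ _
      apply Submodule.smul_mem
      apply Submodule.add_mem
      · exact Submodule.subset_span ⟨j, hj, rfl⟩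
      · exact Submodule.smul_mem _ _ (Submodule.subset_span ⟨0, by omega, rfl⟩)
    · unfold Sp
      rw [Submodule.span_le]
      rintro x ⟨j, hj, rfl⟩
      rw [SetLike.mem_coe, hzφ j]
      apply Submodule.sub_mem
      · exact Submodule.smul_mem _ _ (Submodule.subset_span ⟨j, hj, rfl⟩)
      · apply Submodule.smul_mem
        rw [← hφ0]
        exact Submodule.subset_span ⟨0, by omega, rfl⟩
  have hF : ∀ m, ∀ u ∈ Sp z m, F0 u = 0 := by
    intro m u hu
    have : Sp z m ≤ LinearMap.ker (F0 : X →ₗ[ℝ] ℝ) := by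
      unfold Sp
      rw [Submodule.span_le]
      rintro x ⟨j, _, rfl⟩
      exact h.Fz j
    exact this hu
  -- best approximations and functionals
  choose G hG using fun m => exists_best (Sp z m) f
  have hres : ∀ m, 1 ≤ ‖f - G m‖ := by
    intro m
    have := (le_abs_self _).trans (h.F0n.abs_le (f - G m))
    rwa [map_sub, hF m _ (hG m).1, hFf, sub_zero] at this
  have hne : ∀ m, f - G m ≠ 0 := by
    intro m h0
    have := hres m
    rw [h0, norm_zero] at this
    linarith
  have hG0 : G 0 = 0 := by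
    have := (hG 0).1
    rw [Sp_zero] at this
    exact (Submodule.mem_bot ℝ).1 this
  have hest : ∀ m, ∀ E : X →L[ℝ] ℝ, IsNorming E (f - G m) → 1 - η m ≤ E x0 ∧
      (1 - 3 * xi m) * Δ ≤ E (z m) ∧ ∀ u ∈ Sp z m, E u = 0 := by
    intro m E hE
    have hEΦ := smooth_annih hS _ f (G m) (hG m) (hne m) E hE
    obtain ⟨h1, h2⟩ := Eest2 h hf m (G m) (hG m) E hE hEΦ
    exact ⟨h1, h2, hEΦ⟩
  have hE0' : IsNorming E0 (f - G 0) := by rw [hG0, sub_zero]; exact hE0
  obtain ⟨e01, e02, _⟩ := hest 0 E0 hE0'
  have hx0p := xi_pos 0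
  have hx0l := xi_le 0
  have hE0z : 0 < E0 (z 0) := by
    have : 0 < (1 - 3 * xi 0) * Δ := by nlinarith
    linarith
  -- the dictionary
  set ε := Δ / 4 with hε
  have hεp : 0 < ε := by positivity
  set D : Set X := {y | ∃ j, y = φ j} ∪ {y | ∃ k : X, H0 k = 0 ∧ ‖k‖ ≤ 1 ∧ E0 k ≤ 0 ∧
    y = (‖z 0 + ε • k‖)⁻¹ • (z 0 + ε • k)} with hD
  have hH0z : H0 (z 0) = 1 := by rw [h.H0n.2, h.z_norm]
  have hden : ∀ k : X, H0 k = 0 → 1 ≤ ‖z 0 + ε • k‖ := by
    intro k hk
    have := (le_abs_self _).trans (h.H0n.abs_le (z 0 + ε • k))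
    rwa [map_add, map_smul, hk, smul_zero, add_zero, hH0z] at this
  have hdict : IsDictionary D := by
    constructor
    · rintro y (⟨j, rfl⟩ | ⟨k, hk, _, _, rfl⟩)
      · exact hφn j
      · have := hden k hk
        rw [norm_smul, norm_inv, norm_norm, inv_mul_cancel₀ (by linarith)]
    · have hz0D : z 0 ∈ Submodule.span ℝ D := by
        rw [← hφ0]; exact Submodule.subset_span (Or.inl ⟨0, rfl⟩)
      have hsmall : ∀ k : X, H0 k = 0 → ‖k‖ ≤ 1 → E0 k ≤ 0 → k ∈ Submodule.span ℝ D := by
        intro k hk1 hk2 hk3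
        have hd := hden k hk1
        have h1 : (‖z 0 + ε • k‖)⁻¹ • (z 0 + ε • k) ∈ Submodule.span ℝ D :=
          Submodule.subset_span (Or.inr ⟨k, hk1, hk2, hk3, rfl⟩)
        have h2 : z 0 + ε • k ∈ Submodule.span ℝ D := by
          have := Submodule.smul_mem _ ‖z 0 + ε • k‖ h1
          rwa [smul_smul, mul_inv_cancel₀ (by linarith), one_smul] at this
        have h3 : ε • k ∈ Submodule.span ℝ D := by
          have := Submodule.sub_mem _ h2 hz0D
          rwa [add_sub_cancel_left] at this
        have := Submodule.smul_mem _ ε⁻¹ h3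
        rwa [smul_smul, inv_mul_cancel₀ hεp.ne', one_smul] at this
      have hsmall2 : ∀ k : X, H0 k = 0 → ‖k‖ ≤ 1 → k ∈ Submodule.span ℝ D := by
        intro k hk1 hk2
        rcases le_total (E0 k) 0 with hk | hk
        · exact hsmall k hk1 hk2 hk
        · have := hsmall (-k) (by rw [map_neg, hk1, neg_zero]) (by rwa [norm_neg])
            (by rw [map_neg]; linarith)
          simpa using Submodule.neg_mem _ this
      have hker : ∀ k : X, H0 k = 0 → k ∈ Submodule.span ℝ D := by
        intro k hk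
        by_cases hk0 : k = 0
        · rw [hk0]; exact Submodule.zero_mem _
        · have hn : ‖k‖ ≠ 0 := norm_ne_zero_iff.2 hk0
          have : k = ‖k‖ • ((‖k‖)⁻¹ • k) := by rw [smul_smul, mul_inv_cancel₀ hn, one_smul]
          rw [this]
          apply Submodule.smul_mem
          apply hsmall2
          · rw [map_smul, hk, smul_zero]
          · rw [norm_smul, norm_inv, norm_norm, inv_mul_cancel₀ hn]
      have : Submodule.span ℝ D = ⊤ := by
        rw [eq_top_iff]
        intro y _
        have e : y = H0 y • z 0 + (y - H0 y • z 0) := by abel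
        rw [e]
        apply Submodule.add_mem
        · exact Submodule.smul_mem _ _ hz0D
        · apply hker
          rw [map_sub, map_smul, hH0z, smul_eq_mul, mul_one, sub_self]
      rw [this]
      exact dense_univ
  -- maximality of the picks
  have hmax : ∀ m, ∀ E : X →L[ℝ] ℝ, IsNorming E (f - G m) → ∀ y ∈ D, 1 * |E y| ≤ |E (φ m)| := by
    intro m E hE y hy
    rw [one_mul]
    obtain ⟨h1, h2, h3⟩ := hest m E hE
    have hxm := xi_pos m
    have hxm2 := xi_le m
    have hEzm : 0 < E (z m) := by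
      have : 0 < (1 - 3 * xi m) * Δ := by nlinarith
      linarith
    by_cases hm : m = 0
    · subst hm
      have hEE : E = E0 := by
        apply hS _ (hne 0) E E0 hE hE0'
      subst hEE
      rw [hφ0, abs_of_pos hEzm]
      rcases hy with ⟨j, rfl⟩ | ⟨k, hk1, hk2, hk3, rfl⟩
      · by_cases hj : j = 0
        · subst hj; rw [hφ0, abs_of_pos hEzm]
        · have hjp : 0 < j := Nat.pos_of_ne_zero hj
          have hKj : |K j| ≤ NN j := by
            have := h.H0n.abs_le (z j + K j • z 0)
            rw [map_add, map_smul, h.Hz j hjp, hH0z, hK1, smul_eq_mul, mul_one, zero_add] at this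
            exact this
          have hzj := h.z_bound 0 j (Nat.zero_le _) E hE.1.le h1
          have hr := NN_ratio hjp
          rw [NN_zero, mul_one] at hr
          have hzj2 : |E (z j)| ≤ NN j * E (z 0) := by
            have a1 : (1 + xi 0) * Δ ≤ (1 - 3 * xi 0) * NN j * Δ := by nlinarith
            have a2 : (1 - 3 * xi 0) * NN j * Δ ≤ NN j * E (z 0) := by
              have := hNp j
              nlinarith
            linarith
          show |E ((NN j)⁻¹ • (z j + K j • z 0))| ≤ _
          rw [map_smul, smul_eq_mul, abs_mul, abs_inv, abs_of_pos (hNp j), inv_mul_le_iff₀ (hNp j),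
            map_add, map_smul, smul_eq_mul]
          have hsgn := hK2 j
          have b1 := (abs_le.1 hzj2)
          have b2 := (abs_le.1 hKj)
          have b3 : K j * E (z 0) ≤ NN j * E (z 0) := mul_le_mul_of_nonneg_right b2.2 hEzm.le
          have b4 : -(NN j) * E (z 0) ≤ K j * E (z 0) := mul_le_mul_of_nonneg_right b2.1 hEzm.le
          rw [abs_le]
          rcases le_total (K j) 0 with hk | hk
          · -- then E (z j) ≥ 0 or K j = 0
            rcases eq_or_lt_of_le hk with hk0 | hk0
            · rw [hk0, zero_mul, add_zero]; constructor <;> linarith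
            · have : 0 ≤ E (z j) := by
                by_contra hc
                push Not at hc
                nlinarith
              have : K j * E (z 0) ≤ 0 := by nlinarith
              constructor <;> linarith
          · rcases eq_or_lt_of_le hk with hk0 | hk0
            · rw [← hk0, zero_mul, add_zero]; constructor <;> linarith
            · have : E (z j) ≤ 0 := by
                by_contra hc
                push Not at hc
                nlinarith
              have : 0 ≤ K j * E (z 0) := by positivity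
              constructor <;> linarith
      · have hd := hden k hk1
        have hdp : 0 < ‖z 0 + ε • k‖ := by linarith
        rw [map_smul, smul_eq_mul, abs_mul, abs_inv, abs_norm, inv_mul_le_iff₀ hdp, map_add,
          map_smul, smul_eq_mul]
        have hEk := (abs_le.1 (hE.abs_le k)).1
        have a1 : 0 ≤ E (z 0) + ε * E k := by
          have : ε * (-‖k‖) ≤ ε * E k := mul_le_mul_of_nonneg_left hEk hεp.le
          have : ε * (-1) ≤ ε * (-‖k‖) := mul_le_mul_of_nonneg_left (by linarith) hεp.le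
          have : (1 - 3 * xi 0) * Δ ≥ Δ / 4 := by nlinarith
          linarith
        rw [abs_of_nonneg a1]
        have a2 : ε * E k ≤ 0 := by nlinarith
        nlinarith
    · -- m ≥ 1
      have hmp : 0 < m := Nat.pos_of_ne_zero hm
      have hEz0 : E (z 0) = 0 := h3 _ (mem_Sp z hmp)
      have hEφ : ∀ j, E (φ j) = (NN j)⁻¹ * E (z j) := by
        intro j
        show E ((NN j)⁻¹ • (z j + K j • z 0)) = _
        rw [map_smul, smul_eq_mul, map_add, map_smul, hEz0]; simp
      rw [hEφ m, abs_mul, abs_inv, abs_of_pos (hNp m), abs_of_pos hEzm]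
      rcases hy with ⟨j, rfl⟩ | ⟨k, hk1, hk2, hk3, rfl⟩
      · rw [hEφ j, abs_mul, abs_inv, abs_of_pos (hNp j)]
        rcases lt_trichotomy j m with hj | hj | hj
        · rw [h3 _ (mem_Sp z hj), abs_zero, mul_zero]
          have := hNp m
          positivity
        · rw [hj, abs_of_pos hEzm]
        · have hzj := h.z_bound m j hj.le E hE.1.le h1
          have hr := NN_ratio hj
          rw [inv_mul_le_iff₀ (hNp j)]
          have e : NN j * ((NN m)⁻¹ * E (z m)) = (NN m)⁻¹ * (NN j * E (z m)) := by ring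
          rw [e, le_inv_mul_iff₀ (hNp m)]
          have a1 : NN m * |E (z j)| ≤ NN m * ((1 + xi m) * Δ) :=
            mul_le_mul_of_nonneg_left hzj (hNp m).le
          have a2 : NN j * ((1 - 3 * xi m) * Δ) ≤ NN j * E (z m) :=
            mul_le_mul_of_nonneg_left h2 (hNp j).le
          nlinarith
      · have hd := hden k hk1
        have hdp : 0 < ‖z 0 + ε • k‖ := by linarith
        rw [map_smul, smul_eq_mul, abs_mul, abs_inv, abs_norm, map_add, map_smul, hEz0, zero_add,
          smul_eq_mul, abs_mul, abs_of_pos hεp]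
        have hEk := hE.abs_le k
        have a1 : (‖z 0 + ε • k‖)⁻¹ * (ε * |E k|) ≤ ε := by
          rw [inv_mul_le_iff₀ hdp]
          have := abs_nonneg (E k)
          nlinarith
        have a2 : ε ≤ (NN m)⁻¹ * E (z m) := by
          rw [le_inv_mul_iff₀ (hNp m)]
          have := NN_le m
          have : (1 - 3 * xi m) * Δ ≥ Δ / 2 := by nlinarith
          nlinarith
        linarith
  have hrun : IsRun 1 D f φ G := by
    refine ⟨hG0, fun m h0 => absurd h0 (hne m), ?_⟩
    intro m _
    obtain ⟨E, hE⟩ := exists_norming (f - G m) (hne m)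
    refine ⟨E, hE, Or.inl ⟨m, rfl⟩, hmax m E hE, ?_⟩
    rw [Sp_succ, hSp]
    exact hG (m + 1)
  have hlim := hconv D hdict f φ G hrun
  have h0 : (1 : ℝ) ≤ 0 := ge_of_tendsto' hlim hres
  linarith

/-- convergence of WCGA(t) for all dictionaries forces Frechet differentiability of the norm -/
theorem frechet_of_converges [CompleteSpace X] {t : ℝ} (ht1 : t ≤ 1) (h : Converges X t) :
    FrechetNorm X := by
  have h1 := converges_mono ht1 h
  have hS : Smooth X := smooth_of_converges le_rfl h1
  apply diff_of_sphere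
  intro x0 hx0
  by_contra hnd
  have hx00 : x0 ≠ 0 := by intro h; rw [h, norm_zero] at hx0; norm_num at hx0
  obtain ⟨F0, hF0⟩ := exists_norming x0 hx00
  obtain ⟨H0, Δ, s, η, z, g, hD⟩ := exists_Dat2 hS hx0 hF0 hnd
  exact diff_of_converges_aux hS hD h1

/-- reflexive spaces -/
theorem reflexive_iff [CompleteSpace X] (hR : Reflexive X) {t : ℝ} (ht : 0 < t) (ht1 : t ≤ 1) :
    Converges X t ↔ FrechetNorm X := by
  constructor
  · exact frechet_of_converges ht1
  · intro h
    exact suff (smooth_of_frechet h) (kk_of_reflexive hR h) t ht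

end Pool.Agent.Lib.MP_dc5a1d_an
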