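import Pool.Agent.Lib.MP_dc5a1d_an.CaseOne
import Pool.Agent.Lib.MP_dc5a1d_an.CaseTwo
import Pool.Agent.Lib.MP_dc5a1d_an.NotF3

/-! The characterisation for every single weakness parameter. -/

set_option autoImplicit false

open Filter Topology

namespace Pool.Agent.Lib.MP_dc5a1d_an

variable {X : Type*} [NormedAddCommGroup X] [NormedSpace ℝ X]

/-- convergence of WCGA(t) for one `t` and all dictionaries forces the Kadec-Klee property of the
dual sphere -/
theorem kk_of_converges [CompleteSpace X] {t : ℝ} (ht1 : t ≤ 1) (h : Converges X t) :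
    DualKadecKlee X := by
  classical
  have h1 := converges_mono ht1 h
  have hFr : FrechetNorm X := frechet_of_converges ht1 h
  by_contra hK
  unfold DualKadecKlee at hK
  push Not at hK
  obtain ⟨F, hF, ε, hε, hbad⟩ := hK
  obtain ⟨ξ, hξ1, hξ2⟩ := exists_dual_vector ℝ (F : StrongDual ℝ X) (by
    show ‖F‖ ≠ 0
    rw [hF]; norm_num)
  have hξF : ξ F = 1 := by
    rw [hξ2]
    simp [hF]
  by_cases hCI : ∀ (s : Finset X) (η : ℝ), 0 < η → ∃ G : X →L[ℝ] ℝ, ‖G‖ ≤ 1 ∧
      (∀ x ∈ s, |G x - F x| < η) ∧ 1 - η < ξ G ∧ ε ≤ ‖G - F‖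
  · obtain ⟨f, y, Y, R, d, E, a1, a2, a3, a4, a5, a6, a7, a8, a9⟩ :=
      case_one F hF ξ hξ1.le hξF ε hε hCI
    exact assemble f y Y R d E a1 (fun m _ => a2 m) a3 a4 a5 a6 a7 a8 a9 h1
  · push Not at hCI
    obtain ⟨s0, η0, hη0, hs0⟩ := hCI
    refine Two.case_two hFr F hF ξ hξ1.le hξF η0 hη0 ?_ h1
    intro s η hη
    obtain ⟨G, hG1, hG2, hG3⟩ := hbad (s ∪ s0) (min η η0) (lt_min hη hη0)
    refine ⟨G, hG1.le, ?_, ?_⟩
    · intro x hx
      exact lt_of_lt_of_le (hG2 x (Finset.mem_union_left _ hx)) (min_le_left _ _)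
    · by_contra hc
      push Not at hc
      have := hs0 G hG1.le (fun x hx =>
        lt_of_lt_of_le (hG2 x (Finset.mem_union_right _ hx)) (min_le_right _ _)) hc
      linarith

/-- the characterisation of the Banach spaces in which WCGA(t) always converges -/
theorem main_iff [CompleteSpace X] {t : ℝ} (ht : 0 < t) (ht1 : t ≤ 1) :
    Converges X t ↔ Smooth X ∧ DualKadecKlee X := by
  constructor
  · intro h
    exact ⟨smooth_of_converges ht1 h, kk_of_converges ht1 h⟩
  · rintro ⟨hS, hK⟩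
    exact suff hS hK t ht

end Pool.Agent.Lib.MP_dc5a1d_an
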