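import Pool.Agent.Lib.MP_dc5a1d_an.Basic

/-! Convergence for all dictionaries forces smoothness. Frechet norms; Smulian. -/

set_option autoImplicit false

open Filter Topology

namespace Pool.Agent.Lib.MP_dc5a1d_an

variable {X : Type*} [NormedAddCommGroup X] [NormedSpace ℝ X]

/-- a vector on which two norming functionals have opposite signs -/
lemma exists_opposite {x : X} (hx : x ≠ 0) {F1 F2 : X →L[ℝ] ℝ} (h1 : IsNorming F1 x)
    (h2 : IsNorming F2 x) (hne : F1 ≠ F2) : ∃ g : X, ‖g‖ = 1 ∧ 0 < F1 g ∧ F2 g < 0 := by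
  obtain ⟨v, hv⟩ : ∃ v, F1 v ≠ F2 v := by
    by_contra hcon
    push Not at hcon
    exact hne (ContinuousLinearMap.ext hcon)
  obtain ⟨w, hw⟩ : ∃ w, F2 w < F1 w := by
    rcases lt_or_gt_of_ne hv with h | h
    · exact ⟨-v, by simpa using h⟩
    · exact ⟨v, h⟩
  have hxn : 0 < ‖x‖ := norm_pos_iff.2 hx
  set g0 := w - ((F1 w + F2 w) / (2 * ‖x‖)) • x with hg0
  have e1 : F1 g0 = (F1 w - F2 w) / 2 := by
    rw [hg0, map_sub, map_smul, h1.2, smul_eq_mul]; field_simp; ring
  have e2 : F2 g0 = -((F1 w - F2 w) / 2) := by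
    rw [hg0, map_sub, map_smul, h2.2, smul_eq_mul]; field_simp; ring
  have hg0n : g0 ≠ 0 := by
    intro h; rw [h, map_zero] at e1; linarith
  have hn : 0 < ‖g0‖ := norm_pos_iff.2 hg0n
  refine ⟨(‖g0‖)⁻¹ • g0, ?_, ?_, ?_⟩
  · rw [norm_smul, norm_inv, norm_norm, inv_mul_cancel₀ hn.ne']
  · rw [map_smul, e1, smul_eq_mul]
    have : 0 < (F1 w - F2 w) / 2 := by linarith
    positivity
  · rw [map_smul, e2, smul_eq_mul, mul_neg, neg_lt_zero]
    have : 0 < (F1 w - F2 w) / 2 := by linarith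
    positivity

theorem smooth_of_converges {t : ℝ} (ht1 : t ≤ 1) (h : Converges X t) : Smooth X := by
  intro x hx F1 F2 h1 h2
  by_contra hne
  obtain ⟨g, hg, hg1, hg2⟩ := exists_opposite hx h1 h2 hne
  set D : Set X := {h | ‖h‖ = 1 ∧ |F1 h| ≤ F1 g} with hD
  have hgD : g ∈ D := ⟨hg, by rw [abs_of_pos hg1]⟩
  have hker : ∀ k : X, F1 k = 0 → k ∈ Submodule.span ℝ D := by
    intro k hk
    by_cases hk0 : k = 0
    · rw [hk0]; exact Submodule.zero_mem _
    · have hn : ‖k‖ ≠ 0 := norm_ne_zero_iff.2 hk0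
      have : k = ‖k‖ • ((‖k‖)⁻¹ • k) := by rw [smul_smul, mul_inv_cancel₀ hn, one_smul]
      rw [this]
      apply Submodule.smul_mem
      apply Submodule.subset_span
      refine ⟨?_, ?_⟩
      · rw [norm_smul, norm_inv, norm_norm, inv_mul_cancel₀ hn]
      · rw [map_smul, hk, smul_zero, abs_zero]; exact hg1.le
  have hdict : IsDictionary D := by
    refine ⟨fun h hh => hh.1, ?_⟩
    have : Submodule.span ℝ D = ⊤ := by
      rw [eq_top_iff]
      intro y _
      have e : y = (F1 y / F1 g) • g + (y - (F1 y / F1 g) • g) := by abel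
      rw [e]
      apply Submodule.add_mem
      · exact Submodule.smul_mem _ _ (Submodule.subset_span hgD)
      · apply hker
        rw [map_sub, map_smul, smul_eq_mul, div_mul_cancel₀ _ hg1.ne', sub_self]
    rw [this]
    exact dense_univ
  have hbest : ∀ V : Submodule ℝ X, V ≤ Submodule.span ℝ {g} → IsBestApprox x 0 V := by
    intro V hV
    refine ⟨Submodule.zero_mem _, ?_⟩
    intro u hu
    obtain ⟨c, rfl⟩ := Submodule.mem_span_singleton.1 (hV hu)
    rw [sub_zero]
    rcases le_total c 0 with hc | hc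
    · have := (le_abs_self _).trans (h1.abs_le (x - c • g))
      rw [map_sub, map_smul, h1.2, smul_eq_mul] at this
      nlinarith
    · have := (le_abs_self _).trans (h2.abs_le (x - c • g))
      rw [map_sub, map_smul, h2.2, smul_eq_mul] at this
      nlinarith
  have hrun : IsRun t D x (fun _ => g) (fun _ => 0) := by
    refine ⟨rfl, fun _ _ => rfl, ?_⟩
    intro m _
    refine ⟨F1, by rw [sub_zero]; exact h1, hgD, ?_, ?_⟩
    · intro h hh
      have h3 : |F1 h| ≤ F1 g := hh.2
      have h4 := abs_nonneg (F1 h)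
      rw [abs_of_pos hg1]
      nlinarith
    · apply hbest
      apply Submodule.span_mono
      rintro y ⟨j, _, rfl⟩
      rfl
  have hlim := h D hdict x _ _ hrun
  simp only [sub_zero] at hlim
  have := tendsto_nhds_unique hlim tendsto_const_nhds
  exact hx (norm_eq_zero.1 this.symm)

/-- a Frechet differentiable norm is smooth, and the derivative is the norming functional -/
lemma fderiv_norm_eq {x : X} (hd : DifferentiableAt ℝ (fun y : X => ‖y‖) x) {F : X →L[ℝ] ℝ}
    (hF : IsNorming F x) : fderiv ℝ (fun y : X => ‖y‖) x = F := by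
  have hmin : IsLocalMin (fun y : X => ‖y‖ - F y) x := by
    apply Filter.Eventually.of_forall
    intro y
    simp only
    rw [hF.2, sub_self]
    have := (le_abs_self _).trans (hF.abs_le y)
    linarith
  have h0 := hmin.fderiv_eq_zero
  have h1 : fderiv ℝ (fun y : X => ‖y‖ - F y) x = fderiv ℝ (fun y : X => ‖y‖) x - F := by
    rw [fderiv_fun_sub hd F.differentiableAt, ContinuousLinearMap.fderiv]
  rw [h1] at h0
  exact sub_eq_zero.1 h0

lemma smooth_of_frechet (h : FrechetNorm X) : Smooth X := by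
  intro x hx F G hF hG
  rw [← fderiv_norm_eq (h x hx) hF, fderiv_norm_eq (h x hx) hG]

/-- Smulian: at a point of Frechet differentiability nearly norming functionals are close to the
norming functional -/
lemma smulian {x : X} (hx : ‖x‖ = 1) (hd : DifferentiableAt ℝ (fun y : X => ‖y‖) x) {F : X →L[ℝ] ℝ}
    (hF : IsNorming F x) (ε : ℝ) (hε : 0 < ε) : ∃ η > 0, ∀ G : X →L[ℝ] ℝ, ‖G‖ ≤ 1 → 1 - η < G x →
      ‖G - F‖ < ε := by
  have hder : HasFDerivAt (fun y : X => ‖y‖) F x := by
    have := hd.hasFDerivAt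
    rwa [fderiv_norm_eq hd hF] at this
  rw [hasFDerivAt_iff_isLittleO_nhds_zero] at hder
  have h1 := hder.def (c := ε / 4) (by positivity)
  rw [Metric.eventually_nhds_iff] at h1
  obtain ⟨ρ, hρ, hρ2⟩ := h1
  refine ⟨ρ / 2 * (ε / 4), by positivity, ?_⟩
  intro G hG hGx
  have key : ∀ h : X, ‖h‖ ≤ ρ / 2 → (G - F) h ≤ ρ / 2 * (ε / 2) := by
    intro h hh
    have h2 := hρ2 (y := h) (by rw [dist_zero_right]; linarith)
    rw [hx, Real.norm_eq_abs] at h2
    have h3 := (abs_le.1 h2).2
    have h4 := (le_abs_self _).trans (abs_le_of_norm hG (x + h))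
    rw [map_add] at h4
    show G h - F h ≤ _
    have : ε / 4 * ‖h‖ ≤ ρ / 2 * (ε / 4) := by nlinarith
    nlinarith
  have hb : ‖G - F‖ ≤ ε / 2 := by
    apply ContinuousLinearMap.opNorm_le_bound _ (by positivity)
    intro h
    by_cases hh : h = 0
    · rw [hh]; simp
    have hn : 0 < ‖h‖ := norm_pos_iff.2 hh
    have hk1 := key ((ρ / 2 / ‖h‖) • h) (by
      rw [norm_smul, Real.norm_of_nonneg (by positivity)]; field_simp; exact le_refl _)
    have hk2 := key (-((ρ / 2 / ‖h‖) • h)) (by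
      rw [norm_neg, norm_smul, Real.norm_of_nonneg (by positivity)]; field_simp; exact le_refl _)
    rw [map_smul, smul_eq_mul] at hk1
    rw [map_neg, map_smul, smul_eq_mul] at hk2
    have hp : 0 < ρ / 2 / ‖h‖ := by positivity
    have e : ρ / 2 * (ε / 2) = ρ / 2 / ‖h‖ * (ε / 2 * ‖h‖) := by field_simp
    rw [e] at hk1 hk2
    rw [Real.norm_eq_abs, abs_le]
    constructor
    · have : ρ / 2 / ‖h‖ * (-((G - F) h)) ≤ ρ / 2 / ‖h‖ * (ε / 2 * ‖h‖) := by linarith
      have := le_of_mul_le_mul_left this hp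
      linarith
    · exact le_of_mul_le_mul_left hk1 hp
  linarith

/-- in a reflexive space with Frechet differentiable norm the dual sphere has the Kadec-Klee
property -/
lemma kk_of_reflexive (hR : Reflexive X) (h : FrechetNorm X) : DualKadecKlee X := by
  intro F hF ε hε
  obtain ⟨ξ, hξ1, hξ2⟩ := exists_dual_vector ℝ (F : StrongDual ℝ X) (by
    show ‖F‖ ≠ 0
    rw [hF]; norm_num)
  obtain ⟨x, hx⟩ := hR ξ
  have hFx : F x = 1 := by
    have : NormedSpace.inclusionInDoubleDual ℝ X x F = F x := NormedSpace.dual_def ℝ X x F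
    rw [hx, hξ2] at this
    rw [← this]
    simp [hF]
  have hxn : ‖x‖ = 1 := by
    have h1 : ‖x‖ ≤ 1 := by
      have := NormedSpace.inclusionInDoubleDualLi (𝕜 := ℝ) (E := X) |>.norm_map x
      have h2 : ‖NormedSpace.inclusionInDoubleDual ℝ X x‖ = ‖x‖ := this
      rw [hx, hξ1] at h2
      exact h2.symm.le
    have h2 := (le_abs_self _).trans (abs_le_of_norm hF.le x)
    rw [hFx] at h2
    linarith
  have hx0 : x ≠ 0 := by
    intro h0; rw [h0, norm_zero] at hxn; norm_num at hxn
  obtain ⟨η, hη, hη2⟩ := smulian hxn (h x hx0) ⟨hF, by rw [hFx, hxn]⟩ ε hε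
  refine ⟨{x}, η, hη, ?_⟩
  intro G hG hGx
  apply hη2 G hG.le
  have := hGx x (Finset.mem_singleton_self x)
  rw [hFx] at this
  linarith [(abs_lt.1 this).1]

end Pool.Agent.Lib.MP_dc5a1d_an
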