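import Pool.Agent.Lib.MP_dc5a1d_an.Tools
import Pool.Agent.Lib.MP_dc5a1d_an.Nonsmooth

/-! Points where the norm is not Frechet differentiable. -/

set_option autoImplicit false

open Filter Topology

namespace Pool.Agent.Lib.MP_dc5a1d_an

variable {X : Type*} [NormedAddCommGroup X] [NormedSpace ℝ X]

/-- differentiability of the norm can be tested on the unit sphere -/
lemma diff_of_sphere (h : ∀ x : X, ‖x‖ = 1 → DifferentiableAt ℝ (fun y : X => ‖y‖) x) :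
    FrechetNorm X := by
  intro x hx
  have hn : ‖x‖ ≠ 0 := norm_ne_zero_iff.2 hx
  have h1 := h ((‖x‖)⁻¹ • x) (by rw [norm_smul, norm_inv, norm_norm, inv_mul_cancel₀ hn])
  have h2 : DifferentiableAt ℝ (fun y : X => ‖(‖x‖)⁻¹ • y‖) x :=
    DifferentiableAt.comp x (f := fun y : X => (‖x‖)⁻¹ • y) h1 (differentiableAt_id.const_smul _)
  have h3 : DifferentiableAt ℝ (fun y : X => ‖x‖ * ‖(‖x‖)⁻¹ • y‖) x := h2.const_mul _
  have e : (fun y : X => ‖x‖ * ‖(‖x‖)⁻¹ • y‖) = fun y => ‖y‖ := by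
    funext y
    rw [norm_smul, norm_inv, norm_norm, ← mul_assoc, mul_inv_cancel₀ hn, one_mul]
  rwa [e] at h3

/-- at a point without Frechet differentiability there are almost norming functionals far from the
norming functional -/
lemma far_of_not_diff {x0 : X} (hx0 : ‖x0‖ = 1) {F0 : X →L[ℝ] ℝ} (hF0 : IsNorming F0 x0)
    (hnd : ¬ DifferentiableAt ℝ (fun y : X => ‖y‖) x0) :
    ∃ δ > 0, ∀ η > 0, ∃ G : X →L[ℝ] ℝ, ‖G‖ ≤ 1 ∧ 1 - η ≤ G x0 ∧ δ ≤ ‖G - F0‖ := by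
  by_contra hcon
  push Not at hcon
  apply hnd
  have : HasFDerivAt (fun y : X => ‖y‖) F0 x0 := by
    rw [hasFDerivAt_iff_isLittleO_nhds_zero, Asymptotics.isLittleO_iff]
    intro c hc
    obtain ⟨η, hη, h⟩ := hcon c hc
    have hev : ∀ᶠ y : X in 𝓝 0, ‖y‖ < min (1 / 2) (η / 2) := by
      have : Metric.ball (0 : X) (min (1 / 2) (η / 2)) ∈ 𝓝 (0 : X) :=
        Metric.ball_mem_nhds _ (lt_min (by norm_num) (by linarith))
      filter_upwards [this] with y hy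
      simpa using hy
    filter_upwards [hev] with y hy
    have hy1 : ‖y‖ < 1 / 2 := lt_of_lt_of_le hy (min_le_left _ _)
    have hy2 : ‖y‖ < η / 2 := lt_of_lt_of_le hy (min_le_right _ _)
    have hne : x0 + y ≠ 0 := by
      intro h0
      have : x0 = -y := by rw [eq_neg_iff_add_eq_zero]; exact h0
      rw [this, norm_neg] at hx0
      linarith
    obtain ⟨G, hG⟩ := exists_norming (x0 + y) hne
    have hG1 := hG.2
    rw [map_add] at hG1
    have hl : 1 - ‖y‖ ≤ ‖x0 + y‖ := by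
      have := norm_sub_norm_le x0 (-y)
      rw [norm_neg, sub_neg_eq_add, hx0] at this
      exact this
    have hGy := (abs_le.1 (hG.abs_le y)).2
    have hG2 := h G hG.1.le (by linarith)
    have hGx := (le_abs_self _).trans (hG.abs_le x0)
    have hFl := (le_abs_self _).trans (hF0.abs_le (x0 + y))
    rw [map_add, hF0.2] at hFl
    have hbd := (G - F0).le_opNorm y
    have e1 : (G - F0) y = G y - F0 y := rfl
    rw [e1, Real.norm_eq_abs] at hbd
    rw [hx0] at hFl hGx ⊢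
    rw [Real.norm_eq_abs, abs_le]
    have h3 : ‖G - F0‖ * ‖y‖ ≤ c * ‖y‖ := mul_le_mul_of_nonneg_right hG2.le (norm_nonneg _)
    have h4 := (abs_le.1 hbd).2
    have h5 : 0 ≤ c * ‖y‖ := by positivity
    constructor <;> linarith
  exact this.differentiableAt

/-- almost norming functionals converge weak* to the norming functional of a smooth point -/
lemma near_finset (hS : Smooth X) {x0 : X} (hx0 : ‖x0‖ = 1) {F0 : X →L[ℝ] ℝ}
    (hF0 : IsNorming F0 x0) (s : Finset X) (η : ℝ) (hη : 0 < η) :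
    ∃ η' > 0, ∀ G : X →L[ℝ] ℝ, ‖G‖ ≤ 1 → 1 - η' ≤ G x0 → ∀ x ∈ s, |G x - F0 x| < η := by
  by_contra hcon
  push Not at hcon
  choose G hG1 hG2 x hxs hx using fun n : ℕ => hcon (1 / ((n : ℝ) + 1)) (by positivity)
  obtain ⟨F, hF1, hF⟩ := exists_ultralim (Filter.hyperfilter ℕ) G hG1
  have hle : (Filter.hyperfilter ℕ : Filter ℕ) ≤ atTop := by
    rw [← Nat.cofinite_eq_atTop]; exact Filter.hyperfilter_le_cofinite
  have h1 : Tendsto (fun n : ℕ => 1 - 1 / ((n : ℝ) + 1)) (Filter.hyperfilter ℕ) (𝓝 (1 - 0)) :=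
    (tendsto_const_nhds.sub tendsto_one_div_add_atTop_nhds_zero_nat).mono_left hle
  rw [sub_zero] at h1
  have h2 : 1 ≤ F x0 := le_of_tendsto_of_tendsto' h1 (hF x0) hG2
  have h3 := (le_abs_self _).trans (abs_le_of_norm hF1 x0)
  rw [hx0] at h3
  have hFn : IsNorming F x0 := by
    refine ⟨le_antisymm hF1 ?_, by rw [hx0]; linarith⟩
    have := F.le_opNorm x0
    rw [hx0, mul_one, Real.norm_eq_abs] at this
    have h4 := le_abs_self (F x0)
    linarith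
  have hx00 : x0 ≠ 0 := by intro h; rw [h, norm_zero] at hx0; norm_num at hx0
  have heq := hS x0 hx00 F F0 hFn hF0
  subst heq
  have hev : ∀ᶠ n in (Filter.hyperfilter ℕ : Filter ℕ), ∀ y ∈ s, |G n y - F y| < η := by
    rw [Filter.eventually_all_finset]
    intro y _
    have := (hF y).eventually (Metric.ball_mem_nhds _ hη)
    filter_upwards [this] with m hm
    simpa [Real.dist_eq] using hm
  obtain ⟨n, hn⟩ := hev.exists
  have := hn (x n) (hxs n)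
  linarith [hx n]

lemma near_control (hS : Smooth X) {x0 : X} (hx0 : ‖x0‖ = 1) {F0 : X →L[ℝ] ℝ}
    (hF0 : IsNorming F0 x0) (V : Submodule ℝ X) [FiniteDimensional ℝ V] (τ : ℝ) (hτ : 0 < τ) :
    ∃ η' > 0, ∀ G : X →L[ℝ] ℝ, ‖G‖ ≤ 1 → 1 - η' ≤ G x0 → ∀ u ∈ V, |G u - F0 u| ≤ τ * ‖u‖ := by
  obtain ⟨s, η, hη, hs⟩ := finite_control V τ hτ
  obtain ⟨η', hη', h⟩ := near_finset hS hx0 hF0 s η hη
  refine ⟨η', hη', ?_⟩
  intro G hG1 hG2 u hu
  apply hs (G - F0) _ _ u hu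
  · calc ‖G - F0‖ ≤ ‖G‖ + ‖F0‖ := norm_sub_le _ _
      _ ≤ 2 := by rw [hF0.1]; linarith
  · intro x hx; exact h G hG1 hG2 x hx

/-- the common kernel -/
def WS (F0 : X →L[ℝ] ℝ) (S : Finset (X →L[ℝ] ℝ)) : Submodule ℝ X :=
  LinearMap.ker (F0 : X →ₗ[ℝ] ℝ) ⊓ LinearMap.ker (LinearMap.pi fun ψ : S => (ψ.1 : X →ₗ[ℝ] ℝ))

lemma mem_WS (F0 : X →L[ℝ] ℝ) (S : Finset (X →L[ℝ] ℝ)) (z : X) : z ∈ WS F0 S ↔
    F0 z = 0 ∧ ∀ ψ ∈ S, ψ z = 0 := by
  unfold WS
  rw [Submodule.mem_inf, LinearMap.mem_ker, LinearMap.mem_ker]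
  constructor
  · rintro ⟨h1, h2⟩
    refine ⟨h1, fun ψ hψ => ?_⟩
    exact congrFun h2 ⟨ψ, hψ⟩
  · rintro ⟨h1, h2⟩
    refine ⟨h1, ?_⟩
    funext ψ
    exact h2 ψ.1 ψ.2

/-- every element of the ball is, up to a small error, a member of a fixed finite set plus an
element of a given subspace of finite codimension -/
lemma finite_lift (W : Submodule ℝ X) [FiniteDimensional ℝ (X ⧸ W)] [hW : IsClosed (W : Set X)]
    (ε : ℝ) (hε : 0 < ε) : ∃ s : Finset X, (∀ v ∈ s, ‖v‖ ≤ 1 + ε) ∧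
      ∀ h : X, ‖h‖ ≤ 1 → ∃ v ∈ s, ∃ w ∈ W, ‖h - v - w‖ ≤ ε := by
  classical
  have hcomp : IsCompact (Metric.closedBall (0 : X ⧸ W) 1) := isCompact_closedBall _ _
  obtain ⟨t, ht, htf, hcov⟩ := hcomp.finite_cover_balls (e := ε) hε
  have hlift : ∀ q : X ⧸ W, ∃ v : X, (Submodule.Quotient.mk v : X ⧸ W) = q ∧ ‖v‖ < ‖q‖ + ε := by
    intro q
    obtain ⟨v, hv1, hv2⟩ := (QuotientAddGroup.norm_lt_iff (S := W.toAddSubgroup) (x := q)
      (r := ‖q‖ + ε)).1 (lt_add_of_pos_right _ hε)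
    exact ⟨v, hv1, hv2⟩
  choose l hl1 hl2 using hlift
  refine ⟨htf.toFinset.image l, ?_, ?_⟩
  · intro v hv
    obtain ⟨q, hq, rfl⟩ := Finset.mem_image.1 hv
    have h1 := ht (htf.mem_toFinset.1 hq)
    rw [Metric.mem_closedBall, dist_zero_right] at h1
    have := hl2 q
    linarith
  · intro h hh
    have hq : (Submodule.Quotient.mk h : X ⧸ W) ∈ Metric.closedBall (0 : X ⧸ W) 1 := by
      rw [Metric.mem_closedBall, dist_zero_right]
      exact (Submodule.Quotient.norm_mk_le W h).trans hh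
    have := hcov hq
    simp only [Set.mem_iUnion] at this
    obtain ⟨q, hqt, hq2⟩ := this
    rw [Metric.mem_ball, dist_eq_norm] at hq2
    refine ⟨l q, Finset.mem_image.2 ⟨q, htf.mem_toFinset.2 hqt, rfl⟩, ?_⟩
    have e : (Submodule.Quotient.mk h : X ⧸ W) - q = Submodule.Quotient.mk (h - l q) := by
      rw [Submodule.Quotient.mk_sub, hl1]
    rw [e] at hq2
    obtain ⟨m, hm1, hm2⟩ := (QuotientAddGroup.norm_lt_iff (S := W.toAddSubgroup)).1 hq2
    have hm3 : h - l q - m ∈ W := by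
      have : (Submodule.Quotient.mk m : X ⧸ W) = Submodule.Quotient.mk (h - l q) := hm1
      rw [eq_comm, Submodule.Quotient.eq] at this
      exact this
    refine ⟨h - l q - m, hm3, ?_⟩
    have : h - l q - (h - l q - m) = m := by abel
    rw [this]; exact hm2.le

/-- the property defining the critical constant -/
def AA (x0 : X) (F0 : X →L[ℝ] ℝ) (c : ℝ) : Prop :=
  ∀ (S : Finset (X →L[ℝ] ℝ)) (η : ℝ), 0 < η → ∃ (G : X →L[ℝ] ℝ) (z : X), ‖G‖ ≤ 1 ∧
    1 - η ≤ G x0 ∧ ‖z‖ ≤ 1 ∧ F0 z = 0 ∧ (∀ ψ ∈ S, ψ z = 0) ∧ c ≤ G z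

lemma AA_pos (hS : Smooth X) {x0 : X} (hx0 : ‖x0‖ = 1) {F0 : X →L[ℝ] ℝ} (hF0 : IsNorming F0 x0)
    (hnd : ¬ DifferentiableAt ℝ (fun y : X => ‖y‖) x0) : ∃ c > 0, AA x0 F0 c := by
  obtain ⟨δ, hδ, hfar⟩ := far_of_not_diff hx0 hF0 hnd
  refine ⟨δ / 12, by positivity, ?_⟩
  intro S η hη
  by_contra hcon
  push Not at hcon
  -- finite codimension
  have hfin : FiniteDimensional ℝ (X ⧸ WS F0 S) := by
    have e : WS F0 S = LinearMap.ker ((F0 : X →ₗ[ℝ] ℝ).prod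
        (LinearMap.pi fun ψ : S => (ψ.1 : X →ₗ[ℝ] ℝ))) := by
      rw [LinearMap.ker_prod]; rfl
    rw [e]
    exact Module.Finite.equiv (LinearMap.quotKerEquivRange _).symm
  have hcl : IsClosed (WS F0 S : Set X) := by
    have e : (WS F0 S : Set X) = {z | F0 z = 0} ∩ ⋂ ψ ∈ S, {z | ψ z = 0} := by
      ext z
      simp only [SetLike.mem_coe, mem_WS, Set.mem_inter_iff, Set.mem_ofPred_eq, Set.mem_iInter]
    rw [e]
    apply IsClosed.inter (isClosed_eq F0.continuous continuous_const)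
    apply isClosed_biInter
    intro ψ _
    exact isClosed_eq ψ.continuous continuous_const
  set ε := min 1 (δ / 24) with hε
  have hεp : 0 < ε := lt_min one_pos (by positivity)
  have hε1 : ε ≤ 1 := min_le_left _ _
  have hε2 : ε ≤ δ / 24 := min_le_right _ _
  obtain ⟨s, hs1, hs2⟩ := finite_lift (hW := hcl) (WS F0 S) ε hεp
  obtain ⟨η', hη', hnear⟩ := near_finset hS hx0 hF0 s (δ / 24) (by positivity)
  obtain ⟨G, hG1, hG2, hG3⟩ := hfar (min η η') (lt_min hη hη')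
  have hGη : 1 - η ≤ G x0 := by have := min_le_left η η'; linarith
  have hGη' : 1 - η' ≤ G x0 := by have := min_le_right η η'; linarith
  have hW : ∀ w ∈ WS F0 S, |G w| ≤ δ / 12 * ‖w‖ := by
    intro w hw
    rw [mem_WS] at hw
    by_cases hw0 : w = 0
    · rw [hw0]; simp
    have hn : 0 < ‖w‖ := norm_pos_iff.2 hw0
    have h1 := hcon G ((‖w‖)⁻¹ • w) hG1 hGη
      (by rw [norm_smul, norm_inv, norm_norm, inv_mul_cancel₀ hn.ne'])
      (by rw [map_smul, hw.1, smul_zero]) (fun ψ hψ => by rw [map_smul, hw.2 ψ hψ, smul_zero])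
    have h2 := hcon G (-((‖w‖)⁻¹ • w)) hG1 hGη
      (by rw [norm_neg, norm_smul, norm_inv, norm_norm, inv_mul_cancel₀ hn.ne'])
      (by rw [map_neg, map_smul, hw.1, smul_zero, neg_zero])
      (fun ψ hψ => by rw [map_neg, map_smul, hw.2 ψ hψ, smul_zero, neg_zero])
    rw [map_smul, smul_eq_mul, inv_mul_lt_iff₀ hn] at h1
    rw [map_neg, map_smul, smul_eq_mul, neg_lt, ← neg_lt, ← mul_neg, inv_mul_lt_iff₀ hn] at h2
    rw [abs_le]
    constructor <;> linarith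
  have hGF2 : ‖G - F0‖ ≤ 2 := by
    calc ‖G - F0‖ ≤ ‖G‖ + ‖F0‖ := norm_sub_le _ _
      _ ≤ 2 := by rw [hF0.1]; linarith
  have hball : ∀ h : X, ‖h‖ ≤ 1 → |G h - F0 h| ≤ δ / 2 := by
    intro h hh
    obtain ⟨v, hv, w, hw, hvw⟩ := hs2 h hh
    have hv1 := hs1 v hv
    have h1 := (hnear G hG1 hGη' v hv).le
    have h2 := hW w hw
    have hwn : ‖w‖ ≤ 4 := by
      have e : w = h - v - (h - v - w) := by abel
      rw [e]
      have a1 := norm_sub_le (h - v) (h - v - w)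
      have a2 := norm_sub_le h v
      linarith
    have hF0w : F0 w = 0 := ((mem_WS _ _ _).1 hw).1
    have h3 := (G - F0).le_opNorm (h - v - w)
    rw [Real.norm_eq_abs] at h3
    have h4 : ‖G - F0‖ * ‖h - v - w‖ ≤ 2 * ε :=
      mul_le_mul hGF2 hvw (norm_nonneg _) (by norm_num)
    have e : G h - F0 h = (G v - F0 v) + G w + (G - F0) (h - v - w) := by
      show _ = (G v - F0 v) + G w + (G (h - v - w) - F0 (h - v - w))
      rw [map_sub, map_sub, map_sub, map_sub, hF0w]; ring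
    rw [e]
    have h5 := abs_add_le (G v - F0 v + G w) ((G - F0) (h - v - w))
    have h6 := abs_add_le (G v - F0 v) (G w)
    have h7 : δ / 12 * ‖w‖ ≤ δ / 12 * 4 := by gcongr
    linarith
  have hle : ‖G - F0‖ ≤ δ / 2 := by
    apply ContinuousLinearMap.opNorm_le_bound _ (by positivity)
    intro h
    by_cases hh : h = 0
    · rw [hh]; simp
    have hn : 0 < ‖h‖ := norm_pos_iff.2 hh
    have h1 := hball ((‖h‖)⁻¹ • h) (by rw [norm_smul, norm_inv, norm_norm, inv_mul_cancel₀ hn.ne'])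
    rw [map_smul, map_smul, smul_eq_mul, smul_eq_mul, ← mul_sub, abs_mul, abs_inv, abs_norm,
      inv_mul_le_iff₀ hn] at h1
    rw [Real.norm_eq_abs]
    show |G h - F0 h| ≤ _
    linarith
  linarith

lemma AA_mono {x0 : X} {F0 : X →L[ℝ] ℝ} {c d : ℝ} (hcd : c ≤ d) (h : AA x0 F0 d) : AA x0 F0 c := by
  intro S η hη
  obtain ⟨G, z, h1, h2, h3, h4, h5, h6⟩ := h S η hη
  exact ⟨G, z, h1, h2, h3, h4, h5, hcd.trans h6⟩

lemma AA_le_one {x0 : X} {F0 : X →L[ℝ] ℝ} {c : ℝ} (h : AA x0 F0 c) : c ≤ 1 := by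
  obtain ⟨G, z, h1, _, h3, _, _, h6⟩ := h ∅ 1 one_pos
  have := (le_abs_self _).trans (abs_le_of_norm h1 z)
  linarith

/-- the critical constant -/
lemma exists_crit {x0 : X} {F0 : X →L[ℝ] ℝ} (h : ∃ c > 0, AA x0 F0 c) :
    ∃ Δ : ℝ, 0 < Δ ∧ Δ ≤ 1 ∧ (∀ c < Δ, AA x0 F0 c) ∧
      ∀ c > Δ, ∃ (S : Finset (X →L[ℝ] ℝ)) (η : ℝ), 0 < η ∧ ∀ (G : X →L[ℝ] ℝ) (z : X), ‖G‖ ≤ 1 →
        1 - η ≤ G x0 → ‖z‖ ≤ 1 → F0 z = 0 → (∀ ψ ∈ S, ψ z = 0) → |G z| ≤ c := by
  obtain ⟨c0, hc0, hA⟩ := h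
  have hbdd : BddAbove {c | AA x0 F0 c} := ⟨1, fun c hc => AA_le_one hc⟩
  have hne : {c | AA x0 F0 c}.Nonempty := ⟨c0, hA⟩
  refine ⟨sSup {c | AA x0 F0 c}, lt_of_lt_of_le hc0 (le_csSup hbdd hA),
    csSup_le hne fun c hc => AA_le_one hc, ?_, ?_⟩
  · intro c hc
    obtain ⟨d, hd, hcd⟩ := exists_lt_of_lt_csSup hne hc
    exact AA_mono hcd.le hd
  · intro c hc
    have hn : ¬ AA x0 F0 c := fun h => absurd (le_csSup hbdd h) (not_le.2 hc)
    unfold AA at hn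
    push Not at hn
    obtain ⟨S, η, hη, h⟩ := hn
    refine ⟨S, η, hη, ?_⟩
    intro G z h1 h2 h3 h4 h5
    rw [abs_le]
    constructor
    · have := h G (-z) h1 h2 (by rwa [norm_neg]) (by rw [map_neg, h4, neg_zero])
        (fun ψ hψ => by rw [map_neg, h5 ψ hψ, neg_zero])
      rw [map_neg] at this
      linarith
    · exact (h G z h1 h2 h3 h4 h5).le

end Pool.Agent.Lib.MP_dc5a1d_an
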