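import Pool.Agent.Lib.MP_dc5a1d_an.NotKK
import Pool.Agent.Lib.MP_dc5a1d_an.Nonsmooth

/-! Assembly: smooth without the Kadec-Klee property of the dual sphere: a diverging run. -/

set_option autoImplicit false

open Filter Topology

namespace Pool.Agent.Lib.MP_dc5a1d_an

variable {X : Type*} [NormedAddCommGroup X] [NormedSpace ℝ X]

lemma Sp_congr (φ φ' : ℕ → X) (m : ℕ) (h : ∀ i < m, φ i = φ' i) : Sp φ m = Sp φ' m := by
  unfold Sp
  congr 1
  ext x
  constructor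
  · rintro ⟨j, hj, rfl⟩; exact ⟨j, hj, h j hj⟩
  · rintro ⟨j, hj, rfl⟩; exact ⟨j, hj, (h j hj).symm⟩

lemma Sp_sup (φ : ℕ → X) (m : ℕ) : Sp φ (m + 1) = Sp φ m ⊔ Submodule.span ℝ {φ m} := by
  unfold Sp
  rw [← Submodule.span_union]
  congr 1
  ext x
  constructor
  · rintro ⟨j, hj, rfl⟩
    rcases Nat.lt_succ_iff_lt_or_eq.1 hj with h | h
    · exact Or.inl ⟨j, h, rfl⟩
    · right; rw [h]; rfl
  · rintro (⟨j, hj, rfl⟩ | hx)
    · exact ⟨j, by omega, rfl⟩
    · exact ⟨m, Nat.lt_succ_self m, hx⟩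

lemma Sp_zero (φ : ℕ → X) : Sp φ 0 = ⊥ := by
  unfold Sp
  rw [Submodule.span_eq_bot]
  rintro x ⟨j, hj, _⟩
  exact absurd hj (Nat.not_lt_zero j)

/-- the norming functional of the residual does not depend on the best approximation -/
lemma norming_unique (hS : Smooth X) (V : Submodule ℝ X) (f G G' : X) (hG : IsBestApprox f G V)
    (hG' : IsBestApprox f G' V) (hne : f - G ≠ 0) (hne' : f - G' ≠ 0) (E E' : X →L[ℝ] ℝ)
    (hE : IsNorming E (f - G)) (hE' : IsNorming E' (f - G')) : E' = E := by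
  have h1 := smooth_annih hS V f G hG hne E hE
  have hn : ‖f - G‖ = ‖f - G'‖ := le_antisymm (hG.2 G' hG'.1) (hG'.2 G hG.1)
  have h2 : IsNorming E (f - G') := by
    refine ⟨hE.1, ?_⟩
    rw [← hn, ← hE.2, map_sub, map_sub, h1 G hG.1, h1 G' hG'.1]
  exact hS _ hne' E' E hE' h2

lemma exists_Dat (F : X →L[ℝ] ℝ) (hF : ‖F‖ = 1) (ε : ℝ) (hε : 0 < ε)
    (hbad : ∀ (s : Finset X) (η : ℝ), 0 < η → ∃ G : X →L[ℝ] ℝ, ‖G‖ = 1 ∧
      (∀ x ∈ s, |G x - F x| < η) ∧ ε ≤ ‖G - F‖) :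
    ∃ (x z : ℕ → X) (g : ℕ → X →L[ℝ] ℝ), Dat F (ε / 4 / 32) (ε / 4) x z g := by
  set δ := ε / 4 with hδ
  have hδp : 0 < δ := by positivity
  set r := δ / 32 with hr
  have hrp : 0 < r := by positivity
  have hδ1 : δ ≤ 1 := by
    obtain ⟨G, z, hG, _, hz, _, hz2⟩ := exists_far F hF ε hε hbad ⊥ 1 one_pos
    have := (le_abs_self _).trans (abs_le_of_norm hG z)
    linarith
  have hr1 : r < 1 := by linarith
  choose M hM using fun k : ℕ => sch_unbounded' hrp hr1 k
  choose x hx1 hx2 using fun k : ℕ => exists_almost F hF (min 1 (r ^ (M k + 1) * δ / 16))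
    (lt_min one_pos (by positivity))
  haveI : Inhabited ((X →L[ℝ] ℝ) × X) := ⟨(0, 0)⟩
  obtain ⟨q, hq⟩ := exists_seq_hist (α := (X →L[ℝ] ℝ) × X)
    (fun m h a => ‖a.1‖ ≤ 1 ∧ (∀ u ∈ Submodule.span ℝ ({y | ∃ i ≤ m + 1, y = x i} ∪
      {y | ∃ j < m, y = (h j).2}), |a.1 u - F u| ≤ r ^ (m + 1) * δ / 128 * ‖u‖) ∧ ‖a.2‖ ≤ 1 ∧
      F a.2 = 0 ∧ δ ≤ a.1 a.2) (by
    intro n f g a hfg h
    have e : {y : X | ∃ j < n, y = (f j).2} = {y : X | ∃ j < n, y = (g j).2} := by
      ext y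
      constructor
      · rintro ⟨j, hj, rfl⟩; exact ⟨j, hj, by rw [hfg j hj]⟩
      · rintro ⟨j, hj, rfl⟩; exact ⟨j, hj, by rw [hfg j hj]⟩
    rw [← e]; exact h) (by
    intro m h
    have hfd : FiniteDimensional ℝ (Submodule.span ℝ ({y : X | ∃ i ≤ m + 1, y = x i} ∪
      {y | ∃ j < m, y = (h j).2})) := by
      apply FiniteDimensional.span_of_finite
      apply Set.Finite.union
      · apply Set.Finite.subset ((Set.finite_le_nat (m + 1)).image x)
        rintro y ⟨i, hi, rfl⟩; exact ⟨i, hi, rfl⟩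
      · apply Set.Finite.subset ((Set.finite_lt_nat m).image fun j => (h j).2)
        rintro y ⟨j, hj, rfl⟩; exact ⟨j, hj, rfl⟩
    obtain ⟨G, z, h1, h2, h3, h4, h5⟩ := exists_far F hF ε hε hbad
      (Submodule.span ℝ ({y : X | ∃ i ≤ m + 1, y = x i} ∪ {y | ∃ j < m, y = (h j).2}))
      (r ^ (m + 1) * δ / 128) (by positivity)
    exact ⟨(G, z), h1, h2, h3, h4, h5⟩)
  refine ⟨x, fun j => (q j).2, fun j => (q j).1, ?_⟩
  refine ⟨hrp, le_refl _, hδ1, hF, hx1, ?_, ?_, fun j => (hq j).2.2.1, fun j => (hq j).2.2.2.1,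
    fun m => (hq m).1, fun m => (hq m).2.1, fun m => (hq m).2.2.2.2⟩
  · intro i
    have := hx2 i
    have h2 : min 1 (r ^ (M i + 1) * δ / 16) ≤ 1 := min_le_left _ _
    linarith
  · intro m
    have h1 := hx2 (sch r m).1
    have h2 : min 1 (r ^ (M (sch r m).1 + 1) * δ / 16) ≤ r ^ (M (sch r m).1 + 1) * δ / 16 :=
      min_le_right _ _
    have h3 : m ≤ M (sch r m).1 := by
      by_contra hcon
      push Not at hcon
      have h4 := sch_mono (r := r) hcon.le
      have h5 := hM (sch r m).1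
      simp only at h4
      omega
    have h4 : r ^ (M (sch r m).1 + 1) ≤ r ^ (m + 1) :=
      pow_le_pow_of_le_one hrp.le hr1.le (by omega)
    have h5 : r ^ (M (sch r m).1 + 1) * δ / 16 ≤ r ^ (m + 1) * δ / 16 := by gcongr
    linarith

theorem not_converges_of_not_kk [CompleteSpace X] (hS : Smooth X) (hK : ¬ DualKadecKlee X) :
    ∃ t : ℝ, 0 < t ∧ t ≤ 1 ∧ ¬ Converges X t := by
  unfold DualKadecKlee at hK
  push Not at hK
  obtain ⟨F, hF, ε, hε, hbad⟩ := hK
  obtain ⟨x, z, g, hD⟩ := exists_Dat F hF ε hε hbad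
  set δ := ε / 4
  set r := δ / 32
  obtain ⟨f, hf⟩ := exists_lim hD
  have hFf := F_lim hD hf
  have hr := hD.r_pos
  have hδ := δ_pos hD
  have hα : 0 < al r := by unfold al; positivity
  have hβ : 0 < be r := by unfold be; positivity
  have htp : 0 < tt r δ := by unfold tt; positivity
  have ht1 : tt r δ ≤ 1 := by
    unfold tt
    rw [div_le_one (by positivity)]
    have := hD.δ_le
    linarith
  refine ⟨tt r δ, htp, ht1, ?_⟩
  intro hconv
  -- the residual never vanishes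
  have hres : ∀ (Φ : Submodule ℝ X) (G : X), (∀ u ∈ Φ, F u = 0) → G ∈ Φ → 1 ≤ ‖f - G‖ := by
    intro Φ G hΦ hG
    have := (le_abs_self _).trans (abs_le_of_norm hF.le (f - G))
    rwa [map_sub, hΦ G hG, sub_zero, hFf] at this
  have hres0 : ∀ (Φ : Submodule ℝ X) (G : X), (∀ u ∈ Φ, F u = 0) → G ∈ Φ → f - G ≠ 0 := by
    intro Φ G hΦ hG h0
    have := hres Φ G hΦ hG
    rw [h0, norm_zero] at this
    linarith
  haveI : Inhabited X := ⟨0⟩
  obtain ⟨φ, hφ⟩ := exists_seq_hist (α := X)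
    (fun m φ ψ => Inv F r x z m (Sp φ m) → ‖ψ‖ = 1 ∧
      (∀ (G : X) (E : X →L[ℝ] ℝ), IsBestApprox f G (Sp φ m) → IsNorming E (f - G) →
        tt r δ ≤ |E ψ|) ∧ Inv F r x z (m + 1) (Sp φ m ⊔ Submodule.span ℝ {ψ})) (by
    intro n f g a hfg h
    rw [← Sp_congr f g n hfg]; exact h) (by
    intro m φ
    by_cases hI : Inv F r x z m (Sp φ m)
    · obtain ⟨G, hG⟩ := exists_best (Sp φ m) f
      have hne := hres0 _ G hI.2.1 hG.1
      obtain ⟨E, hE⟩ := exists_norming (f - G) hne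
      obtain ⟨ψ, h1, h2, h3⟩ := inv_step hD hf m _ hI G hG E hE
        (smooth_annih hS _ f G hG hne E hE)
      refine ⟨ψ, fun _ => ⟨h1, ?_, h3⟩⟩
      intro G' E' hG' hE'
      rw [norming_unique hS _ f G G' hG hG' hne (hres0 _ G' hI.2.1 hG'.1) E E' hE hE']
      exact h2
    · exact ⟨0, fun h => absurd h hI⟩)
  have hinv : ∀ m, Inv F r x z m (Sp φ m) := by
    intro m
    induction m with
    | zero =>
      rw [Sp_zero]
      refine ⟨bot_le, ?_, ?_, ?_⟩
      · intro u hu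
        rw [(Submodule.mem_bot ℝ).1 hu, map_zero]
      · refine ⟨0, Submodule.zero_mem _, map_zero _, ?_, ?_⟩
        · rw [norm_zero]; exact (ab_pos hr 0).le
        · simp [pm, sch]
      · exact Err_new hD 0 ⊥ _ (by simp [sch])
    | succ m ih =>
      rw [Sp_sup]
      exact (hφ m ih).2.2
  choose G hG using fun m => exists_best (Sp φ m) f
  have hne : ∀ m, f - G m ≠ 0 := fun m => hres0 _ (G m) (hinv m).2.1 (hG m).1
  have hrun : IsRun (tt r δ) {x : X | ‖x‖ = 1} f φ G := by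
    refine ⟨?_, fun m h => absurd h (hne m), ?_⟩
    · have := (hG 0).1
      rw [Sp_zero] at this
      exact (Submodule.mem_bot ℝ).1 this
    · intro m _
      obtain ⟨E, hE⟩ := exists_norming (f - G m) (hne m)
      obtain ⟨h1, h2, _⟩ := hφ m (hinv m)
      refine ⟨E, hE, h1, ?_, ?_⟩
      · intro g hg
        have h3 := hE.abs_le g
        have hg' : ‖g‖ = 1 := hg
        rw [hg'] at h3
        have h4 := h2 (G m) E (hG m) hE
        have h5 : tt r δ * |E g| ≤ tt r δ * 1 := mul_le_mul_of_nonneg_left h3 htp.le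
        linarith
      · rw [Sp_succ]; exact hG (m + 1)
  have hlim := hconv _ sphere_dictionary f φ G hrun
  have h0 : (1 : ℝ) ≤ 0 := ge_of_tendsto' hlim (fun m => hres _ (G m) (hinv m).2.1 (hG m).1)
  linarith

/-- the characterisation for all weakness parameters simultaneously -/
theorem all_iff [CompleteSpace X] : (∀ t : ℝ, 0 < t → t ≤ 1 → Converges X t) ↔
    Smooth X ∧ DualKadecKlee X := by
  constructor
  · intro h
    have hS : Smooth X := smooth_of_converges le_rfl (h 1 one_pos le_rfl)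
    refine ⟨hS, ?_⟩
    by_contra hK
    obtain ⟨t, ht, ht1, hn⟩ := not_converges_of_not_kk hS hK
    exact hn (h t ht ht1)
  · rintro ⟨hS, hK⟩ t ht _
    exact suff hS hK t ht

end Pool.Agent.Lib.MP_dc5a1d_an
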