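import Pool.Agent.Lib.MP_dc5a1d_an.NotF1
import Pool.Agent.Lib.MP_dc5a1d_an.NotKK2

/-! Convergence of the (non-weak) Chebyshev greedy algorithm for all dictionaries forces Frechet
differentiability of the norm. -/

set_option autoImplicit false

open Filter Topology

namespace Pool.Agent.Lib.MP_dc5a1d_an

variable {X : Type*} [NormedAddCommGroup X] [NormedSpace ℝ X]

/-- small parameters -/
noncomputable def xi (m : ℕ) : ℝ := (1 / 2) ^ (m + 5)

lemma xi_pos (m : ℕ) : 0 < xi m := by unfold xi; positivity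
lemma xi_le (m : ℕ) : xi m ≤ 1 / 32 := by
  unfold xi
  calc (1 / 2 : ℝ) ^ (m + 5) ≤ (1 / 2) ^ 5 := pow_le_pow_of_le_one (by norm_num) (by norm_num) (by omega)
    _ = 1 / 32 := by norm_num

structure Dat2 (x0 : X) (F0 H0 : X →L[ℝ] ℝ) (Δ : ℝ) (s η : ℕ → ℝ) (z : ℕ → X)
    (g : ℕ → X →L[ℝ] ℝ) : Prop where
  Δ_pos : 0 < Δ
  Δ_le : Δ ≤ 1
  x0n : ‖x0‖ = 1
  F0n : IsNorming F0 x0
  s_pos : ∀ m, 0 < s m
  s_half : ∀ m, s (m + 1) ≤ s m / 2
  s_zero : s 0 ≤ 1 / 4
  s_tail : ∀ m, 2 * s (m + 1) ≤ xi m * Δ * s m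
  s_eta : ∀ m, 2 * s m ≤ η m
  z_norm : ∀ j, ‖z j‖ = 1
  Fz : ∀ j, F0 (z j) = 0
  z_bound : ∀ m j, m ≤ j → ∀ G : X →L[ℝ] ℝ, ‖G‖ ≤ 1 → 1 - η m ≤ G x0 → |G (z j)| ≤ (1 + xi m) * Δ
  g_norm : ∀ m, ‖g m‖ ≤ 1
  g_x0 : ∀ m, 1 - xi m * Δ * s m / 5 ≤ g m x0
  g_near : ∀ m, ∀ u ∈ Sp z m, |g m u - F0 u| ≤ xi m * Δ * s m / 5 * ‖u‖
  g_kill : ∀ m j, m < j → g m (z j) = 0
  g_far : ∀ m, (1 - xi m) * Δ ≤ g m (z m)
  H0n : IsNorming H0 (z 0)
  Hz : ∀ j, 0 < j → H0 (z j) = 0

lemma exists_Dat2 (hS : Smooth X) {x0 : X} (hx0 : ‖x0‖ = 1) {F0 : X →L[ℝ] ℝ} (hF0 : IsNorming F0 x0)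
    (hnd : ¬ DifferentiableAt ℝ (fun y : X => ‖y‖) x0) :
    ∃ (H0 : X →L[ℝ] ℝ) (Δ : ℝ) (s η : ℕ → ℝ) (z : ℕ → X) (g : ℕ → X →L[ℝ] ℝ),
      Dat2 x0 F0 H0 Δ s η z g := by
  classical
  obtain ⟨Δ, hΔ, hΔ1, hA, hB⟩ := exists_crit (AA_pos hS hx0 hF0 hnd)
  choose S η hη hSη using fun m : ℕ => hB ((1 + xi m) * Δ) (by have := xi_pos m; nlinarith)
  -- the step sizes
  let s : ℕ → ℝ := fun m => Nat.rec (min (1 / 4) (η 0 / 2))
    (fun m sm => min (sm * (xi m * Δ / 2)) (η (m + 1) / 2)) m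
  have hs0 : s 0 = min (1 / 4) (η 0 / 2) := rfl
  have hs1 : ∀ m, s (m + 1) = min (s m * (xi m * Δ / 2)) (η (m + 1) / 2) := fun m => rfl
  have hsp : ∀ m, 0 < s m := by
    intro m
    induction m with
    | zero => rw [hs0]; have := hη 0; exact lt_min (by norm_num) (by positivity)
    | succ m ih =>
      rw [hs1]
      have := hη (m + 1)
      have := xi_pos m
      exact lt_min (by positivity) (by positivity)
  have hs2 : ∀ m, s (m + 1) ≤ s m * (xi m * Δ / 2) := fun m => by rw [hs1]; exact min_le_left _ _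
  choose nf hnf using fun v : X => (show ∃ H : X →L[ℝ] ℝ, v ≠ 0 → IsNorming H v by
    by_cases hv : v = 0
    · exact ⟨0, fun h => absurd hv h⟩
    · obtain ⟨H, hH⟩ := exists_norming v hv
      exact ⟨H, fun _ => hH⟩)
  haveI : Inhabited ((X →L[ℝ] ℝ) × X) := ⟨(0, 0)⟩
  obtain ⟨q, hq⟩ := exists_seq_hist (α := (X →L[ℝ] ℝ) × X)
    (fun m h a => ‖a.1‖ ≤ 1 ∧ 1 - xi m * Δ * s m / 5 ≤ a.1 x0 ∧
      (∀ u ∈ Sp (fun j => (h j).2) m, |a.1 u - F0 u| ≤ xi m * Δ * s m / 5 * ‖u‖) ∧ ‖a.2‖ = 1 ∧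
      F0 a.2 = 0 ∧ (∀ i ≤ m, ∀ ψ ∈ S i, ψ a.2 = 0) ∧ (∀ i < m, (h i).1 a.2 = 0) ∧
      (0 < m → nf (h 0).2 a.2 = 0) ∧ (1 - xi m) * Δ ≤ a.1 a.2) (by
    intro n f g a hfg h
    have e : Sp (fun j => (f j).2) n = Sp (fun j => (g j).2) n :=
      Sp_congr _ _ _ (fun i hi => by rw [hfg i hi])
    obtain ⟨h1, h2, h3, h4, h5, h6, h7, h8, h9⟩ := h
    refine ⟨h1, h2, by rw [← e]; exact h3, h4, h5, h6, ?_, ?_, h9⟩
    · intro i hi; rw [← hfg i hi]; exact h7 i hi
    · intro hn; rw [← hfg 0 hn]; exact h8 hn) (by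
    intro m h
    have hτ : 0 < xi m * Δ * s m / 5 := by
      have := xi_pos m; have := hsp m; positivity
    obtain ⟨η', hη', hnear⟩ := near_control hS hx0 hF0 (Sp (fun j => (h j).2) m) _ hτ
    have hlt : (1 - xi m) * Δ < Δ := by have := xi_pos m; nlinarith
    obtain ⟨G, z, h1, h2, h3, h4, h5, h6⟩ := hA _ hlt
      (((Finset.range (m + 1)).biUnion S) ∪ ((Finset.range m).image fun i => (h i).1) ∪
        {nf (h 0).2}) (min (xi m * Δ * s m / 5) η') (lt_min hτ hη')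
    have hpos : 0 < (1 - xi m) * Δ := by have := xi_le m; nlinarith
    have hz0 : z ≠ 0 := by
      intro h0; rw [h0, map_zero] at h6; linarith
    have hzn : 0 < ‖z‖ := norm_pos_iff.2 hz0
    refine ⟨(G, (‖z‖)⁻¹ • z), h1, ?_, ?_, ?_, ?_, ?_, ?_, ?_, ?_⟩
    · have := min_le_left (xi m * Δ * s m / 5) η'; simp only; linarith
    · intro u hu
      exact hnear G h1 (by have := min_le_right (xi m * Δ * s m / 5) η'; linarith) u hu
    · rw [norm_smul, norm_inv, norm_norm, inv_mul_cancel₀ hzn.ne']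
    · simp only; rw [map_smul, h4, smul_zero]
    · intro i hi ψ hψ
      simp only
      rw [map_smul, h5 ψ, smul_zero]
      simp only [Finset.mem_union, Finset.mem_biUnion, Finset.mem_range, Finset.mem_image,
        Finset.mem_singleton]
      exact Or.inl (Or.inl ⟨i, by omega, hψ⟩)
    · intro i hi
      simp only
      rw [map_smul, h5 ((h i).1), smul_zero]
      simp only [Finset.mem_union, Finset.mem_biUnion, Finset.mem_range, Finset.mem_image,
        Finset.mem_singleton]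
      exact Or.inl (Or.inr ⟨i, hi, rfl⟩)
    · intro _
      simp only
      rw [map_smul, h5 (nf (h 0).2), smul_zero]
      simp
    · simp only
      rw [map_smul, smul_eq_mul]
      have h7 : 1 ≤ (‖z‖)⁻¹ := (one_le_inv₀ hzn).2 h3
      nlinarith)
  refine ⟨nf (q 0).2, Δ, s, η, fun j => (q j).2, fun j => (q j).1, ?_⟩
  have hz0 : (q 0).2 ≠ 0 := by
    intro h0
    have := (hq 0).2.2.2.1
    rw [h0, norm_zero] at this
    norm_num at this
  refine ⟨hΔ, hΔ1, hx0, hF0, hsp, ?_, ?_, ?_, ?_, fun j => (hq j).2.2.2.1,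
    fun j => (hq j).2.2.2.2.1, ?_, fun m => (hq m).1, fun m => (hq m).2.1, fun m => (hq m).2.2.1,
    ?_, fun m => (hq m).2.2.2.2.2.2.2.2, hnf _ hz0, ?_⟩
  · intro m
    have h1 := hs2 m
    have h2 := xi_le m
    have h3 := hsp m
    have h4 : xi m * Δ / 2 ≤ 1 / 2 := by have := xi_pos m; nlinarith
    nlinarith
  · rw [hs0]; exact min_le_left _ _
  · intro m
    have h1 := hs2 m
    linarith
  · intro m
    cases m with
    | zero => rw [hs0]; have := min_le_right (1 / 4) (η 0 / 2); linarith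
    | succ m => rw [hs1]; have := min_le_right (s m * (xi m * Δ / 2)) (η (m + 1) / 2); linarith
  · intro m j hmj G hG1 hG2
    exact hSη m G (q j).2 hG1 hG2 (hq j).2.2.2.1.le (hq j).2.2.2.2.1
      (fun ψ hψ => (hq j).2.2.2.2.2.1 m hmj ψ hψ)
  · intro m j hmj
    exact (hq j).2.2.2.2.2.2.1 m hmj
  · intro j hj
    exact (hq j).2.2.2.2.2.2.2.1 hj

/-- partial sums -/
noncomputable def ps (x0 : X) (s : ℕ → ℝ) (z : ℕ → X) (m : ℕ) : X :=
  x0 + ∑ j ∈ Finset.range m, s j • z j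

lemma ps_succ (x0 : X) (s : ℕ → ℝ) (z : ℕ → X) (m : ℕ) :
    ps x0 s z (m + 1) = ps x0 s z m + s m • z m := by
  unfold ps; rw [Finset.sum_range_succ, add_assoc]

lemma ps_mem (x0 : X) (s : ℕ → ℝ) (z : ℕ → X) (m : ℕ) : ps x0 s z m - x0 ∈ Sp z m := by
  unfold ps
  rw [add_sub_cancel_left]
  apply Submodule.sum_mem
  intro j hj
  exact Submodule.smul_mem _ _ (mem_Sp z (Finset.mem_range.1 hj))

variable {x0 : X} {F0 H0 : X →L[ℝ] ℝ} {Δ : ℝ} {s η : ℕ → ℝ} {z : ℕ → X} {g : ℕ → X →L[ℝ] ℝ}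

lemma s_small (h : Dat2 x0 F0 H0 Δ s η z g) (m : ℕ) : s m ≤ 1 / 4 := by
  induction m with
  | zero => exact h.s_zero
  | succ m ih => have := h.s_half m; have := h.s_pos m; linarith

lemma ps_dist (h : Dat2 x0 F0 H0 Δ s η z g) (n k : ℕ) :
    ‖ps x0 s z (n + k) - ps x0 s z n‖ ≤ 2 * s n - 2 * s (n + k) := by
  induction k with
  | zero => simp
  | succ k ih =>
    have e : ps x0 s z (n + (k + 1)) - ps x0 s z n = (ps x0 s z (n + k) - ps x0 s z n) +
        s (n + k) • z (n + k) := by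
      rw [← add_assoc, ps_succ]; abel
    rw [e]
    refine (norm_add_le _ _).trans ?_
    rw [norm_smul, h.z_norm, mul_one, Real.norm_of_nonneg (h.s_pos _).le]
    have := h.s_half (n + k)
    rw [← add_assoc]
    linarith

lemma s_tendsto (h : Dat2 x0 F0 H0 Δ s η z g) : Tendsto s atTop (𝓝 0) := by
  have h1 : ∀ m, s m ≤ (1 / 2) ^ m := by
    intro m
    induction m with
    | zero => have := h.s_zero; rw [pow_zero]; linarith
    | succ m ih => have := h.s_half m; rw [pow_succ]; linarith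
  exact squeeze_zero (fun m => (h.s_pos m).le) h1
    (tendsto_pow_atTop_nhds_zero_of_lt_one (by norm_num) (by norm_num))

lemma ps_lim [CompleteSpace X] (h : Dat2 x0 F0 H0 Δ s η z g) : ∃ f : X,
    Tendsto (ps x0 s z) atTop (𝓝 f) := by
  apply cauchySeq_tendsto_of_complete
  apply Metric.cauchySeq_iff'.2
  intro ε hε
  obtain ⟨N, hN⟩ := ((s_tendsto h).eventually (gt_mem_nhds (show (0 : ℝ) < ε / 2 by positivity))).exists
  refine ⟨N, ?_⟩
  intro n hn
  obtain ⟨k, rfl⟩ := Nat.exists_eq_add_of_le hn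
  rw [dist_eq_norm]
  have := ps_dist h N k
  have := h.s_pos (N + k)
  linarith

variable {f : X}

lemma f_dist (h : Dat2 x0 F0 H0 Δ s η z g) (hf : Tendsto (ps x0 s z) atTop (𝓝 f)) (n : ℕ) :
    ‖f - ps x0 s z n‖ ≤ 2 * s n := by
  have h1 : Tendsto (fun k => ‖ps x0 s z (n + k) - ps x0 s z n‖) atTop (𝓝 ‖f - ps x0 s z n‖) := by
    have h2 : Tendsto (fun k => ps x0 s z (n + k)) atTop (𝓝 f) := by
      have := hf.comp (tendsto_add_atTop_nat n)
      refine this.congr ?_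
      intro k
      show ps x0 s z (k + n) = _
      rw [add_comm]
    exact (h2.sub_const _).norm
  apply le_of_tendsto' h1
  intro k
  have := ps_dist h n k
  have := h.s_pos (n + k)
  linarith

lemma F0_f (h : Dat2 x0 F0 H0 Δ s η z g) (hf : Tendsto (ps x0 s z) atTop (𝓝 f)) : F0 f = 1 := by
  have h1 : ∀ n, F0 (ps x0 s z n) = 1 := by
    intro n
    induction n with
    | zero => simp [ps, h.F0n.2, h.x0n]
    | succ n ih => rw [ps_succ, map_add, map_smul, h.Fz, ih]; simp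
  have h2 := (F0.continuous.tendsto f).comp hf
  have h3 : Tendsto (F0 ∘ ps x0 s z) atTop (𝓝 1) := by
    have : (F0 ∘ ps x0 s z) = fun _ => (1 : ℝ) := by funext n; exact h1 n
    rw [this]; exact tendsto_const_nhds
  exact tendsto_nhds_unique h2 h3

lemma g_f (h : Dat2 x0 F0 H0 Δ s η z g) (hf : Tendsto (ps x0 s z) atTop (𝓝 f)) (m : ℕ) :
    g m f = g m (ps x0 s z (m + 1)) := by
  have h1 : ∀ k, g m (ps x0 s z (m + 1 + k)) = g m (ps x0 s z (m + 1)) := by
    intro k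
    induction k with
    | zero => rfl
    | succ k ih =>
      rw [← add_assoc, ps_succ, map_add, map_smul, h.g_kill m (m + 1 + k) (by omega), ih]; simp
  have h2 := ((g m).continuous.tendsto f).comp (hf.comp (tendsto_add_atTop_nat (m + 1)))
  have h3 : Tendsto ((g m) ∘ (ps x0 s z ∘ fun a => a + (m + 1))) atTop
      (𝓝 (g m (ps x0 s z (m + 1)))) := by
    have : ((g m) ∘ (ps x0 s z ∘ fun a => a + (m + 1))) = fun _ => g m (ps x0 s z (m + 1)) := by
      funext k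
      show g m (ps x0 s z (k + (m + 1))) = _
      rw [add_comm k, h1]
    rw [this]; exact tendsto_const_nhds
  exact tendsto_nhds_unique h2 h3

lemma f_norm2 (h : Dat2 x0 F0 H0 Δ s η z g) (hf : Tendsto (ps x0 s z) atTop (𝓝 f)) : ‖f‖ ≤ 3 / 2 := by
  have h1 := f_dist h hf 0
  have h2 : ps x0 s z 0 = x0 := by simp [ps]
  rw [h2] at h1
  have h3 := h.s_zero
  have h4 : f = (f - x0) + x0 := by abel
  rw [h4]
  have := norm_add_le (f - x0) x0
  rw [h.x0n] at this
  linarith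

/-- estimates for the norming functional of the residual -/
lemma Eest2 (h : Dat2 x0 F0 H0 Δ s η z g) (hf : Tendsto (ps x0 s z) atTop (𝓝 f)) (m : ℕ) (G : X)
    (hG : IsBestApprox f G (Sp z m)) (E : X →L[ℝ] ℝ) (hE : IsNorming E (f - G))
    (hEΦ : ∀ u ∈ Sp z m, E u = 0) : 1 - η m ≤ E x0 ∧ (1 - 3 * xi m) * Δ ≤ E (z m) := by
  have hF : ∀ u ∈ Sp z m, F0 u = 0 := by
    intro u hu
    have : Sp z m ≤ LinearMap.ker (F0 : X →ₗ[ℝ] ℝ) := by
      unfold Sp
      rw [Submodule.span_le]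
      rintro x ⟨j, _, rfl⟩
      exact h.Fz j
    exact this hu
  have hxi := xi_pos m
  have hxi2 := xi_le m
  have hsm := h.s_pos m
  have hΔ := h.Δ_pos
  have hres : 1 ≤ ‖f - G‖ := by
    have := (le_abs_self _).trans (h.F0n.abs_le (f - G))
    rwa [map_sub, hF G hG.1, F0_f h hf, sub_zero] at this
  have hpm := ps_mem x0 s z m
  constructor
  · have e : f - G = x0 + (f - ps x0 s z m) + ((ps x0 s z m - x0) - G) := by abel
    have e2 : E (f - G) = E x0 + E (f - ps x0 s z m) := by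
      rw [e, map_add, map_add, map_sub E (ps x0 s z m - x0) G, hEΦ _ hpm, hEΦ _ hG.1]; ring
    rw [hE.2] at e2
    have h1 := (le_abs_self _).trans (hE.abs_le (f - ps x0 s z m))
    have h2 := f_dist h hf m
    have h3 := h.s_eta m
    linarith
  · -- lower bound for the residual
    have hnG : ‖f - G‖ ≤ 3 / 2 := by
      have := hG.2 0 (Submodule.zero_mem _)
      rw [sub_zero] at this
      exact this.trans (f_norm2 h hf)
    set u := (ps x0 s z m - x0) - G with hu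
    have huV : u ∈ Sp z m := Submodule.sub_mem _ hpm hG.1
    have hun : ‖u‖ ≤ 4 := by
      have e : u = (f - G) - (f - ps x0 s z m) - x0 := by rw [hu]; abel
      rw [e]
      have a1 := norm_sub_le ((f - G) - (f - ps x0 s z m)) x0
      have a2 := norm_sub_le (f - G) (f - ps x0 s z m)
      have a3 := f_dist h hf m
      have a4 := s_small h m
      rw [h.x0n] at a1
      linarith
    have hgfG : g m (f - G) = g m x0 + g m u + s m * g m (z m) := by
      rw [map_sub, g_f h hf m, ps_succ, map_add, map_smul, smul_eq_mul, hu, map_sub, map_sub]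
      ring
    have h1 := (le_abs_self _).trans (abs_le_of_norm (h.g_norm m) (f - G))
    rw [hgfG] at h1
    have h2 := h.g_near m u huV
    rw [hF u huV, sub_zero] at h2
    have h3 := (abs_le.1 h2).1
    have h4 : xi m * Δ * s m / 5 * ‖u‖ ≤ xi m * Δ * s m / 5 * 4 := by gcongr
    have h5 := h.g_x0 m
    have h6 : s m * ((1 - xi m) * Δ) ≤ s m * g m (z m) := mul_le_mul_of_nonneg_left (h.g_far m) hsm.le
    have hlow : 1 - xi m * Δ * s m + s m * ((1 - xi m) * Δ) ≤ ‖f - G‖ := by linarith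
    -- upper bound
    have e : f - G = x0 + s m • z m + (f - ps x0 s z (m + 1)) + u := by
      rw [hu, ps_succ]; abel
    have e2 : E (f - G) = E x0 + s m * E (z m) + E (f - ps x0 s z (m + 1)) := by
      rw [e, map_add, map_add, map_add, map_smul, smul_eq_mul, hEΦ u huV, add_zero]
    rw [hE.2] at e2
    have h7 := (le_abs_self _).trans (hE.abs_le x0)
    rw [h.x0n] at h7
    have h8 := (le_abs_self _).trans (hE.abs_le (f - ps x0 s z (m + 1)))
    have h9 := f_dist h hf (m + 1)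
    have h10 := h.s_tail m
    have h11 : s m * ((1 - 3 * xi m) * Δ) ≤ s m * E (z m) := by linarith
    exact le_of_mul_le_mul_left h11 hsm

end Pool.Agent.Lib.MP_dc5a1d_an
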