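import Mathlib

/-! The numerical schedule for the non-attained case. -/

set_option autoImplicit false

open Filter Topology

namespace Pool.Agent.Lib.MP_dc5a1d_an

/-- target index and bound for the pending target -/
noncomputable def sch (r : ℝ) : ℕ → ℕ × ℝ
  | 0 => (0, 5)
  | m + 1 => if Even m then ((sch r m).1, (sch r m).2 + r ^ (m + 1))
      else if r ^ (m + 1) + (sch r m).2 * (r ^ 2 / 4) ≤ 2 * r ^ (m + 1) then ((sch r m).1 + 1, 5)
      else ((sch r m).1, r ^ (m + 1) + (sch r m).2 * (r ^ 2 / 4))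

/-- bound for the current target -/
noncomputable def ab (r : ℝ) (m : ℕ) : ℝ := if Even m then 3 * r ^ m / r else 2 * r ^ m

variable {r : ℝ}

lemma sch_even (m : ℕ) (hm : Even m) : sch r (m + 1) = ((sch r m).1, (sch r m).2 + r ^ (m + 1)) := by
  rw [sch, if_pos hm]

lemma sch_odd_switch (m : ℕ) (hm : ¬ Even m)
    (h : r ^ (m + 1) + (sch r m).2 * (r ^ 2 / 4) ≤ 2 * r ^ (m + 1)) :
    sch r (m + 1) = ((sch r m).1 + 1, 5) := by
  rw [sch, if_neg hm, if_pos h]

lemma sch_odd_stay (m : ℕ) (hm : ¬ Even m)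
    (h : ¬ (r ^ (m + 1) + (sch r m).2 * (r ^ 2 / 4) ≤ 2 * r ^ (m + 1))) :
    sch r (m + 1) = ((sch r m).1, r ^ (m + 1) + (sch r m).2 * (r ^ 2 / 4)) := by
  rw [sch, if_neg hm, if_neg h]

lemma sch_mono_step (m : ℕ) : (sch r m).1 ≤ (sch r (m + 1)).1 ∧ (sch r (m + 1)).1 ≤ (sch r m).1 + 1 := by
  by_cases hm : Even m
  · rw [sch_even m hm]; simp
  · by_cases h : r ^ (m + 1) + (sch r m).2 * (r ^ 2 / 4) ≤ 2 * r ^ (m + 1)
    · rw [sch_odd_switch m hm h]; simp
    · rw [sch_odd_stay m hm h]; simp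

lemma sch_mono : Monotone fun m => (sch r m).1 := monotone_nat_of_le_succ fun m => (sch_mono_step m).1

lemma sch_le (m : ℕ) : (sch r m).1 ≤ m := by
  induction m with
  | zero => simp [sch]
  | succ m ih => exact (sch_mono_step m).2.trans (by omega)

lemma sch_pos (hr : 0 < r) (m : ℕ) : 0 < (sch r m).2 := by
  induction m with
  | zero => simp [sch]
  | succ m ih =>
    by_cases hm : Even m
    · rw [sch_even m hm]; simp only; positivity
    · by_cases h : r ^ (m + 1) + (sch r m).2 * (r ^ 2 / 4) ≤ 2 * r ^ (m + 1)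
      · rw [sch_odd_switch m hm h]; norm_num
      · rw [sch_odd_stay m hm h]; simp only; positivity

lemma ab_pos (hr : 0 < r) (m : ℕ) : 0 < ab r m := by
  unfold ab; split_ifs <;> positivity

/-- the target index tends to infinity -/
lemma sch_unbounded (hr : 0 < r) (hr1 : r < 1) (m0 : ℕ) (h0 : Even m0) :
    ∃ m, m0 ≤ m ∧ (sch r m0).1 < (sch r m).1 := by
  by_contra hcon
  push Not at hcon
  have hconst : ∀ m, m0 ≤ m → (sch r m).1 = (sch r m0).1 := fun m hm =>
    le_antisymm (hcon m hm) (sch_mono hm)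
  have hstep : ∀ m, m0 ≤ m → Even m → (sch r (m + 2)).2 / r ^ (m + 2) ≤ (sch r m).2 / r ^ m / 4 + 5 / 4 ∧
      2 < (sch r (m + 2)).2 / r ^ (m + 2) := by
    intro m hm he
    have ho : ¬ Even (m + 1) := by rw [Nat.not_even_iff_odd]; exact he.add_one
    have e1 := sch_even (r := r) m he
    have hns : ¬ (r ^ (m + 1 + 1) + (sch r (m + 1)).2 * (r ^ 2 / 4) ≤ 2 * r ^ (m + 1 + 1)) := by
      intro h
      have e2 := sch_odd_switch (r := r) (m + 1) ho h
      have h3 := hconst (m + 1 + 1) (by omega)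
      rw [e2] at h3
      have h4 := hconst (m + 1) (by omega)
      simp only at h3
      omega
    have e2 := sch_odd_stay (r := r) (m + 1) ho hns
    have hp : 0 < r ^ m := pow_pos hr m
    have e3 : (sch r (m + 2)).2 = r ^ (m + 2) + ((sch r m).2 + r ^ (m + 1)) * (r ^ 2 / 4) := by
      show (sch r (m + 1 + 1)).2 = _
      rw [e2, e1]
    constructor
    · rw [e3]
      have : (r ^ (m + 2) + ((sch r m).2 + r ^ (m + 1)) * (r ^ 2 / 4)) / r ^ (m + 2) =
        1 + (sch r m).2 / r ^ m / 4 + r / 4 := by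
        rw [pow_succ, pow_succ]; field_simp; ring
      rw [this]
      linarith
    · have h5 : 2 * r ^ (m + 2) < (sch r (m + 2)).2 := by
        rw [e3]
        rw [e1] at hns
        push Not at hns
        exact hns
      rw [lt_div_iff₀ (by positivity)]
      exact h5
  have hev : ∀ j : ℕ, Even (m0 + 2 * j) := fun j => h0.add (even_two_mul j)
  have hbound : ∀ j : ℕ, (sch r (m0 + 2 * j)).2 / r ^ (m0 + 2 * j) ≤
      (sch r m0).2 / r ^ m0 / 4 ^ j + 5 / 3 := by
    intro j
    induction j with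
    | zero => simp only [mul_zero, add_zero, pow_zero, div_one]; linarith
    | succ j ih =>
      have h1 := (hstep (m0 + 2 * j) (by omega) (hev j)).1
      have e : m0 + 2 * (j + 1) = m0 + 2 * j + 2 := by ring
      rw [e]
      have h2 : (sch r m0).2 / r ^ m0 / 4 ^ (j + 1) = (sch r m0).2 / r ^ m0 / 4 ^ j / 4 := by
        rw [pow_succ]; field_simp
      rw [h2]
      linarith
  have hlim : Tendsto (fun j : ℕ => (sch r m0).2 / r ^ m0 / 4 ^ (j + 1)) atTop (𝓝 0) := by
    have h1 : Tendsto (fun j : ℕ => (sch r m0).2 / r ^ m0 * (1 / 4 : ℝ) ^ (j + 1)) atTop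
        (𝓝 ((sch r m0).2 / r ^ m0 * 0)) :=
      ((tendsto_pow_atTop_nhds_zero_of_lt_one (by norm_num) (by norm_num)).comp
        (tendsto_add_atTop_nat 1)).const_mul _
    rw [mul_zero] at h1
    refine h1.congr ?_
    intro j
    rw [one_div, inv_pow, div_eq_mul_inv]
    field_simp
  obtain ⟨j, hj⟩ := (hlim.eventually (gt_mem_nhds (show (0 : ℝ) < 1 / 3 by norm_num))).exists
  have h1 := hbound (j + 1)
  have h2 := (hstep (m0 + 2 * j) (by omega) (hev j)).2
  have e : m0 + 2 * (j + 1) = m0 + 2 * j + 2 := by ring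
  rw [e] at h1
  linarith

lemma sch_unbounded' (hr : 0 < r) (hr1 : r < 1) (k : ℕ) : ∃ m, k < (sch r m).1 := by
  induction k with
  | zero =>
    obtain ⟨m, _, hm⟩ := sch_unbounded hr hr1 0 (by simp)
    exact ⟨m, lt_of_le_of_lt (Nat.zero_le _) hm⟩
  | succ k ih =>
    obtain ⟨m, hm⟩ := ih
    obtain ⟨n, hn⟩ : ∃ n, m ≤ n ∧ Even n := ⟨2 * m, by omega, even_two_mul m⟩
    obtain ⟨m', _, hm'⟩ := sch_unbounded hr hr1 n hn.2
    have h1 : (sch r m).1 ≤ (sch r n).1 := sch_mono hn.1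
    exact ⟨m', by omega⟩

end Pool.Agent.Lib.MP_dc5a1d_an
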