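import Pool.Agent.Lib.MP_dc5a1d_an.Tools
import Pool.Agent.Lib.MP_dc5a1d_an.Schedule

/-! Failure of the Kadec-Klee property of the dual sphere gives a diverging run for small `t`. -/

set_option autoImplicit false

open Filter Topology

namespace Pool.Agent.Lib.MP_dc5a1d_an

variable {X : Type*} [NormedAddCommGroup X] [NormedSpace ℝ X]

/-- data of the construction -/
structure Dat (F : X →L[ℝ] ℝ) (r δ : ℝ) (x z : ℕ → X) (g : ℕ → X →L[ℝ] ℝ) : Prop where
  r_pos : 0 < r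
  r_le : r ≤ δ / 32
  δ_le : δ ≤ 1
  F_norm : ‖F‖ = 1
  Fx : ∀ i, F (x i) = 1
  x_norm : ∀ i, ‖x i‖ ≤ 2
  x_near : ∀ m, ‖x (sch r m).1‖ ≤ 1 + r ^ (m + 1) * δ / 16
  z_norm : ∀ j, ‖z j‖ ≤ 1
  Fz : ∀ j, F (z j) = 0
  g_norm : ∀ m, ‖g m‖ ≤ 1
  g_near : ∀ m, ∀ u ∈ Submodule.span ℝ ({y | ∃ i ≤ m + 1, y = x i} ∪ {y | ∃ j < m, y = z j}),
    |g m u - F u| ≤ r ^ (m + 1) * δ / 128 * ‖u‖
  g_far : ∀ m, δ ≤ g m (z m)

/-- the finite dimensional stages -/
def Vm (x z : ℕ → X) (m : ℕ) : Submodule ℝ X :=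
  Submodule.span ℝ ({y | ∃ i ≤ m + 1, y = x i} ∪ {y | ∃ j < m, y = z j})

/-- partial sums -/
noncomputable def pm (r : ℝ) (x z : ℕ → X) (m : ℕ) : X := x 0 + ∑ j ∈ Finset.range m, r ^ (j + 1) • z j

lemma pm_succ (r : ℝ) (x z : ℕ → X) (m : ℕ) : pm r x z (m + 1) = pm r x z m + r ^ (m + 1) • z m := by
  unfold pm; rw [Finset.sum_range_succ, add_assoc]

lemma x_mem_Vm (x z : ℕ → X) (m i : ℕ) (h : i ≤ m + 1) : x i ∈ Vm x z m :=
  Submodule.subset_span (Or.inl ⟨i, h, rfl⟩)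

lemma z_mem_Vm (x z : ℕ → X) (m j : ℕ) (h : j < m) : z j ∈ Vm x z m :=
  Submodule.subset_span (Or.inr ⟨j, h, rfl⟩)

lemma Vm_mono (x z : ℕ → X) (m : ℕ) : Vm x z m ≤ Vm x z (m + 1) := by
  apply Submodule.span_mono
  rintro y (⟨i, hi, rfl⟩ | ⟨j, hj, rfl⟩)
  · exact Or.inl ⟨i, by omega, rfl⟩
  · exact Or.inr ⟨j, by omega, rfl⟩

lemma pm_mem (r : ℝ) (x z : ℕ → X) (m : ℕ) : pm r x z m ∈ Vm x z m := by
  unfold pm
  apply Submodule.add_mem _ (x_mem_Vm x z m 0 (by omega))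
  apply Submodule.sum_mem
  intro j hj
  exact Submodule.smul_mem _ _ (z_mem_Vm x z m j (Finset.mem_range.1 hj))

variable {F : X →L[ℝ] ℝ} {r δ : ℝ} {x z : ℕ → X} {g : ℕ → X →L[ℝ] ℝ}

lemma F_pm (h : Dat F r δ x z g) (m : ℕ) : F (pm r x z m) = 1 := by
  induction m with
  | zero => simp [pm, h.Fx 0]
  | succ m ih => rw [pm_succ, map_add, map_smul, h.Fz m, ih]; simp

lemma δ_pos (h : Dat F r δ x z g) : 0 < δ := by have := h.r_pos; have := h.r_le; linarith

lemma r_lt (h : Dat F r δ x z g) : r ≤ 1 / 32 := by have := h.r_le; have := h.δ_le; linarith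

lemma exists_lim [CompleteSpace X] (h : Dat F r δ x z g) : ∃ f : X, ∀ n, ‖f - pm r x z n‖ ≤ 2 * r ^ (n + 1) := by
  have hr := h.r_pos
  have hr1 : r < 1 := by have := r_lt h; linarith
  have hd : ∀ n, dist (pm r x z n) (pm r x z (n + 1)) ≤ r * r ^ n := by
    intro n
    rw [pm_succ, dist_eq_norm]
    have : pm r x z n - (pm r x z n + r ^ (n + 1) • z n) = -(r ^ (n + 1) • z n) := by abel
    rw [this, norm_neg, norm_smul, Real.norm_of_nonneg (by positivity)]
    have := h.z_norm n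
    have h2 : 0 < r ^ (n + 1) := by positivity
    calc r ^ (n + 1) * ‖z n‖ ≤ r ^ (n + 1) * 1 := by gcongr
      _ = r * r ^ n := by rw [mul_one, pow_succ, mul_comm]
  obtain ⟨f, hf⟩ := cauchySeq_tendsto_of_complete (cauchySeq_of_le_geometric r r hr1 hd)
  refine ⟨f, fun n => ?_⟩
  have := dist_le_of_le_geometric_of_tendsto r r hr1 hd hf n
  rw [dist_comm, dist_eq_norm] at this
  refine this.trans ?_
  rw [div_le_iff₀ (by linarith)]
  have h2 : 0 < r ^ n := by positivity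
  have h3 := r_lt h
  rw [pow_succ]
  nlinarith [mul_pos hr h2]

variable {f : X}

lemma F_lim (h : Dat F r δ x z g) (hf : ∀ n, ‖f - pm r x z n‖ ≤ 2 * r ^ (n + 1)) : F f = 1 := by
  have hr := h.r_pos
  have hr1 : r < 1 := by have := r_lt h; linarith
  have h1 : ∀ n, |F f - 1| ≤ 2 * r ^ (n + 1) := by
    intro n
    have := abs_le_of_norm h.F_norm.le (f - pm r x z n)
    rw [map_sub, F_pm h n] at this
    exact this.trans (hf n)
  have h2 : Tendsto (fun n : ℕ => 2 * r ^ (n + 1)) atTop (𝓝 (2 * 0)) :=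
    ((tendsto_pow_atTop_nhds_zero_of_lt_one hr.le hr1).comp (tendsto_add_atTop_nat 1)).const_mul 2
  rw [mul_zero] at h2
  have h3 : |F f - 1| ≤ 0 := ge_of_tendsto' h2 h1
  have h4 := abs_nonpos_iff.1 h3
  linarith

lemma f_norm (h : Dat F r δ x z g) (hf : ∀ n, ‖f - pm r x z n‖ ≤ 2 * r ^ (n + 1)) : ‖f‖ ≤ 3 := by
  have h1 := hf 0
  have h2 : pm r x z 0 = x 0 := by simp [pm]
  rw [h2] at h1
  have h3 := h.x_norm 0
  have h4 : f = (f - x 0) + x 0 := by abel
  rw [h4]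
  have h5 := norm_add_le (f - x 0) (x 0)
  have h6 := r_lt h
  simp at h1
  linarith

/-- the key estimate -/
lemma Eest (h : Dat F r δ x z g) (hf : ∀ n, ‖f - pm r x z n‖ ≤ 2 * r ^ (n + 1))
    (m : ℕ) (Φ : Submodule ℝ X) (hΦV : Φ ≤ Vm x z m) (hΦF : ∀ u ∈ Φ, F u = 0) (G : X)
    (hG : IsBestApprox f G Φ) (E : X →L[ℝ] ℝ) (hE : IsNorming E (f - G)) (hEΦ : ∀ u ∈ Φ, E u = 0)
    (y : X) (hy : pm r x z m - x (sch r m).1 - y ∈ Φ) :
    r ^ (m + 1) * δ * (3 / 4) ≤ r ^ (m + 1) * E (z m) + E y := by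
  have hr := h.r_pos
  have hδ := δ_pos h
  set s := r ^ (m + 1) with hs
  have hsp : 0 < s := by positivity
  have hs1 : s ≤ 1 := pow_le_one₀ hr.le (by have := r_lt h; linarith)
  have htail : ‖f - pm r x z (m + 1)‖ ≤ s * δ / 16 := by
    refine (hf (m + 1)).trans ?_
    have : r ^ (m + 1 + 1) = s * r := by rw [pow_succ]
    rw [this]
    have := h.r_le
    nlinarith
  have hdec : f - G = (pm r x z m - G) + s • z m + (f - pm r x z (m + 1)) := by
    rw [pm_succ]; abel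
  -- lower bound
  have hnG : ‖f - G‖ ≤ 3 := by
    have := hG.2 0 Φ.zero_mem
    rw [sub_zero] at this
    exact this.trans (f_norm h hf)
  have hpG : ‖pm r x z m - G‖ ≤ 5 := by
    have e : pm r x z m - G = (f - G) - (f - pm r x z m) := by abel
    rw [e]
    have h1 := norm_sub_le (f - G) (f - pm r x z m)
    have h2 := hf m
    linarith
  have hlow : 1 - s * δ / 16 + s * δ - s * δ / 16 ≤ ‖f - G‖ := by
    have h1 := (le_abs_self _).trans (abs_le_of_norm (h.g_norm m) (f - G))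
    rw [hdec, map_add, map_add, map_smul, smul_eq_mul] at h1
    rw [← hdec] at h1
    have h2 : F (pm r x z m - G) = 1 := by rw [map_sub, F_pm h m, hΦF G hG.1, sub_zero]
    have h3 := h.g_near m (pm r x z m - G)
      (Submodule.sub_mem _ (pm_mem r x z m) (hΦV hG.1))
    rw [h2] at h3
    have h4 : s * δ / 128 * ‖pm r x z m - G‖ ≤ s * δ / 16 := by
      have : s * δ / 128 * ‖pm r x z m - G‖ ≤ s * δ / 128 * 5 := by gcongr
      nlinarith [mul_pos hsp hδ]
    have h5 := (abs_le.1 h3).1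
    have h6 := (abs_le.1 (abs_le_of_norm (h.g_norm m) (f - pm r x z (m + 1)))).1
    have h7 : s * δ ≤ s * g m (z m) := mul_le_mul_of_nonneg_left (h.g_far m) hsp.le
    linarith
  -- upper bound
  have hup : ‖f - G‖ ≤ (1 + s * δ / 16) + E y + s * E (z m) + s * δ / 16 := by
    have e1 : E (f - G) = E (x (sch r m).1) + E y + s * E (z m) + E (f - pm r x z (m + 1)) := by
      have e2 : f - G = x (sch r m).1 + y + s • z m + (f - pm r x z (m + 1)) +
          ((pm r x z m - x (sch r m).1 - y) - G) := by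
        rw [pm_succ]; abel
      have e3 : E ((pm r x z m - x (sch r m).1 - y) - G) = 0 := by
        rw [map_sub, hEΦ _ hy, hEΦ G hG.1, sub_zero]
      rw [e2, map_add, map_add, map_add, map_add, map_smul, smul_eq_mul, e3, add_zero]
    rw [← hE.2, e1]
    have h1 := (le_abs_self _).trans (hE.abs_le (x (sch r m).1))
    have h2 := h.x_near m
    have h3 := (le_abs_self _).trans (hE.abs_le (f - pm r x z (m + 1)))
    linarith
  linarith

/-- error vectors -/
def Err (F : X →L[ℝ] ℝ) (r : ℝ) (x z : ℕ → X) (m : ℕ) (Φ : Submodule ℝ X) (k : ℕ) (a : ℝ) : Prop :=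
  ∃ y ∈ Vm x z m, F y = 0 ∧ ‖y‖ ≤ a ∧ pm r x z m - x k - y ∈ Φ

/-- keeping a target -/
lemma Err_keep (h : Dat F r δ x z g) {m : ℕ} {Φ Φ' : Submodule ℝ X} (hΦ : Φ ≤ Φ') {k : ℕ} {a : ℝ}
    (he : Err F r x z m Φ k a) : Err F r x z (m + 1) Φ' k (a + r ^ (m + 1)) := by
  obtain ⟨y, hy1, hy2, hy3, hy4⟩ := he
  have hr := h.r_pos
  refine ⟨y + r ^ (m + 1) • z m, ?_, ?_, ?_, ?_⟩
  · exact Submodule.add_mem _ (Vm_mono x z m hy1)
      (Submodule.smul_mem _ _ (z_mem_Vm x z (m + 1) m (Nat.lt_succ_self m)))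
  · rw [map_add, map_smul, hy2, h.Fz m]; simp
  · refine (norm_add_le _ _).trans ?_
    rw [norm_smul, Real.norm_of_nonneg (by positivity)]
    have := h.z_norm m
    have h2 : r ^ (m + 1) * ‖z m‖ ≤ r ^ (m + 1) * 1 := by
      apply mul_le_mul_of_nonneg_left this (by positivity)
    linarith
  · apply hΦ
    have : pm r x z (m + 1) - x k - (y + r ^ (m + 1) • z m) = pm r x z m - x k - y := by
      rw [pm_succ]; abel
    rw [this]; exact hy4

/-- eliminating the error of a target with a pick `v = z + c • y + w` -/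
lemma Err_elim (h : Dat F r δ x z g) {m : ℕ} {Φ Φ' : Submodule ℝ X} (hΦ : Φ ≤ Φ') {k : ℕ} {a : ℝ}
    {y : X} (hy2 : F y = 0) (hy3 : ‖y‖ ≤ a) (hy4 : pm r x z m - x k - y ∈ Φ)
    {c : ℝ} (hc : c ≠ 0) {w : X} (hw1 : w ∈ Vm x z m) (hw2 : F w = 0) {B : ℝ} (hw3 : ‖w‖ ≤ B)
    (hv : z m + c • y + w ∈ Φ') : Err F r x z (m + 1) Φ' k (r ^ (m + 1) + |c|⁻¹ * (1 + B)) := by
  have hr := h.r_pos
  have hz := z_mem_Vm x z (m + 1) m (Nat.lt_succ_self m)
  refine ⟨r ^ (m + 1) • z m - c⁻¹ • (z m + w), ?_, ?_, ?_, ?_⟩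
  · exact Submodule.sub_mem _ (Submodule.smul_mem _ _ hz)
      (Submodule.smul_mem _ _ (Submodule.add_mem _ hz (Vm_mono x z m hw1)))
  · rw [map_sub, map_smul, map_smul, map_add, h.Fz m, hw2]; simp
  · refine (norm_sub_le _ _).trans ?_
    rw [norm_smul, norm_smul, Real.norm_of_nonneg (by positivity), norm_inv, Real.norm_eq_abs]
    have h1 := h.z_norm m
    have h2 : r ^ (m + 1) * ‖z m‖ ≤ r ^ (m + 1) * 1 := by
      apply mul_le_mul_of_nonneg_left h1 (by positivity)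
    have h3 : ‖z m + w‖ ≤ 1 + B := (norm_add_le _ _).trans (add_le_add h1 hw3)
    have h4 : |c|⁻¹ * ‖z m + w‖ ≤ |c|⁻¹ * (1 + B) := mul_le_mul_of_nonneg_left h3 (by positivity)
    linarith
  · have : pm r x z (m + 1) - x k - (r ^ (m + 1) • z m - c⁻¹ • (z m + w)) =
        (pm r x z m - x k - y) + c⁻¹ • (z m + c • y + w) := by
      rw [pm_succ, smul_add, smul_add, smul_add, smul_smul, inv_mul_cancel₀ hc, one_smul]
      abel
    rw [this]
    exact Submodule.add_mem _ (hΦ hy4) (Submodule.smul_mem _ _ hv)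

lemma Err_le {m : ℕ} {Φ : Submodule ℝ X} {k : ℕ} {a b : ℝ} (hab : a ≤ b)
    (he : Err F r x z m Φ k a) : Err F r x z m Φ k b := by
  obtain ⟨y, hy1, hy2, hy3, hy4⟩ := he
  exact ⟨y, hy1, hy2, hy3.trans hab, hy4⟩

lemma Err_new (h : Dat F r δ x z g) (m : ℕ) (Φ : Submodule ℝ X) (k : ℕ) (hk : k ≤ m + 1) :
    Err F r x z m Φ k 5 := by
  refine ⟨pm r x z m - x k, Submodule.sub_mem _ (pm_mem r x z m) (x_mem_Vm x z m k hk), ?_, ?_, ?_⟩
  · rw [map_sub, F_pm h, h.Fx, sub_self]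
  · have h1 : ‖pm r x z m‖ ≤ 3 := by
      have hr := h.r_pos
      have hr1 := r_lt h
      have h2 : ∀ n, ‖pm r x z n‖ ≤ 3 - 2 * r ^ (n + 1) := by
        intro n
        induction n with
        | zero => have := h.x_norm 0; simp [pm]; linarith
        | succ n ih =>
          rw [pm_succ]
          refine (norm_add_le _ _).trans ?_
          rw [norm_smul, Real.norm_of_nonneg (by positivity)]
          have h3 := h.z_norm n
          have h4 : 0 < r ^ (n + 1) := by positivity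
          have h5 : r ^ (n + 1) * ‖z n‖ ≤ r ^ (n + 1) * 1 := by gcongr
          have h6 : r ^ (n + 1 + 1) = r ^ (n + 1) * r := by rw [pow_succ]
          rw [h6]
          nlinarith
      have := h2 m
      have h4 : 0 < r ^ (m + 1) := by positivity
      linarith
    have := h.x_norm k
    have := norm_sub_le (pm r x z m) (x k)
    linarith
  · rw [sub_self]; exact Φ.zero_mem

/-- the invariant of the run -/
def Inv (F : X →L[ℝ] ℝ) (r : ℝ) (x z : ℕ → X) (m : ℕ) (Φ : Submodule ℝ X) : Prop :=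
  Φ ≤ Vm x z m ∧ (∀ u ∈ Φ, F u = 0) ∧ Err F r x z m Φ (sch r m).1 (ab r m) ∧
    Err F r x z m Φ ((sch r m).1 + 1) (sch r m).2

/-- weights -/
noncomputable def al (r : ℝ) : ℝ := 3 / r ^ 2
noncomputable def be (r : ℝ) : ℝ := 4 / r ^ 2 * (1 + al r)
noncomputable def tt (r δ : ℝ) : ℝ := 3 / 4 * δ / (1 + al r + be r)

lemma exists_sign (a : ℝ) : ∃ σ : ℝ, |σ| = 1 ∧ σ * a = |a| := by
  rcases le_total 0 a with h | h
  · exact ⟨1, by simp, by rw [one_mul, abs_of_nonneg h]⟩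
  · exact ⟨-1, by simp, by rw [abs_of_nonpos h]; ring⟩

lemma inv_step (h : Dat F r δ x z g) (hf : ∀ n, ‖f - pm r x z n‖ ≤ 2 * r ^ (n + 1))
    (m : ℕ) (Φ : Submodule ℝ X) (hI : Inv F r x z m Φ) (G : X)
    (hG : IsBestApprox f G Φ) (E : X →L[ℝ] ℝ) (hE : IsNorming E (f - G)) (hEΦ : ∀ u ∈ Φ, E u = 0) :
    ∃ ψ : X, ‖ψ‖ = 1 ∧ tt r δ ≤ |E ψ| ∧ Inv F r x z (m + 1) (Φ ⊔ Submodule.span ℝ {ψ}) := by
  obtain ⟨hΦV, hΦF, ⟨y, hy1, hy2, hy3, hy4⟩, ⟨y', hy'1, hy'2, hy'3, hy'4⟩⟩ := hI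
  have hr := h.r_pos
  have hδ := δ_pos h
  have hr1 := r_lt h
  have hsp : 0 < r ^ (m + 1) := by positivity
  have hkey := Eest h hf m Φ hΦV hΦF G hG E hE hEΦ y hy4
  have ha := ab_pos hr m
  have hb := sch_pos hr m
  have hα : 0 < al r := by unfold al; positivity
  have hβ : 0 < be r := by unfold be; positivity
  have hαa : ab r m ≤ al r * r ^ (m + 1) := by
    have e : al r * r ^ (m + 1) = 3 * r ^ m / r := by
      unfold al
      field_simp
      rw [pow_succ]; ring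
    rw [e]; unfold ab
    split_ifs
    · exact le_refl _
    · rw [le_div_iff₀ hr]
      have : 0 < r ^ m := by positivity
      nlinarith
  obtain ⟨σ, hσ1, hσ2⟩ := exists_sign (E y)
  obtain ⟨σ', hσ'1, hσ'2⟩ := exists_sign (E y')
  -- a pick with an admissible second part
  have main : ∀ (w : X), w ∈ Vm x z m → F w = 0 → ‖w‖ ≤ be r → 0 ≤ E w →
      ∀ v, v = z m + (σ * al r / ab r m) • y + w → v ∈ Vm x z (m + 1) ∧ F v = 0 ∧ v ≠ 0 ∧
        tt r δ ≤ |E ((‖v‖)⁻¹ • v)| := by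
    intro w hw1 hw2 hw3 hw4 v hv
    have hEv : 3 / 4 * δ ≤ E v := by
      rw [hv, map_add, map_add, map_smul, smul_eq_mul]
      have e1 : σ * al r / ab r m * E y = al r / ab r m * |E y| := by rw [← hσ2]; ring
      rw [e1]
      have e2 : 1 / r ^ (m + 1) ≤ al r / ab r m := by
        rw [div_le_div_iff₀ hsp ha]; linarith
      have e3 : 1 / r ^ (m + 1) * |E y| ≤ al r / ab r m * |E y| :=
        mul_le_mul_of_nonneg_right e2 (abs_nonneg _)
      have e4 : 3 / 4 * δ ≤ E (z m) + 1 / r ^ (m + 1) * E y := by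
        have : r ^ (m + 1) * (3 / 4 * δ) ≤ r ^ (m + 1) * (E (z m) + 1 / r ^ (m + 1) * E y) := by
          have e5 : r ^ (m + 1) * (E (z m) + 1 / r ^ (m + 1) * E y) = r ^ (m + 1) * E (z m) + E y := by
            field_simp
          rw [e5]; linarith
        exact le_of_mul_le_mul_left this hsp
      have e6 : 1 / r ^ (m + 1) * E y ≤ 1 / r ^ (m + 1) * |E y| :=
        mul_le_mul_of_nonneg_left (le_abs_self _) (by positivity)
      linarith
    have hv0 : v ≠ 0 := by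
      intro h0; rw [h0, map_zero] at hEv; linarith
    have hvn : ‖v‖ ≤ 1 + al r + be r := by
      rw [hv]
      have h1 : ‖(σ * al r / ab r m) • y‖ ≤ al r := by
        rw [norm_smul, Real.norm_eq_abs, abs_div, abs_mul, hσ1, one_mul, abs_of_pos hα,
          abs_of_pos ha]
        rw [div_mul_eq_mul_div, div_le_iff₀ ha]
        exact mul_le_mul_of_nonneg_left hy3 hα.le
      calc ‖z m + (σ * al r / ab r m) • y + w‖ ≤ ‖z m + (σ * al r / ab r m) • y‖ + ‖w‖ :=
            norm_add_le _ _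
        _ ≤ ‖z m‖ + ‖(σ * al r / ab r m) • y‖ + ‖w‖ := by
            have := norm_add_le (z m) ((σ * al r / ab r m) • y)
            linarith
        _ ≤ 1 + al r + be r := by have := h.z_norm m; linarith
    have hvp : 0 < ‖v‖ := norm_pos_iff.2 hv0
    refine ⟨?_, ?_, hv0, ?_⟩
    · rw [hv]
      exact Submodule.add_mem _ (Submodule.add_mem _ (z_mem_Vm x z (m + 1) m (Nat.lt_succ_self m))
        (Submodule.smul_mem _ _ (Vm_mono x z m hy1))) (Vm_mono x z m hw1)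
    · rw [hv, map_add, map_add, map_smul, h.Fz, hy2, hw2]; simp
    · rw [map_smul, smul_eq_mul, abs_mul, abs_inv, abs_norm, abs_of_pos (by linarith)]
      unfold tt
      rw [inv_mul_eq_div, div_le_div_iff₀ (by positivity) hvp]
      calc 3 / 4 * δ * ‖v‖ ≤ 3 / 4 * δ * (1 + al r + be r) := by gcongr
        _ ≤ E v * (1 + al r + be r) := by gcongr
  -- the new subspace
  have sub : ∀ v : X, v ∈ Vm x z (m + 1) → F v = 0 → v ≠ 0 →
      Φ ⊔ Submodule.span ℝ {(‖v‖)⁻¹ • v} ≤ Vm x z (m + 1) ∧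
      (∀ u ∈ Φ ⊔ Submodule.span ℝ {(‖v‖)⁻¹ • v}, F u = 0) ∧ v ∈ Φ ⊔ Submodule.span ℝ {(‖v‖)⁻¹ • v} ∧
      ‖(‖v‖)⁻¹ • v‖ = 1 := by
    intro v hv1 hv2 hv3
    have hvp : ‖v‖ ≠ 0 := norm_ne_zero_iff.2 hv3
    refine ⟨?_, ?_, ?_, ?_⟩
    · apply sup_le (hΦV.trans (Vm_mono x z m))
      rw [Submodule.span_le, Set.singleton_subset_iff]
      exact Submodule.smul_mem _ _ hv1
    · intro u hu
      obtain ⟨u1, hu1, u2, hu2, rfl⟩ := Submodule.mem_sup.1 hu
      obtain ⟨c, rfl⟩ := Submodule.mem_span_singleton.1 hu2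
      rw [map_add, hΦF u1 hu1, map_smul, map_smul, hv2]; simp
    · apply Submodule.mem_sup_right
      refine Submodule.mem_span_singleton.2 ⟨‖v‖, ?_⟩
      rw [smul_smul, mul_inv_cancel₀ hvp, one_smul]
    · rw [norm_smul, norm_inv, norm_norm, inv_mul_cancel₀ hvp]
  have hσ0 : σ ≠ 0 := by intro h0; rw [h0, abs_zero] at hσ1; norm_num at hσ1
  have hσ'0 : σ' ≠ 0 := by intro h0; rw [h0, abs_zero] at hσ'1; norm_num at hσ'1
  by_cases hm : Even m
  · -- type A
    have hm' : ¬ Even (m + 1) := by rw [Nat.not_even_iff_odd]; exact hm.add_one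
    set v := z m + (σ * al r / ab r m) • y + 0 with hv
    obtain ⟨hv1, hv2, hv3, hv4⟩ := main 0 (Submodule.zero_mem _) (map_zero _) (by simpa using hβ.le)
      (by simp) v hv
    obtain ⟨s1, s2, s3, s4⟩ := sub v hv1 hv2 hv3
    refine ⟨(‖v‖)⁻¹ • v, s4, hv4, s1, s2, ?_, ?_⟩
    · have e1 := Err_elim h (le_sup_left : Φ ≤ Φ ⊔ Submodule.span ℝ {(‖v‖)⁻¹ • v}) hy2 hy3 hy4
        (c := σ * al r / ab r m) (by positivity) (w := 0) (Submodule.zero_mem _) (map_zero _)
        (B := 0) (by simp) s3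
      rw [sch_even m hm]
      apply Err_le _ e1
      rw [abs_div, abs_mul, hσ1, one_mul, abs_of_pos hα, abs_of_pos ha]
      unfold ab al
      rw [if_pos hm, if_neg hm']
      apply le_of_eq
      rw [pow_succ]; field_simp; ring
    · rw [sch_even m hm]
      exact Err_keep h le_sup_left ⟨y', hy'1, hy'2, hy'3, hy'4⟩
  · -- type B
    have hm' : Even (m + 1) := by rw [Nat.even_add_one]; exact hm
    set w' := (σ' * be r / (sch r m).2) • y' with hw'
    have hw'1 : w' ∈ Vm x z m := Submodule.smul_mem _ _ hy'1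
    have hw'2 : F w' = 0 := by rw [hw', map_smul, hy'2]; simp
    have hw'3 : ‖w'‖ ≤ be r := by
      rw [hw', norm_smul, Real.norm_eq_abs, abs_div, abs_mul, hσ'1, one_mul, abs_of_pos hβ,
        abs_of_pos hb, div_mul_eq_mul_div, div_le_iff₀ hb]
      exact mul_le_mul_of_nonneg_left hy'3 hβ.le
    have hw'4 : 0 ≤ E w' := by
      rw [hw', map_smul, smul_eq_mul]
      have : σ' * be r / (sch r m).2 * E y' = be r / (sch r m).2 * |E y'| := by rw [← hσ'2]; ring
      rw [this]; positivity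
    set v := z m + (σ * al r / ab r m) • y + w' with hv
    obtain ⟨hv1, hv2, hv3, hv4⟩ := main w' hw'1 hw'2 hw'3 hw'4 v hv
    obtain ⟨s1, s2, s3, s4⟩ := sub v hv1 hv2 hv3
    have hcur : Err F r x z (m + 1) (Φ ⊔ Submodule.span ℝ {(‖v‖)⁻¹ • v}) (sch r m).1
        (ab r (m + 1)) := by
      apply Err_le _ (Err_keep h le_sup_left ⟨y, hy1, hy2, hy3, hy4⟩)
      unfold ab
      rw [if_neg hm, if_pos hm', pow_succ, mul_div_assoc, mul_div_cancel_right₀ _ hr.ne']
      have : 0 < r ^ m := by positivity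
      nlinarith
    have hpen : Err F r x z (m + 1) (Φ ⊔ Submodule.span ℝ {(‖v‖)⁻¹ • v}) ((sch r m).1 + 1)
        (r ^ (m + 1) + (sch r m).2 * (r ^ 2 / 4)) := by
      have e1 := Err_elim h (le_sup_left : Φ ≤ Φ ⊔ Submodule.span ℝ {(‖v‖)⁻¹ • v}) hy'2 hy'3 hy'4
        (c := σ' * be r / (sch r m).2) (by positivity) (w := (σ * al r / ab r m) • y)
        (Submodule.smul_mem _ _ hy1) (by rw [map_smul, hy2]; simp)
        (B := al r) (by
          rw [norm_smul, Real.norm_eq_abs, abs_div, abs_mul, hσ1, one_mul, abs_of_pos hα,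
            abs_of_pos ha, div_mul_eq_mul_div, div_le_iff₀ ha]
          exact mul_le_mul_of_nonneg_left hy3 hα.le) (by
          have : z m + (σ' * be r / (sch r m).2) • y' + (σ * al r / ab r m) • y = v := by
            rw [hv, hw']; abel
          rw [this]; exact s3)
      apply Err_le _ e1
      rw [abs_div, abs_mul, hσ'1, one_mul, abs_of_pos hβ, abs_of_pos hb]
      apply le_of_eq
      have h1 : (1 + al r) ≠ 0 := by positivity
      unfold be
      field_simp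
    refine ⟨(‖v‖)⁻¹ • v, s4, hv4, s1, s2, ?_⟩
    by_cases hsw : r ^ (m + 1) + (sch r m).2 * (r ^ 2 / 4) ≤ 2 * r ^ (m + 1)
    · rw [sch_odd_switch m hm hsw]
      refine ⟨?_, ?_⟩
      · apply Err_le _ hpen
        refine hsw.trans ?_
        unfold ab
        rw [if_pos hm', le_div_iff₀ hr]
        nlinarith
      · apply Err_new h
        have := sch_le (r := r) m
        omega
    · rw [sch_odd_stay m hm hsw]
      exact ⟨hcur, hpen⟩

end Pool.Agent.Lib.MP_dc5a1d_an
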