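import Pool.Agent.Lib.MP_dc5a1d_an.Suff

/-! Tools: history recursion, the unit sphere as a dictionary, the failure of Kadec-Klee. -/

set_option autoImplicit false

open Filter Topology

namespace Pool.Agent.Lib.MP_dc5a1d_an

/-- recursion with choice depending on the finite history -/
lemma exists_seq_hist {α : Type*} [Inhabited α] (P : ℕ → (ℕ → α) → α → Prop)
    (hloc : ∀ n f g a, (∀ i < n, f i = g i) → P n f a → P n g a)
    (h : ∀ n f, ∃ a, P n f a) : ∃ f : ℕ → α, ∀ n, P n f (f n) := by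
  classical
  let F : (n : ℕ) → ((m : ℕ) → m < n → α) → α := fun n ih =>
    Classical.choose (h n (fun i => if hi : i < n then ih i hi else default))
  let f : ℕ → α := fun n => Nat.strongRec (motive := fun _ => α) F n
  have hf : ∀ n, f n = F n (fun m _ => f m) := by
    intro n
    show Nat.strongRec (motive := fun _ => α) F n = _
    rw [Nat.strongRec_eq]
  refine ⟨f, fun n => ?_⟩
  have h1 := Classical.choose_spec (h n (fun i => if hi : i < n then f i else default))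
  apply hloc n (fun i => if hi : i < n then f i else default)
  · intro i hi; simp [hi]
  · rw [hf n]; exact h1

variable {X : Type*} [NormedAddCommGroup X] [NormedSpace ℝ X]

lemma sphere_dictionary : IsDictionary {x : X | ‖x‖ = 1} := by
  refine ⟨fun g hg => hg, ?_⟩
  have : Submodule.span ℝ {x : X | ‖x‖ = 1} = ⊤ := by
    rw [eq_top_iff]
    intro k _
    by_cases hk0 : k = 0
    · rw [hk0]; exact Submodule.zero_mem _
    · have hn : ‖k‖ ≠ 0 := norm_ne_zero_iff.2 hk0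
      have : k = ‖k‖ • ((‖k‖)⁻¹ • k) := by rw [smul_smul, mul_inv_cancel₀ hn, one_smul]
      rw [this]
      apply Submodule.smul_mem
      apply Submodule.subset_span
      show ‖(‖k‖)⁻¹ • k‖ = 1
      rw [norm_smul, norm_inv, norm_norm, inv_mul_cancel₀ hn]
  rw [this]
  exact dense_univ

/-- almost norming vectors, normalised by `F x = 1` -/
lemma exists_almost (F : X →L[ℝ] ℝ) (hF : ‖F‖ = 1) (κ : ℝ) (hκ : 0 < κ) :
    ∃ x : X, F x = 1 ∧ ‖x‖ ≤ 1 + κ := by
  have h1 : (1 + κ)⁻¹ < ‖F‖ := by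
    rw [hF]; exact inv_lt_one_of_one_lt₀ (by linarith)
  obtain ⟨x, hx1, hx2⟩ : ∃ x : X, ‖x‖ < 1 ∧ (1 + κ)⁻¹ < ‖F x‖ := by
    by_contra hcon
    push Not at hcon
    have := ContinuousLinearMap.opNorm_le_of_unit_norm (f := F) (C := (1 + κ)⁻¹) (by positivity) (by
      intro x hx
      by_contra hc
      push Not at hc
      -- scale slightly
      have hcont : Tendsto (fun c : ℝ => ‖F (c • x)‖) (𝓝[<] 1) (𝓝 ‖F ((1 : ℝ) • x)‖) := by
        apply Tendsto.mono_left _ nhdsWithin_le_nhds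
        exact (F.continuous.comp (continuous_id.smul continuous_const)).norm.tendsto 1
      rw [one_smul] at hcont
      have hev := hcont.eventually (lt_mem_nhds hc)
      have hev2 : ∀ᶠ c : ℝ in 𝓝[<] 1, 0 < c ∧ c < 1 := by
        filter_upwards [Ioo_mem_nhdsLT (show (0 : ℝ) < 1 by norm_num)] with c hc
        exact hc
      obtain ⟨c, hc1, hc2, hc3⟩ := (hev.and hev2).exists
      have := hcon (c • x) (by rw [norm_smul, hx, mul_one, Real.norm_of_nonneg hc2.le]; exact hc3)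
      linarith)
    linarith
  have hx0 : F x ≠ 0 := by
    intro h
    rw [h, norm_zero] at hx2
    have : 0 < (1 + κ)⁻¹ := by positivity
    linarith
  refine ⟨(F x)⁻¹ • x, ?_, ?_⟩
  · rw [map_smul, smul_eq_mul, inv_mul_cancel₀ hx0]
  · rw [norm_smul, norm_inv]
    have h3 : 0 < ‖F x‖ := norm_pos_iff.2 hx0
    rw [inv_mul_le_iff₀ h3]
    have h4 : (1 + κ)⁻¹ * (1 + κ) = 1 := inv_mul_cancel₀ (by positivity)
    nlinarith

/-- failure of the Kadec-Klee property produces functionals close to `F` on a finite dimensional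
subspace and large on the kernel of `F` -/
lemma exists_far (F : X →L[ℝ] ℝ) (hF : ‖F‖ = 1) (ε : ℝ) (hε : 0 < ε)
    (hbad : ∀ (s : Finset X) (η : ℝ), 0 < η → ∃ G : X →L[ℝ] ℝ, ‖G‖ = 1 ∧
      (∀ x ∈ s, |G x - F x| < η) ∧ ε ≤ ‖G - F‖)
    (V : Submodule ℝ X) [FiniteDimensional ℝ V] (τ : ℝ) (hτ : 0 < τ) :
    ∃ (G : X →L[ℝ] ℝ) (z : X), ‖G‖ ≤ 1 ∧ (∀ u ∈ V, |G u - F u| ≤ τ * ‖u‖) ∧ ‖z‖ ≤ 1 ∧ F z = 0 ∧
      ε / 4 ≤ G z := by
  classical
  obtain ⟨s, η, hη, hs⟩ := finite_control V τ hτ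
  obtain ⟨y, hy1, hy2⟩ := exists_almost F hF 1 one_pos
  obtain ⟨G, hG1, hG2, hG3⟩ := hbad (insert y s) (min η (ε / 8)) (lt_min hη (by positivity))
  have hGF : ‖G - F‖ ≤ 2 := by
    calc ‖G - F‖ ≤ ‖G‖ + ‖F‖ := norm_sub_le _ _
      _ = 2 := by rw [hG1, hF]; norm_num
  have hV : ∀ u ∈ V, |G u - F u| ≤ τ * ‖u‖ := by
    intro u hu
    exact hs (G - F) hGF (fun x hx => by
      have := hG2 x (Finset.mem_insert_of_mem hx)
      exact lt_of_lt_of_le this (min_le_left _ _)) u hu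
  by_cases hz : ∃ z : X, ‖z‖ ≤ 1 ∧ F z = 0 ∧ ε / 4 ≤ G z
  · obtain ⟨z, hz1, hz2, hz3⟩ := hz
    exact ⟨G, z, hG1.le, hV, hz1, hz2, hz3⟩
  exfalso
  push Not at hz
  have hker : ∀ u : X, F u = 0 → |G u| ≤ ε / 4 * ‖u‖ := by
    intro u hu
    by_cases hu0 : u = 0
    · rw [hu0]; simp
    have hn : 0 < ‖u‖ := norm_pos_iff.2 hu0
    have h1 := hz ((‖u‖)⁻¹ • u) (by rw [norm_smul, norm_inv, norm_norm, inv_mul_cancel₀ hn.ne'])
      (by rw [map_smul, hu, smul_zero])
    have h2 := hz (-((‖u‖)⁻¹ • u)) (by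
      rw [norm_neg, norm_smul, norm_inv, norm_norm, inv_mul_cancel₀ hn.ne'])
      (by rw [map_neg, map_smul, hu, smul_zero, neg_zero])
    rw [map_smul, smul_eq_mul, inv_mul_lt_iff₀ hn] at h1
    rw [map_neg, map_smul, smul_eq_mul, neg_lt, ← neg_lt, ← mul_neg, inv_mul_lt_iff₀ hn] at h2
    rw [abs_le]
    constructor <;> linarith
  have hle : ‖G - F‖ ≤ ε / 8 + 3 * (ε / 4) := by
    apply ContinuousLinearMap.opNorm_le_bound _ (by positivity)
    intro h
    have h1 := hker (h - F h • y) (by rw [map_sub, map_smul, hy1, smul_eq_mul, mul_one, sub_self])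
    have h2 : ‖h - F h • y‖ ≤ 3 * ‖h‖ := by
      have h3 := abs_le_of_norm hF.le h
      calc ‖h - F h • y‖ ≤ ‖h‖ + ‖F h • y‖ := norm_sub_le _ _
        _ ≤ ‖h‖ + ‖h‖ * 2 := by
          rw [norm_smul, Real.norm_eq_abs]
          have : |F h| * ‖y‖ ≤ ‖h‖ * 2 := mul_le_mul h3 (by linarith) (norm_nonneg _) (norm_nonneg _)
          linarith
        _ = 3 * ‖h‖ := by ring
    have h4 : (G - F) h = F h * (G y - F y) + G (h - F h • y) := by
      rw [map_sub, map_smul, hy1, smul_eq_mul]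
      show G h - F h = _
      ring
    have h5 : |G y - F y| ≤ ε / 8 :=
      ((hG2 y (Finset.mem_insert_self _ _)).le).trans (min_le_right _ _)
    rw [Real.norm_eq_abs, h4]
    calc |F h * (G y - F y) + G (h - F h • y)| ≤ |F h * (G y - F y)| + |G (h - F h • y)| :=
          abs_add_le _ _
      _ ≤ ‖h‖ * (ε / 8) + ε / 4 * (3 * ‖h‖) := by
        rw [abs_mul]
        have h6 : |F h| * |G y - F y| ≤ ‖h‖ * (ε / 8) :=
          mul_le_mul (abs_le_of_norm hF.le h) h5 (abs_nonneg _) (norm_nonneg _)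
        have h7 : ε / 4 * ‖h - F h • y‖ ≤ ε / 4 * (3 * ‖h‖) :=
          mul_le_mul_of_nonneg_left h2 (by positivity)
        linarith
      _ = _ := by ring
  linarith

end Pool.Agent.Lib.MP_dc5a1d_an
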